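import Pool.Agent.Helper70.SK.Defs
import Pool.Agent.Helper11.DK.E1
import Pool.Agent.Helper23.DK.E2
import Pool.Agent.Helper23.DK.E3

/-! Sticky Kakeya sets: small library on the entropy of functions on finite sets. -/

namespace Pool.Agent.Helper70.SK

open Finset Pool.Agent.Helper70.DK

variable {Ω α β γ δ : Type}

/-- data processing: `f` is a function of `g` -/
theorem ent_le (S : Finset Ω) (f : Ω → α) (g : Ω → β) (h : ∀ x ∈ S, ∀ y ∈ S, g x = g y → f x = f y) :
    ent S f ≤ ent S g := st_E1.1 Ω α β S f g h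

theorem ent_congr (S : Finset Ω) (f : Ω → α) (g : Ω → β) (h : ∀ x ∈ S, ∀ y ∈ S, g x = g y ↔ f x = f y) :
    ent S f = ent S g :=
  le_antisymm (ent_le S f g fun x hx y hy e => (h x hx y hy).1 e)
    (ent_le S g f fun x hx y hy e => (h x hx y hy).2 e)

theorem ent_nonneg (S : Finset Ω) (f : Ω → α) : 0 ≤ ent S f := st_E1.2.2.1 Ω α S f

theorem ent_const (S : Finset Ω) (f : Ω → α) (h : ∀ x ∈ S, ∀ y ∈ S, f x = f y) : ent S f = 0 := by
  refine le_antisymm ?_ (ent_nonneg S f)
  rcases S.eq_empty_or_nonempty with hS | ⟨x0, hx0⟩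
  · subst hS
    simp [ent]
  · have := st_E2.2.2 Ω α S f {f x0} (fun x hx => by
      rw [Finset.mem_singleton]; exact h x hx x0 hx0)
    simpa using this

theorem cent_nonneg (S : Finset Ω) (f : Ω → α) (g : Ω → β) : 0 ≤ cent S f g := by
  unfold cent
  have := ent_le S g (fun ω => (f ω, g ω)) (fun x _ y _ e => (Prod.ext_iff.1 e).2)
  linarith

/-- chain rule -/
theorem cent_chain (S : Finset Ω) (f1 : Ω → α) (f2 : Ω → γ) (g : Ω → β) :
    cent S (fun ω => (f1 ω, f2 ω)) g = cent S f1 g + cent S f2 (fun ω => (f1 ω, g ω)) := by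
  unfold cent
  have := ent_congr S (fun ω => ((f1 ω, f2 ω), g ω)) (fun ω => (f2 ω, f1 ω, g ω)) (by
    intro x _ y _
    simp only [Prod.ext_iff]
    tauto)
  rw [this]; ring

/-- `f` is a function of `(f', g)` -/
theorem cent_mono_left (S : Finset Ω) (f : Ω → α) (f' : Ω → γ) (g : Ω → β)
    (h : ∀ x ∈ S, ∀ y ∈ S, f' x = f' y → g x = g y → f x = f y) : cent S f g ≤ cent S f' g := by
  unfold cent
  have := ent_le S (fun ω => (f ω, g ω)) (fun ω => (f' ω, g ω)) (by
    intro x hx y hy e
    have e' := Prod.ext_iff.1 e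
    exact Prod.ext (h x hx y hy e'.1 e'.2) e'.2)
  linarith

/-- `g` is a function of `g'`: conditioning on more decreases the entropy -/
theorem cent_mono_right (S : Finset Ω) (f : Ω → α) (g : Ω → β) (g' : Ω → γ)
    (h : ∀ x ∈ S, ∀ y ∈ S, g' x = g' y → g x = g y) : cent S f g' ≤ cent S f g := by
  have h1 := st_E1.2.1 Ω α γ β S f g' g
  have h2 := ent_congr S (fun ω => (f ω, g' ω, g ω)) (fun ω => (f ω, g' ω)) (by
    intro x hx y hy
    simp only [Prod.ext_iff]
    exact ⟨fun e => ⟨e.1, e.2, h x hx y hy e.2⟩, fun e => ⟨e.1, e.2.1⟩⟩)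
  have h3 := ent_congr S (fun ω => (g' ω, g ω)) g' (by
    intro x hx y hy
    simp only [Prod.ext_iff]
    exact ⟨fun e => ⟨e, h x hx y hy e⟩, fun e => e.1⟩)
  unfold cent
  rw [h2, h3] at h1
  linarith

theorem cent_congr_right (S : Finset Ω) (f : Ω → α) (g : Ω → β) (g' : Ω → γ)
    (h : ∀ x ∈ S, ∀ y ∈ S, g' x = g' y ↔ g x = g y) : cent S f g' = cent S f g :=
  le_antisymm (cent_mono_right S f g g' fun x hx y hy e => (h x hx y hy).1 e)
    (cent_mono_right S f g' g fun x hx y hy e => (h x hx y hy).2 e)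

theorem cent_congr_left (S : Finset Ω) (f : Ω → α) (f' : Ω → γ) (g : Ω → β)
    (h : ∀ x ∈ S, ∀ y ∈ S, g x = g y → (f' x = f' y ↔ f x = f y)) : cent S f g = cent S f' g :=
  le_antisymm (cent_mono_left S f f' g fun x hx y hy e e' => (h x hx y hy e').1 e)
    (cent_mono_left S f' f g fun x hx y hy e e' => (h x hx y hy e').2 e)

theorem cent_pair_le (S : Finset Ω) (f1 : Ω → α) (f2 : Ω → γ) (g : Ω → β) :
    cent S (fun ω => (f1 ω, f2 ω)) g ≤ cent S f1 g + cent S f2 g := by
  rw [cent_chain]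
  have := cent_mono_right S f2 g (fun ω => (f1 ω, g ω)) (fun x _ y _ e => (Prod.ext_iff.1 e).2)
  linarith

/-- adding `g'` to the condition costs at most `H(g' | g)` -/
theorem cent_le_add (S : Finset Ω) (f : Ω → α) (g : Ω → β) (g' : Ω → γ) :
    cent S f g ≤ cent S f (fun ω => (g' ω, g ω)) + cent S g' g := by
  have h1 := cent_chain S g' f g
  have h2 := cent_mono_left S f (fun ω => (g' ω, f ω)) g (fun x _ y _ e _ => (Prod.ext_iff.1 e).2)
  linarith

/-- replacing the condition `g` by `g'` costs at most `H(g' | g)` -/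
theorem cent_change_right (S : Finset Ω) (f : Ω → α) (g : Ω → β) (g' : Ω → γ) :
    cent S f g ≤ cent S f g' + cent S g' g := by
  have h1 := cent_le_add S f g g'
  have h2 := cent_mono_right S f g' (fun ω => (g' ω, g ω)) (fun x _ y _ e => (Prod.ext_iff.1 e).1)
  linarith

/-- replacing `f` by `f'` costs at most `H(f | f', g)` -/
theorem cent_change_left (S : Finset Ω) (f : Ω → α) (f' : Ω → γ) (g : Ω → β) :
    cent S f g ≤ cent S f' g + cent S f (fun ω => (f' ω, g ω)) := by
  rw [← cent_chain]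
  exact cent_mono_left S f _ g (fun x _ y _ e _ => (Prod.ext_iff.1 e).2)

theorem cent_zero (S : Finset Ω) (f : Ω → α) (g : Ω → β)
    (h : ∀ x ∈ S, ∀ y ∈ S, g x = g y → f x = f y) : cent S f g = 0 := by
  unfold cent
  have := ent_congr S (fun ω => (f ω, g ω)) g (by
    intro x hx y hy
    simp only [Prod.ext_iff]
    exact ⟨fun e => ⟨h x hx y hy e, e⟩, fun e => e.2⟩)
  linarith

/-- at most `K` values on every fibre of `g` -/
theorem cent_card (S : Finset Ω) (f : Ω → α) (g : Ω → β) (K : ℕ)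
    (h : ∀ c, ∃ F : Finset α, F.card ≤ K ∧ ∀ x ∈ S, g x = c → f x ∈ F) : cent S f g ≤ Real.log K :=
  st_E2.1 Ω α β S f g K h

theorem cent_le_ent (S : Finset Ω) (f : Ω → α) (g : Ω → β) : cent S f g ≤ ent S f := by
  have h := st_E1.2.2.2 Ω α β S f g
  unfold cent
  linarith

theorem ent_card (S : Finset Ω) (f : Ω → α) (F : Finset α) (h : ∀ x ∈ S, f x ∈ F) :
    ent S f ≤ Real.log F.card := st_E2.2.2 Ω α S f F h

/-- entropy is a function of the law: if all values have the same frequencies -/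
theorem ent_eq_sum_law (S : Finset Ω) (f : Ω → α) (A : Finset α) (hA : ∀ x ∈ S, f x ∈ A) :
    ent S f = ∑ z ∈ A, -(law S f z * Real.log (law S f z)) := by
  classical
  rcases S.eq_empty_or_nonempty with hS | hS
  · subst hS
    simp [ent, law]
  have hn : (0 : ℝ) < S.card := by exact_mod_cast hS.card_pos
  have key : ∀ z ∈ A, -(law S f z * Real.log (law S f z)) =
      ∑ ω ∈ S.filter (fun ω => f ω = z),
        (Real.log (S.card : ℝ) - Real.log ((S.filter (fun ω' => f ω' = f ω)).card : ℝ)) / (S.card : ℝ) := by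
    intro z _
    have e1 : ∀ ω ∈ S.filter (fun ω => f ω = z),
        (Real.log (S.card : ℝ) - Real.log ((S.filter (fun ω' => f ω' = f ω)).card : ℝ)) / (S.card : ℝ) =
        (Real.log (S.card : ℝ) - Real.log ((S.filter (fun ω' => f ω' = z)).card : ℝ)) / (S.card : ℝ) := by
      intro ω hω
      rw [(Finset.mem_filter.1 hω).2]
    rw [Finset.sum_congr rfl e1, Finset.sum_const, nsmul_eq_mul]
    unfold law
    by_cases h0 : (S.filter (fun ω => f ω = z)).card = 0
    · have h1 : (Finset.filter (fun ω => f ω = z) S).card = 0 := h0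
      simp [h1]
    · have h1 : (0 : ℝ) < ((S.filter (fun ω => f ω = z)).card : ℝ) := by
        exact_mod_cast Nat.pos_of_ne_zero h0
      rw [Real.log_div h1.ne' hn.ne']
      ring
  rw [Finset.sum_congr rfl key]
  unfold ent
  rw [Finset.sum_div]
  exact (Finset.sum_fiberwise_of_maps_to hA _).symm

theorem law_nonneg (S : Finset Ω) (f : Ω → α) (z : α) : 0 ≤ law S f z := by
  unfold law
  positivity

theorem law_zero_of_notMem (S : Finset Ω) (f : Ω → α) (z : α) (h : ∀ x ∈ S, f x ≠ z) : law S f z = 0 := by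
  classical
  unfold law
  have : (S.filter (fun ω => f ω = z)) = ∅ := by
    rw [Finset.filter_eq_empty_iff]
    exact fun x hx => h x hx
  simp [this]

theorem law_sum (S : Finset Ω) (f : Ω → α) (A : Finset α) (hA : ∀ x ∈ S, f x ∈ A) (hS : S.Nonempty) :
    ∑ z ∈ A, law S f z = 1 := by
  classical
  have hn : (0 : ℝ) < S.card := by exact_mod_cast hS.card_pos
  unfold law
  rw [← Finset.sum_div, div_eq_one_iff_eq hn.ne']
  rw [Finset.card_eq_sum_card_fiberwise (f := f) (t := A) (fun x hx => hA x hx)]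
  push_cast
  rfl

theorem ent_eq_of_law {Ω' : Type} (S : Finset Ω) (f : Ω → α) (S' : Finset Ω') (f' : Ω' → α)
    (h : ∀ z, law S f z = law S' f' z) : ent S f = ent S' f' := by
  classical
  have h1 := ent_eq_sum_law S f (S.image f ∪ S'.image f')
    (fun x hx => Finset.mem_union_left _ (Finset.mem_image_of_mem f hx))
  have h2 := ent_eq_sum_law S' f' (S.image f ∪ S'.image f')
    (fun x hx => Finset.mem_union_right _ (Finset.mem_image_of_mem f' hx))
  rw [h1, h2]
  exact Finset.sum_congr rfl fun z _ => by rw [h z]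

/-- the `L¹` distance as a sum over any larger set -/
theorem l1_eq_sum {Ω' : Type} (S : Finset Ω) (f : Ω → α) (S' : Finset Ω') (f' : Ω' → α) (A : Finset α)
    (hA : ∀ x ∈ S, f x ∈ A) (hA' : ∀ x ∈ S', f' x ∈ A) :
    l1 S f S' f' = ∑ z ∈ A, |law S f z - law S' f' z| := by
  classical
  unfold l1
  refine Finset.sum_subset ?_ ?_
  · intro z hz
    rcases Finset.mem_union.1 hz with hz | hz
    · obtain ⟨x, hx, rfl⟩ := Finset.mem_image.1 hz
      exact hA x hx
    · obtain ⟨x, hx, rfl⟩ := Finset.mem_image.1 hz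
      exact hA' x hx
  · intro z _ hz
    have h1 : law S f z = 0 := law_zero_of_notMem S f z fun x hx e =>
      hz (Finset.mem_union_left _ (e ▸ Finset.mem_image_of_mem f hx))
    have h2 : law S' f' z = 0 := law_zero_of_notMem S' f' z fun x hx e =>
      hz (Finset.mem_union_right _ (e ▸ Finset.mem_image_of_mem f' hx))
    simp [h1, h2]

theorem l1_nonneg {Ω' : Type} (S : Finset Ω) (f : Ω → α) (S' : Finset Ω') (f' : Ω' → α) :
    0 ≤ l1 S f S' f' := by
  classical
  unfold l1
  exact Finset.sum_nonneg fun _ _ => abs_nonneg _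

theorem l1_self (S : Finset Ω) (f : Ω → α) : l1 S f S f = 0 := by
  classical
  unfold l1
  simp

theorem l1_comm {Ω' : Type} (S : Finset Ω) (f : Ω → α) (S' : Finset Ω') (f' : Ω' → α) :
    l1 S f S' f' = l1 S' f' S f := by
  classical
  rw [l1_eq_sum S f S' f' (S.image f ∪ S'.image f')
    (fun x hx => Finset.mem_union_left _ (Finset.mem_image_of_mem f hx))
    (fun x hx => Finset.mem_union_right _ (Finset.mem_image_of_mem f' hx)),
    l1_eq_sum S' f' S f (S.image f ∪ S'.image f')
    (fun x hx => Finset.mem_union_right _ (Finset.mem_image_of_mem f' hx))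
    (fun x hx => Finset.mem_union_left _ (Finset.mem_image_of_mem f hx))]
  exact Finset.sum_congr rfl fun z _ => abs_sub_comm _ _

theorem l1_triangle {Ω' Ω'' : Type} (S : Finset Ω) (f : Ω → α) (S' : Finset Ω') (f' : Ω' → α)
    (S'' : Finset Ω'') (f'' : Ω'' → α) : l1 S f S'' f'' ≤ l1 S f S' f' + l1 S' f' S'' f'' := by
  classical
  have a1 : ∀ x ∈ S, f x ∈ S.image f ∪ S'.image f' ∪ S''.image f'' := fun x hx =>
    Finset.mem_union_left _ (Finset.mem_union_left _ (Finset.mem_image_of_mem f hx))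
  have a2 : ∀ x ∈ S', f' x ∈ S.image f ∪ S'.image f' ∪ S''.image f'' := fun x hx =>
    Finset.mem_union_left _ (Finset.mem_union_right _ (Finset.mem_image_of_mem f' hx))
  have a3 : ∀ x ∈ S'', f'' x ∈ S.image f ∪ S'.image f' ∪ S''.image f'' := fun x hx =>
    Finset.mem_union_right _ (Finset.mem_image_of_mem f'' hx)
  rw [l1_eq_sum S f S'' f'' _ a1 a3, l1_eq_sum S f S' f' _ a1 a2, l1_eq_sum S' f' S'' f'' _ a2 a3,
    ← Finset.sum_add_distrib]
  exact Finset.sum_le_sum fun z _ => abs_sub_le _ _ _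

theorem l1_le_two {Ω' : Type} (S : Finset Ω) (f : Ω → α) (S' : Finset Ω') (f' : Ω' → α) :
    l1 S f S' f' ≤ 2 := by
  classical
  have a1 : ∀ x ∈ S, f x ∈ S.image f ∪ S'.image f' := fun x hx =>
    Finset.mem_union_left _ (Finset.mem_image_of_mem f hx)
  have a2 : ∀ x ∈ S', f' x ∈ S.image f ∪ S'.image f' := fun x hx =>
    Finset.mem_union_right _ (Finset.mem_image_of_mem f' hx)
  have b : ∀ (Ω1 : Type) (S1 : Finset Ω1) (f1 : Ω1 → α), (∀ x ∈ S1, f1 x ∈ S.image f ∪ S'.image f') →
      ∑ z ∈ S.image f ∪ S'.image f', law S1 f1 z ≤ 1 := by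
    intro Ω1 S1 f1 h1
    rcases S1.eq_empty_or_nonempty with hS | hS
    · subst hS
      simp [law]
    · exact (law_sum S1 f1 _ h1 hS).le
  rw [l1_eq_sum S f S' f' _ a1 a2]
  calc ∑ z ∈ S.image f ∪ S'.image f', |law S f z - law S' f' z|
      ≤ ∑ z ∈ S.image f ∪ S'.image f', (law S f z + law S' f' z) := by
        refine Finset.sum_le_sum fun z _ => ?_
        rw [abs_le]
        have h1 := law_nonneg S f z
        have h2 := law_nonneg S' f' z
        constructor <;> linarith
    _ ≤ 2 := by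
        rw [Finset.sum_add_distrib]
        have h1 := b _ S f a1
        have h2 := b _ S' f' a2
        linarith

theorem l1_eq_of_law {Ω' Ω1 Ω1' : Type} (S : Finset Ω) (f : Ω → α) (S' : Finset Ω') (f' : Ω' → α)
    (T : Finset Ω1) (g : Ω1 → α) (T' : Finset Ω1') (g' : Ω1' → α)
    (h : ∀ z, law S f z = law T g z) (h' : ∀ z, law S' f' z = law T' g' z) :
    l1 S f S' f' = l1 T g T' g' := by
  classical
  have e : ∀ (Ω2 Ω3 : Type) (A : Finset Ω2) (a : Ω2 → α) (A' : Finset Ω3) (a' : Ω3 → α) (F : Finset α),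
      (∀ x ∈ A, a x ∈ F) → (∀ x ∈ A', a' x ∈ F) → l1 A a A' a' = ∑ z ∈ F, |law A a z - law A' a' z| :=
    fun _ _ A a A' a' F => l1_eq_sum A a A' a' F
  rw [e _ _ S f S' f' (S.image f ∪ S'.image f' ∪ (T.image g ∪ T'.image g'))
      (fun x hx => Finset.mem_union_left _ (Finset.mem_union_left _ (Finset.mem_image_of_mem f hx)))
      (fun x hx => Finset.mem_union_left _ (Finset.mem_union_right _ (Finset.mem_image_of_mem f' hx))),
    e _ _ T g T' g' (S.image f ∪ S'.image f' ∪ (T.image g ∪ T'.image g'))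
      (fun x hx => Finset.mem_union_right _ (Finset.mem_union_left _ (Finset.mem_image_of_mem g hx)))
      (fun x hx => Finset.mem_union_right _ (Finset.mem_union_right _ (Finset.mem_image_of_mem g' hx)))]
  exact Finset.sum_congr rfl fun z _ => by rw [h z, h' z]

/-- injective relabelling of the values -/
theorem law_inj (S : Finset Ω) (f : Ω → α) (F : α → β) (hF : Function.Injective F) (z : α) :
    law S (fun ω => F (f ω)) (F z) = law S f z := by
  classical
  unfold law
  simp only [hF.eq_iff]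

theorem l1_inj {Ω' : Type} (S : Finset Ω) (f : Ω → α) (S' : Finset Ω') (f' : Ω' → α) (F : α → β)
    (hF : Function.Injective F) : l1 S (fun ω => F (f ω)) S' (fun ω => F (f' ω)) = l1 S f S' f' := by
  classical
  rw [l1_eq_sum S (fun ω => F (f ω)) S' (fun ω => F (f' ω)) ((S.image f ∪ S'.image f').image F)
    (fun x hx => Finset.mem_image_of_mem F (Finset.mem_union_left _ (Finset.mem_image_of_mem f hx)))
    (fun x hx => Finset.mem_image_of_mem F (Finset.mem_union_right _ (Finset.mem_image_of_mem f' hx))),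
    Finset.sum_image (fun a _ b _ e => hF e)]
  unfold l1
  exact Finset.sum_congr rfl fun z _ => by rw [law_inj S f F hF, law_inj S' f' F hF]

end Pool.Agent.Helper70.SK
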