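import Pool.Agent.Helper70.SK.Stmts3

/-! CNT from OCC. -/

namespace Pool.Agent.Helper70.SK

open Finset Pool.Agent.Helper70.DK MeasureTheory

theorem cnt2_card_gr (q M : ℕ) : (gr q M).card = M ^ q := by
  rw [gr, Fintype.card_piFinset]
  simp

open Classical in
theorem st_CNT2 (hOCC : ST_OCC) : ST_CNT := by
  intro m b L lam S hb hlam hS hv
  obtain ⟨N, hN⟩ : ∃ N : ℕ, N = b ^ L := ⟨_, rfl⟩
  have hN1 : 1 ≤ N := by rw [hN]; exact Nat.one_le_pow _ _ (by omega)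
  have hN0 : (0 : ℝ) < N := by exact_mod_cast hN1
  have hNr : (N : ℝ) = (b : ℝ) ^ L := by rw [hN]; push_cast; rfl
  have h1 := hOCC m N lam S hN1 hlam hS hv
  have h2 : (((gr m N ×ˢ Finset.range N).filter
      (fun z => ∃ p ∈ S, (∀ c, ⌊(N : ℝ) * p.1 c⌋ = z.1 c) ∧ ⌊(N : ℝ) * p.2⌋ = (z.2 : ℤ))).card : ℝ) =
      ∑ γ ∈ Finset.range N, ((cellsOf m b L S γ).card : ℝ) := by
    rw [Finset.card_filter, Finset.sum_product_right, Nat.cast_sum]
    refine Finset.sum_congr rfl fun γ _ => ?_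
    rw [cellsOf, Finset.card_filter, hN, ← hN, hNr]
  have h1' : lam * (N : ℝ) ^ (m + 1) ≤ ∑ γ ∈ Finset.range N, ((cellsOf m b L S γ).card : ℝ) := by
    rw [← h2]
    convert h1 using 4
  obtain ⟨P, hP⟩ : ∃ P : ℕ → Prop, P = fun γ => lam / 2 * (b : ℝ) ^ (L * m) ≤ ((cellsOf m b L S γ).card : ℝ) :=
    ⟨_, rfl⟩
  have hbm : (b : ℝ) ^ (L * m) = (N : ℝ) ^ m := by rw [hNr, pow_mul]
  have h3 : ∀ γ ∈ Finset.range N, ((cellsOf m b L S γ).card : ℝ) ≤
      (if P γ then (N : ℝ) ^ m else 0) + lam / 2 * (N : ℝ) ^ m := by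
    intro γ _
    by_cases hγ : P γ
    · rw [if_pos hγ]
      have h4 : ((cellsOf m b L S γ).card : ℝ) ≤ (N : ℝ) ^ m := by
        have h5 : (cellsOf m b L S γ).card ≤ (gr m (b ^ L)).card := Finset.card_le_card (Finset.filter_subset _ _)
        rw [cnt2_card_gr, ← hN] at h5
        exact_mod_cast h5
      have h6 : 0 ≤ lam / 2 * (N : ℝ) ^ m := by positivity
      linarith
    · rw [if_neg hγ, zero_add]
      rw [hP] at hγ
      simp only [not_le] at hγ
      rw [hbm] at hγ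
      exact hγ.le
  have h4 := h1'.trans (Finset.sum_le_sum h3)
  rw [Finset.sum_add_distrib, ← Finset.sum_filter, Finset.sum_const, Finset.sum_const, Finset.card_range, nsmul_eq_mul,
    nsmul_eq_mul] at h4
  have h5 : (((Finset.range (b ^ L)).filter
      (fun γ => lam / 2 * (b : ℝ) ^ (L * m) ≤ ((cellsOf m b L S γ).card : ℝ))).card : ℝ) =
      (((Finset.range N).filter P).card : ℝ) := by
    rw [hP, hN]
  have h6 : (0 : ℝ) < (N : ℝ) ^ m := by positivity
  have h7 : lam / 2 * N * (N : ℝ) ^ m ≤ (((Finset.range N).filter P).card : ℝ) * (N : ℝ) ^ m := by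
    have e1 : lam * (N : ℝ) ^ (m + 1) = lam * N * (N : ℝ) ^ m := by rw [pow_succ]; ring
    rw [e1] at h4
    have e2 : (N : ℝ) * (lam / 2 * (N : ℝ) ^ m) = lam / 2 * N * (N : ℝ) ^ m := by ring
    rw [e2] at h4
    linarith
  have h8 := le_of_mul_le_mul_right h7 h6
  rw [← hNr]
  refine h8.trans (le_of_eq ?_)
  rw [← h5]

end Pool.Agent.Helper70.SK
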