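import Pool.Agent.Helper70.SK.Stmts3

/-! Countable families of line sets and countable covers. -/

namespace Pool.Agent.Helper70.SK

open Finset Pool.Agent.Helper70.DK MeasureTheory

theorem covl_content {m : ℕ} {C C' : ℝ} (h : C ≤ C') {L : Set ((Fin m → ℝ) × (Fin m → ℝ))}
    (hL : Content m C L) : Content m C' L := by
  intro j
  obtain ⟨F, h1, h2⟩ := hL j
  exact ⟨F, h1.trans (mul_le_mul_of_nonneg_right h (by positivity)), h2⟩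

theorem covl_tsum (lam : ℝ) (hlam : 0 < lam) :
    ∑' p : ℕ × ℕ, ENNReal.ofReal (lam * (1 / 2) ^ (p.1 + p.2 + 3)) < ENNReal.ofReal lam := by
  have h1 : ∀ p : ℕ × ℕ, ENNReal.ofReal (lam * (1 / 2) ^ (p.1 + p.2 + 3)) =
      ENNReal.ofReal (lam / 8) * ((2 : ENNReal)⁻¹ ^ p.1 * (2 : ENNReal)⁻¹ ^ p.2) := by
    intro p
    have h2 : lam * (1 / 2) ^ (p.1 + p.2 + 3) = (lam / 8) * ((1 / 2) ^ p.1 * (1 / 2) ^ p.2) := by
      rw [pow_add, pow_add]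
      ring
    rw [h2, ENNReal.ofReal_mul (by positivity), ENNReal.ofReal_mul (by positivity),
      ENNReal.ofReal_pow (by norm_num), ENNReal.ofReal_pow (by norm_num)]
    have h3 : ENNReal.ofReal (1 / 2) = (2 : ENNReal)⁻¹ := by
      rw [one_div, ENNReal.ofReal_inv_of_pos (by norm_num)]
      norm_num
    rw [h3]
  have h4 : ∑' n : ℕ, (2 : ENNReal)⁻¹ ^ n = 2 := by
    rw [ENNReal.tsum_geometric]
    rw [ENNReal.one_sub_inv_two, inv_inv]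
  have h5 : ∑' p : ℕ × ℕ, ENNReal.ofReal (lam * (1 / 2) ^ (p.1 + p.2 + 3)) =
      ENNReal.ofReal (lam / 8) * (2 * 2) := by
    rw [tsum_congr h1, ENNReal.tsum_mul_left]
    congr 1
    rw [ENNReal.tsum_prod (f := fun a b : ℕ => (2 : ENNReal)⁻¹ ^ a * (2 : ENNReal)⁻¹ ^ b)]
    simp_rw [ENNReal.tsum_mul_left]
    rw [ENNReal.tsum_mul_right, h4]
  rw [h5]
  have h6 : (2 * 2 : ENNReal) = ENNReal.ofReal 4 := by
    rw [show (4 : ℝ) = 2 * 2 by norm_num, ENNReal.ofReal_mul (by norm_num)]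
    norm_num
  rw [h6, ← ENNReal.ofReal_mul (by positivity), ENNReal.ofReal_lt_ofReal_iff hlam]
  linarith

theorem covl_main (hGL : ST_GL) (m M : ℕ) (hm : 1 ≤ m) (C : ℕ → ℝ) (lam : ℝ) (hlam : 0 < lam) :
    ∃ c : ℕ → ℕ → ℝ → ℝ, (∀ k i ε, 0 < ε → 0 < c k i ε) ∧
      ∀ (L : ℕ → Set ((Fin m → ℝ) × (Fin m → ℝ))) (E : ℕ → Set (EuclideanSpace ℝ (Fin (m + 1)))),
        (∀ k, Content m (C k) (L k)) →
        ENNReal.ofReal lam ≤ volume {p : (Fin m → ℝ) × ℝ | (∀ c, |p.1 c| ≤ M) ∧ |p.2| ≤ M ∧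
          ∃ a : Fin m → ℝ, (p.1, a) ∈ ⋃ k, L k ∧ pt (fun c => a c + p.2 * p.1 c) p.2 ∈ ⋃ i, E i} →
        ∃ k i, ∀ ε δ : ℝ, 0 < ε → 0 < δ → δ < 1 →
          ENNReal.ofReal (c k i ε * δ ^ ε) ≤ volume (Metric.thickening δ (E i)) := by
  classical
  have hc : ∀ (k i : ℕ) (ε : ℝ), ∃ c : ℝ, 0 < ε → 0 < c ∧
      ∀ L : Set ((Fin m → ℝ) × (Fin m → ℝ)), Content m (C k) L →
      ∀ E : Set (EuclideanSpace ℝ (Fin (m + 1))),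
      ENNReal.ofReal (lam * (1 / 2) ^ (k + i + 3)) ≤
        volume {p : (Fin m → ℝ) × ℝ | (∀ c, |p.1 c| ≤ M) ∧ |p.2| ≤ M ∧
        ∃ a : Fin m → ℝ, (p.1, a) ∈ L ∧ pt (fun c => a c + p.2 * p.1 c) p.2 ∈ E} →
      ∀ δ : ℝ, 0 < δ → δ < 1 → ENNReal.ofReal (c * δ ^ ε) ≤ volume (Metric.thickening δ E) := by
    intro k i ε
    by_cases hε : 0 < ε
    · obtain ⟨c, h1, h2⟩ := hGL m M (C k) (lam * (1 / 2) ^ (k + i + 3)) ε hm (by positivity) hε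
      exact ⟨c, fun _ => ⟨h1, h2⟩⟩
    · exact ⟨0, fun h => absurd h hε⟩
  choose c hc using hc
  refine ⟨c, fun k i ε hε => (hc k i ε hε).1, ?_⟩
  intro L E hL hvol
  by_contra hne
  have hlt : ∀ p : ℕ × ℕ, volume {q : (Fin m → ℝ) × ℝ | (∀ c, |q.1 c| ≤ M) ∧ |q.2| ≤ M ∧
        ∃ a : Fin m → ℝ, (q.1, a) ∈ L p.1 ∧ pt (fun c => a c + q.2 * q.1 c) q.2 ∈ E p.2} ≤
      ENNReal.ofReal (lam * (1 / 2) ^ (p.1 + p.2 + 3)) := by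
    intro p
    by_contra hp
    rw [not_le] at hp
    exact hne ⟨p.1, p.2, fun ε δ hε hδ hδ1 => (hc p.1 p.2 ε hε).2 _ (hL p.1) _ hp.le δ hδ hδ1⟩
  have hsub : {p : (Fin m → ℝ) × ℝ | (∀ c, |p.1 c| ≤ M) ∧ |p.2| ≤ M ∧
          ∃ a : Fin m → ℝ, (p.1, a) ∈ ⋃ k, L k ∧ pt (fun c => a c + p.2 * p.1 c) p.2 ∈ ⋃ i, E i} ⊆
      ⋃ p : ℕ × ℕ, {q : (Fin m → ℝ) × ℝ | (∀ c, |q.1 c| ≤ M) ∧ |q.2| ≤ M ∧
        ∃ a : Fin m → ℝ, (q.1, a) ∈ L p.1 ∧ pt (fun c => a c + q.2 * q.1 c) q.2 ∈ E p.2} := by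
    rintro q ⟨h1, h2, a, h3, h4⟩
    obtain ⟨k, h5⟩ := Set.mem_iUnion.1 h3
    obtain ⟨i, h6⟩ := Set.mem_iUnion.1 h4
    exact Set.mem_iUnion.2 ⟨(k, i), h1, h2, a, h5, h6⟩
  have h1 := hvol.trans ((measure_mono hsub).trans (measure_iUnion_le _))
  have h2 := h1.trans (ENNReal.tsum_le_tsum hlt)
  exact absurd (lt_of_le_of_lt h2 (covl_tsum lam hlam)) (lt_irrefl _)

end Pool.Agent.Helper70.SK
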