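import Pool.Agent.Helper70.SK.Stmts3

/-! COVS: common shifts for a family of sets of digits. -/

namespace Pool.Agent.Helper70.SK

open Finset Pool.Agent.Helper70.DK MeasureTheory

/-- the box of shifts -/
noncomputable def covs_box (m B : ℕ) : Finset (Fin m → ℤ) := Fintype.piFinset (fun _ => Finset.Ioo (-(B : ℤ)) B)

theorem covs_card_box {m B : ℕ} (hB : 1 ≤ B) : ((covs_box m B).card : ℝ) ≤ 2 ^ m * (B : ℝ) ^ m := by
  rw [covs_box, Fintype.card_piFinset, Finset.prod_const, Finset.card_univ, Fintype.card_fin, Int.card_Ioo]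
  have h1 : ((B : ℤ) - -(B : ℤ) - 1).toNat ≤ 2 * B := by omega
  rw [← mul_pow]
  push_cast
  refine pow_le_pow_left₀ (Nat.cast_nonneg _) ?_ m
  exact_mod_cast h1

theorem covs_box_pos {m B : ℕ} (hB : 1 ≤ B) : 0 < (covs_box m B).card := by
  refine Finset.card_pos.2 ⟨0, ?_⟩
  rw [covs_box, Fintype.mem_piFinset]
  intro c
  rw [Finset.mem_Ioo]
  show (-(B : ℤ) < 0) ∧ (0 : ℤ) < B
  constructor <;> omega

open Classical in
theorem covs_card_hit {m B : ℕ} {A : Finset (Fin m → ℤ)} (hA : A ⊆ gr m B) {x : Fin m → ℤ} (hx : x ∈ gr m B) :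
    ((covs_box m B).filter (fun t => (fun c => x c - t c) ∈ A)).card = A.card := by
  refine Finset.card_bij (fun t _ => fun c => x c - t c) ?_ ?_ ?_
  · intro t ht
    exact (Finset.mem_filter.1 ht).2
  · intro t _ t' _ h
    funext c
    have h1 : x c - t c = x c - t' c := congrFun h c
    linarith
  · intro a ha
    refine ⟨fun c => x c - a c, ?_, ?_⟩
    · rw [Finset.mem_filter]
      constructor
      · rw [covs_box, Fintype.mem_piFinset]
        intro c
        have h1 := (Fintype.mem_piFinset.1 (hA ha)) c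
        have h2 := (Fintype.mem_piFinset.1 hx) c
        rw [Finset.mem_Ico] at h1 h2
        rw [Finset.mem_Ioo]
        constructor <;> linarith [h1.1, h1.2, h2.1, h2.2]
      · have e : (fun c => x c - (x c - a c)) = a := by funext c; ring
        rw [e]
        exact ha
    · funext c
      ring

open Classical in
theorem covs_card_miss {m B : ℕ} {A : Finset (Fin m → ℤ)} (hA : A ⊆ gr m B) {x : Fin m → ℤ} (hx : x ∈ gr m B) :
    (((covs_box m B).filter (fun t => (fun c => x c - t c) ∉ A)).card : ℝ) = (covs_box m B).card - A.card := by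
  have h1 := Finset.card_filter_add_card_filter_not (s := covs_box m B) (fun t => (fun c => x c - t c) ∈ A)
  rw [covs_card_hit hA hx] at h1
  have h2 : (A.card : ℝ) + (((covs_box m B).filter (fun t => (fun c => x c - t c) ∉ A)).card : ℝ) =
      (covs_box m B).card := by exact_mod_cast h1
  linarith

open Classical in
theorem covs_bad {m B J j : ℕ} {A : Finset (Fin m → ℤ)} (hB : 1 ≤ B) (hA : A ⊆ gr m B) {x : Fin m → ℤ}
    (hx : x ∈ gr m B) (hj : j ≤ J) {K : ℝ} (hK : K * 2 ^ m * (B : ℝ) ^ m ≤ (j : ℝ) * (A.card : ℝ)) :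
    (((Fintype.piFinset (fun _ : Fin J => covs_box m B)).filter
      (fun θ => ∀ l : Fin J, (l : ℕ) < j → (fun c => x c - θ l c) ∉ A)).card : ℝ) ≤
      Real.exp (-K) * ((covs_box m B).card : ℝ) ^ J := by
  have h1 : (Fintype.piFinset (fun _ : Fin J => covs_box m B)).filter
      (fun θ => ∀ l : Fin J, (l : ℕ) < j → (fun c => x c - θ l c) ∉ A) =
      Fintype.piFinset (fun l : Fin J => if (l : ℕ) < j then
        (covs_box m B).filter (fun t => (fun c => x c - t c) ∉ A) else covs_box m B) := by
    ext θ
    rw [Finset.mem_filter, Fintype.mem_piFinset, Fintype.mem_piFinset]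
    constructor
    · rintro ⟨h1, h2⟩ l
      split_ifs with hl
      · exact Finset.mem_filter.2 ⟨h1 l, h2 l hl⟩
      · exact h1 l
    · intro h
      refine ⟨fun l => ?_, fun l hl => ?_⟩
      · have := h l
        split_ifs at this with hl
        · exact (Finset.mem_filter.1 this).1
        · exact this
      · have := h l
        rw [if_pos hl] at this
        exact (Finset.mem_filter.1 this).2
  rw [h1, Fintype.card_piFinset]
  have hq : (0 : ℝ) < (covs_box m B).card := by exact_mod_cast covs_box_pos hB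
  have h2 : ((∏ l : Fin J, (if (l : ℕ) < j then
        (covs_box m B).filter (fun t => (fun c => x c - t c) ∉ A) else covs_box m B).card : ℕ) : ℝ) =
      (((covs_box m B).card : ℝ) - A.card) ^ j * ((covs_box m B).card : ℝ) ^ (J - j) := by
    push_cast
    have h3 : ∀ l : Fin J, (((if (l : ℕ) < j then
        (covs_box m B).filter (fun t => (fun c => x c - t c) ∉ A) else covs_box m B).card : ℕ) : ℝ) =
        if (l : ℕ) < j then ((covs_box m B).card : ℝ) - A.card else (covs_box m B).card := by
      intro l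
      split_ifs with hl
      · exact covs_card_miss hA hx
      · rfl
    rw [Finset.prod_congr rfl (fun l _ => h3 l)]
    rw [Finset.prod_ite, Finset.prod_const, Finset.prod_const]
    have h4 : (Finset.univ.filter (fun l : Fin J => (l : ℕ) < j)).card = j := by
      rw [Fin.card_filter_val_lt]
      omega
    have h5 : (Finset.univ.filter (fun l : Fin J => ¬ (l : ℕ) < j)).card = J - j := by
      have := Finset.card_filter_add_card_filter_not (s := (Finset.univ : Finset (Fin J))) (fun l : Fin J => (l : ℕ) < j)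
      rw [h4, Finset.card_univ, Fintype.card_fin] at this
      omega
    rw [h4, h5]
  rw [h2]
  have hle : (A.card : ℝ) ≤ (covs_box m B).card := by
    have := Finset.card_le_card (Finset.filter_subset (fun t => (fun c => x c - t c) ∈ A) (covs_box m B))
    rw [covs_card_hit hA hx] at this
    exact_mod_cast this
  have h6 : ((covs_box m B).card : ℝ) - A.card = (covs_box m B).card * (1 - A.card / (covs_box m B).card) := by
    field_simp
  have h7 : 1 - (A.card : ℝ) / (covs_box m B).card ≤ Real.exp (-((A.card : ℝ) / (covs_box m B).card)) := by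
    have := Real.add_one_le_exp (-((A.card : ℝ) / (covs_box m B).card))
    linarith
  have h8 : 0 ≤ 1 - (A.card : ℝ) / (covs_box m B).card := by
    rw [sub_nonneg, div_le_one hq]
    exact hle
  calc (((covs_box m B).card : ℝ) - A.card) ^ j * ((covs_box m B).card : ℝ) ^ (J - j)
      = (1 - A.card / (covs_box m B).card) ^ j * ((covs_box m B).card : ℝ) ^ J := by
        rw [h6, mul_pow]
        have : ((covs_box m B).card : ℝ) ^ J = ((covs_box m B).card : ℝ) ^ j * ((covs_box m B).card : ℝ) ^ (J - j) := by
          rw [← pow_add, Nat.add_sub_cancel' hj]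
        rw [this]
        ring
    _ ≤ (Real.exp (-((A.card : ℝ) / (covs_box m B).card))) ^ j * ((covs_box m B).card : ℝ) ^ J :=
        mul_le_mul_of_nonneg_right (pow_le_pow_left₀ h8 h7 j) (by positivity)
    _ ≤ Real.exp (-K) * ((covs_box m B).card : ℝ) ^ J := by
        refine mul_le_mul_of_nonneg_right ?_ (by positivity)
        rw [← Real.exp_nat_mul]
        refine Real.exp_le_exp.2 ?_
        have h9 : K ≤ (j : ℝ) * ((A.card : ℝ) / (covs_box m B).card) := by
          rw [← mul_div_assoc, le_div_iff₀ hq]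
          by_cases hK0 : 0 ≤ K
          · calc K * (covs_box m B).card ≤ K * (2 ^ m * (B : ℝ) ^ m) :=
                mul_le_mul_of_nonneg_left (covs_card_box hB) hK0
              _ ≤ _ := by linarith
          · have : K * (covs_box m B).card ≤ 0 := mul_nonpos_of_nonpos_of_nonneg (by linarith) hq.le
            exact this.trans (by positivity)
        linarith

theorem st_COVS : ST_COVS := by
  classical
  intro m B J ι I A j K hB hK hA
  obtain ⟨T, hT⟩ : ∃ T : Finset (Fin J → Fin m → ℤ), T = Fintype.piFinset (fun _ : Fin J => covs_box m B) := ⟨_, rfl⟩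
  have hTne : T.Nonempty := by
    rw [hT, Fintype.piFinset_nonempty]
    intro _
    exact Finset.card_pos.1 (covs_box_pos hB)
  have hTc : (T.card : ℝ) = ((covs_box m B).card : ℝ) ^ J := by
    rw [hT, Fintype.card_piFinset]
    simp
  have hgr : ((gr m B).card : ℝ) = (B : ℝ) ^ m := by
    rw [gr, Fintype.card_piFinset]
    simp
  have hsum : ∑ θ ∈ T, ∑ s ∈ I, (((gr m B).filter (fun x => ∀ l : Fin J, (l : ℕ) < j s →
      (fun c => x c - θ l c) ∉ A s)).card : ℝ) ≤
      ∑ _θ ∈ T, Real.exp (-K) * (I.card * (B : ℝ) ^ m) := by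
    rw [Finset.sum_comm]
    have h1 : ∀ s ∈ I, ∑ θ ∈ T, (((gr m B).filter (fun x => ∀ l : Fin J, (l : ℕ) < j s →
        (fun c => x c - θ l c) ∉ A s)).card : ℝ) ≤ (B : ℝ) ^ m * (Real.exp (-K) * (T.card : ℝ)) := by
      intro s hs
      have h2 : ∀ θ ∈ T, (((gr m B).filter (fun x => ∀ l : Fin J, (l : ℕ) < j s →
          (fun c => x c - θ l c) ∉ A s)).card : ℝ) =
          ∑ x ∈ gr m B, if (∀ l : Fin J, (l : ℕ) < j s → (fun c => x c - θ l c) ∉ A s) then (1 : ℝ) else 0 := by
        intro θ _
        rw [Finset.card_filter]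
        push_cast
        rfl
      rw [Finset.sum_congr rfl h2, Finset.sum_comm]
      have h3 : ∀ x ∈ gr m B, (∑ θ ∈ T, if (∀ l : Fin J, (l : ℕ) < j s → (fun c => x c - θ l c) ∉ A s)
          then (1 : ℝ) else 0) ≤ Real.exp (-K) * (T.card : ℝ) := by
        intro x hx
        have h4 := covs_bad (J := J) hB (hA s hs).1 hx (hA s hs).2.1 (hA s hs).2.2
        rw [hTc]
        refine le_trans (le_of_eq ?_) h4
        rw [Finset.card_filter, hT]
        push_cast
        rfl
      calc _ ≤ ∑ x ∈ gr m B, Real.exp (-K) * (T.card : ℝ) := Finset.sum_le_sum h3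
        _ = (B : ℝ) ^ m * (Real.exp (-K) * (T.card : ℝ)) := by
            rw [Finset.sum_const, nsmul_eq_mul, hgr]
    calc _ ≤ ∑ s ∈ I, (B : ℝ) ^ m * (Real.exp (-K) * (T.card : ℝ)) := Finset.sum_le_sum h1
      _ = ∑ _θ ∈ T, Real.exp (-K) * (I.card * (B : ℝ) ^ m) := by
          rw [Finset.sum_const, Finset.sum_const, nsmul_eq_mul, nsmul_eq_mul]
          ring
  obtain ⟨θ, hθ, hle⟩ := Finset.exists_le_of_sum_le hTne hsum
  refine ⟨fun l => if h : l < J then θ ⟨l, h⟩ else 0, ?_⟩
  refine le_trans (le_of_eq ?_) hle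
  refine Finset.sum_congr rfl fun s hs => ?_
  congr 2
  ext x
  rw [Finset.mem_filter, Finset.mem_filter]
  refine and_congr_right fun _ => ?_
  constructor
  · intro h l hl
    have h1 := h l hl
    simp only [dif_pos l.2] at h1
    exact h1
  · intro h l hl
    have hlJ : l < J := lt_of_lt_of_le hl (hA s hs).2.1
    simp only [dif_pos hlJ]
    exact h ⟨l, hlJ⟩ hl

end Pool.Agent.Helper70.SK
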