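import Pool.Agent.Helper70.DK.Defs
import Pool.Agent.Helper70.DK.Stick

/-! Sticky Kakeya sets, Minkowski dimension: definitions (blueprint: /team-store/sk_blueprint.md). -/

namespace Pool.Agent.Helper70.SK

open Finset Pool.Agent.Helper70.DK

noncomputable section

/-! ### generalities -/

/-- the integer points of `[0, M) ^ k` -/
def gr (k M : ℕ) : Finset (Fin k → ℤ) := Fintype.piFinset (fun _ => Finset.Ico (0 : ℤ) (M : ℤ))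

/-- the corners `S` of the cubes of side `s` that contain `y`: `y - s < S ≤ y` -/
def Bx {q : ℕ} (s : ℤ) (y : Fin q → ℤ) : Finset (Fin q → ℤ) :=
  Fintype.piFinset (fun r => Finset.Ioc (y r - s) (y r))

/-- the points of `Z` with `y` in the cube with corner `S` and side `s` -/
def Qb {Ω : Type} {q : ℕ} (Z : Finset Ω) (y : Ω → Fin q → ℤ) (s : ℤ) (S : Fin q → ℤ) : Finset Ω :=
  Z.filter (fun ω => ∀ r, S r ≤ y ω r ∧ y ω r < S r + s)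

/-- the cell of side `s` of `y - S` -/
def pf {Ω : Type} {q : ℕ} (y : Ω → Fin q → ℤ) (s : ℤ) (S : Fin q → ℤ) : Ω → Fin q → ℤ :=
  fun ω r => (y ω r - S r) / s

/-- distance of the laws of the cells of side `s` in the cubes of side `s0` with corners `S` and `S'` -/
def dp {Ω Ω' : Type} {q : ℕ} (Z : Finset Ω) (y : Ω → Fin q → ℤ) (Z' : Finset Ω')
    (y' : Ω' → Fin q → ℤ) (s0 s : ℤ) (S S' : Fin q → ℤ) : ℝ :=
  l1 (Qb Z y s0 S) (pf y s S) (Qb Z' y' s0 S') (pf y' s S')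

/-- the points of `Z` with `y` in the layer of width `h` on both sides of the boundary of the cube -/
def Ly {Ω : Type} {q : ℕ} (Z : Finset Ω) (y : Ω → Fin q → ℤ) (s h : ℤ) (S : Fin q → ℤ) : Finset Ω :=
  Z.filter (fun ω => (∀ r, S r - h ≤ y ω r ∧ y ω r < S r + s + h) ∧
    ¬ (∀ r, S r + h ≤ y ω r ∧ y ω r < S r + s - h))

/-- the `j`-th element of the finite set `F` (cyclically), `d` if `F` is empty -/
def pk {Ω : Type} (F : Finset Ω) (j : ℕ) (d : Ω) : Ω := F.toList.getD (j % F.card) d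

/-! ### systems -/

/-- A system of rank `q` over the grid `[0, B ^ n) ^ m`: heights `t γ / B ^ a3`, `γ ∈ G`, projections `N γ`
(of size `B ^ a1`), and the position map `A`. -/
structure Sy (m q : ℕ) where
  n : ℕ
  a1 : ℕ
  a3 : ℕ
  G : Finset ℕ
  t : ℕ → ℤ
  N : ℕ → Fin q → Fin m → ℤ
  A : (Fin m → ℤ) → Fin m → ℤ

variable {m q : ℕ}

/-- the grid -/
def Sy.X (σ : Sy m q) (B : ℕ) : Finset (Fin m → ℤ) := gr m (B ^ σ.n)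

/-- the shifts -/
def Sy.U (σ : Sy m q) (B : ℕ) : Finset (Fin q → ℤ) := gr q (B ^ (σ.n + σ.a1 + σ.a3))

/-- exponent of the side of the cells of level `i` -/
def Sy.e (σ : Sy m q) (i : ℕ) : ℕ := σ.n + σ.a1 + σ.a3 - i

/-- the point `N (B ^ a3 A x + t x)` -/
def Sy.Y (σ : Sy m q) (B γ : ℕ) (x : Fin m → ℤ) : Fin q → ℤ :=
  fun r => ∑ c, σ.N γ r c * ((B : ℤ) ^ σ.a3 * σ.A x c + σ.t γ * x c)

/-- the cell of level `k` of a grid point (its first `k` digits) -/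
def Sy.tr (σ : Sy m q) (B k : ℕ) (x : Fin m → ℤ) : Fin m → ℤ := cl B (σ.n - k) x

/-- the corner of the cell of level `k` -/
def Sy.co (σ : Sy m q) (B k : ℕ) (x : Fin m → ℤ) : Fin m → ℤ := fun c => (B : ℤ) ^ (σ.n - k) * σ.tr B k x c

/-- admissible systems: `R` sticky, `κ` nondegenerate, `D` size of the projections, `C` Frostman constant -/
structure Sy.Ok (σ : Sy m q) (B : ℕ) (R κ D C : ℝ) : Prop where
  ne : σ.G.Nonempty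
  n1 : σ.n ≤ σ.a1
  n3 : σ.n ≤ σ.a3
  tb : ∀ γ ∈ σ.G, 0 ≤ σ.t γ ∧ σ.t γ ≤ (B : ℤ) ^ σ.a3
  nb : ∀ γ ∈ σ.G, ∀ r c, |(σ.N γ r c : ℝ)| ≤ D * (B : ℝ) ^ σ.a1
  nd : ∀ γ ∈ σ.G, ∀ v : Fin q → ℝ,
    κ * (B : ℝ) ^ (2 * σ.a1) * ∑ r, v r ^ 2 ≤ ∑ c, (∑ r, v r * (σ.N γ r c : ℝ)) ^ 2
  fr : ∀ (t0 : ℤ) (j : ℕ), j ≤ σ.a3 →
    ((σ.G.filter (fun γ => |σ.t γ - t0| ≤ (B : ℤ) ^ (σ.a3 - j))).card : ℝ) * (B : ℝ) ^ j ≤ C * σ.G.card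
  st : ∀ k ≤ σ.n, ∀ x ∈ σ.X B, ∀ x' ∈ σ.X B, σ.tr B k x = σ.tr B k x' → ∀ c,
    |(σ.A x c : ℝ) - (σ.A x' c : ℝ)| ≤ R * (B : ℝ) ^ (σ.n - k)

/-- entropy of the cells of level `L` at the height `γ` -/
def Sy.h (σ : Sy m q) (B γ L : ℕ) : ℝ := ent (σ.X B) (fun x => cl B (σ.e L) (σ.Y B γ x))

/-- the main statement: full entropy on average -/
def EQ (m q : ℕ) : Prop :=
  ∀ (B : ℕ) (R κ D C ε : ℝ), 2 ≤ B → 0 ≤ R → 0 < κ → 0 ≤ D → 0 ≤ C → 0 < ε → ∃ n0 : ℕ,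
  ∀ σ : Sy m q, σ.Ok B R κ D C → ∀ L, n0 ≤ L → L ≤ σ.n →
    ((q : ℝ) - ε) * L * Real.log B * σ.G.card ≤ ∑ γ ∈ σ.G, σ.h B γ L

/-- the rate `e` is a lower bound -/
def Low (m q B : ℕ) (R κ D e : ℝ) : Prop :=
  ∀ C ε : ℝ, 0 ≤ C → 0 < ε → ∃ L0 : ℕ, ∀ σ : Sy m q, σ.Ok B R κ D C → ∀ L, L0 ≤ L → L ≤ σ.n →
    (e - ε) * L * Real.log B * σ.G.card ≤ ∑ γ ∈ σ.G, σ.h B γ L

/-- the same for all but few heights -/
def LowP (m q B : ℕ) (R κ D e : ℝ) : Prop :=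
  ∀ C ε : ℝ, 0 ≤ C → 0 < ε → ∃ L0 : ℕ, ∀ σ : Sy m q, σ.Ok B R κ D C → ∀ L, L0 ≤ L → L ≤ σ.n →
    ((σ.G.filter (fun γ => σ.h B γ L < (e - ε) * L * Real.log B)).card : ℝ) ≤ ε * σ.G.card

/-- the rate `e` is almost attained -/
def Near (m q B : ℕ) (R κ D e : ℝ) : Prop :=
  ∀ ε : ℝ, 0 < ε → ∃ C : ℝ, 0 ≤ C ∧ ∀ L0 : ℕ, ∃ (σ : Sy m q) (L : ℕ), σ.Ok B R κ D C ∧ L0 ≤ L ∧ L ≤ σ.n ∧
    ∑ γ ∈ σ.G, σ.h B γ L ≤ (e + ε) * L * Real.log B * σ.G.card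

/-- the magnification of a system on the cell `T` of level `k` -/
def Sy.zo (σ : Sy m q) (B k : ℕ) (T : Fin m → ℤ) : Sy m q :=
  { σ with
    n := σ.n - k
    A := fun z c => σ.A (fun c' => (B : ℤ) ^ (σ.n - k) * T c' + z c') c - σ.A (fun c' => (B : ℤ) ^ (σ.n - k) * T c') c }

/-! ### random variables: base space `((γ, x), u)`, partner space `(((γ, x), j), u)` -/

/-- base space -/
abbrev BS (m q : ℕ) : Type := (ℕ × (Fin m → ℤ)) × (Fin q → ℤ)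

/-- partner space -/
abbrev PS (m q : ℕ) : Type := ((ℕ × (Fin m → ℤ)) × ℕ) × (Fin q → ℤ)

/-- heights and grid points -/
def Sy.GX (σ : Sy m q) (B : ℕ) : Finset (ℕ × (Fin m → ℤ)) := σ.G ×ˢ σ.X B

/-- the base space -/
def Sy.Om (σ : Sy m q) (B : ℕ) : Finset (BS m q) := σ.GX B ×ˢ σ.U B

/-- shifted cell of level `l` -/
def Sy.C (σ : Sy m q) (B l : ℕ) (ω : BS m q) : Fin q → ℤ := cl B (σ.e l) (σ.Y B ω.1.1 ω.1.2 + ω.2)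

/-- `H(C_l | x_{<k}, γ, u)` -/
def Sy.hh (σ : Sy m q) (B k l : ℕ) : ℝ :=
  cent (σ.Om B) (σ.C B l) (fun ω => (σ.tr B k ω.1.2, ω.1.1, ω.2))

/-- the common function of a point and its partner: height, cell of level `k` of the grid point, unshifted cell
of level `K` of `Y` -/
def Sy.ff (σ : Sy m q) (B k K : ℕ) (z : ℕ × (Fin m → ℤ)) : ℕ × (Fin m → ℤ) × (Fin q → ℤ) :=
  (z.1, σ.tr B k z.2, cl B (σ.e K) (σ.Y B z.1 z.2))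

/-- number of copies -/
def Sy.N0 (σ : Sy m q) (B : ℕ) : ℕ := ((σ.GX B).card).factorial

/-- the partner space -/
def Sy.Pa (σ : Sy m q) (B : ℕ) : Finset (PS m q) := (σ.GX B ×ˢ Finset.range (σ.N0 B)) ×ˢ σ.U B

/-- the partner of `z = (γ, x)` with index `j` (a pair with the same height) -/
def Sy.pa (σ : Sy m q) (B k K : ℕ) (z : ℕ × (Fin m → ℤ)) (j : ℕ) : ℕ × (Fin m → ℤ) :=
  pk (fib (σ.GX B) (σ.ff B k K) (σ.ff B k K z)) j z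

/-- the partner `x'` of `x` -/
def Sy.x1 (σ : Sy m q) (B k K : ℕ) (ω : PS m q) : Fin m → ℤ := (σ.pa B k K ω.1.1 ω.1.2).2

/-- shifted cell of level `l` of the corner of the unshifted cell of level `K` -/
def Sy.Cf (σ : Sy m q) (B K l : ℕ) (z : ℕ × (Fin m → ℤ)) (u : Fin q → ℤ) : Fin q → ℤ :=
  cl B (σ.e l) (fun r => (B : ℤ) ^ σ.e K * (σ.Y B z.1 z.2 r / (B : ℤ) ^ σ.e K) + u r)

/-- position of `Y` relative to the corner of the cell of level `j` of `x` -/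
def Sy.yc (σ : Sy m q) (B j c : ℕ) (x : Fin m → ℤ) : Fin q → ℤ :=
  fun r => σ.Y B c x r - σ.Y B c (σ.co B j x) r

/-- displacement of the tubes of level `j` of `x` and `x'` -/
def Sy.Rd (σ : Sy m q) (B j γ : ℕ) (x x' : Fin m → ℤ) : Fin q → ℤ :=
  fun r => σ.Y B γ (σ.co B j x') r - σ.Y B γ (σ.co B j x) r

/-- `rep γ` is a height of the same class as `γ` at the resolution `B ^ (- Q)` -/
def Sy.Rep (σ : Sy m q) (B Q : ℕ) (rep : ℕ → ℕ) : Prop :=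
  ∀ γ ∈ σ.G, rep γ ∈ σ.G ∧ |σ.t γ - σ.t (rep γ)| ≤ (B : ℤ) ^ (σ.a3 - Q) ∧
    ∀ r c, |σ.N γ r c - σ.N (rep γ) r c| ≤ (B : ℤ) ^ (σ.a1 - Q)

/-- `I(γ; x_{<K}, x'_{<K} | x_{<k})` -/
def Sy.TW (σ : Sy m q) (B k K : ℕ) : ℝ :=
  cent (σ.Pa B) (fun ω => (σ.tr B K ω.1.1.2, σ.tr B K (σ.x1 B k K ω))) (fun ω => σ.tr B k ω.1.1.2) -
  cent (σ.Pa B) (fun ω => (σ.tr B K ω.1.1.2, σ.tr B K (σ.x1 B k K ω))) (fun ω => (ω.1.1.1, σ.tr B k ω.1.1.2))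

/-- `I(γ; x_{<j}, x'_{<j}, q_j | c, x_{<k})`, `q_j` the cell of level `j + g` of `yc` -/
def Sy.Th (σ : Sy m q) (B : ℕ) (rep : ℕ → ℕ) (k K g j : ℕ) : ℝ :=
  cent (σ.Pa B) (fun ω => (σ.tr B j ω.1.1.2, σ.tr B j (σ.x1 B k K ω),
      cl B (σ.e (j + g)) (σ.yc B j (rep ω.1.1.1) ω.1.1.2))) (fun ω => (rep ω.1.1.1, σ.tr B k ω.1.1.2)) -
  cent (σ.Pa B) (fun ω => (σ.tr B j ω.1.1.2, σ.tr B j (σ.x1 B k K ω),
      cl B (σ.e (j + g)) (σ.yc B j (rep ω.1.1.1) ω.1.1.2))) (fun ω => (ω.1.1.1, σ.tr B k ω.1.1.2))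

/-- `I(x_{<i}; x'_{<i} | C^♭_l, x_{<k}, γ, u)` -/
def Sy.Jj (σ : Sy m q) (B k K i l : ℕ) : ℝ :=
  cent (σ.Pa B) (fun ω => σ.tr B i ω.1.1.2)
    (fun ω => (σ.Cf B K l ω.1.1 ω.2, σ.tr B k ω.1.1.2, ω.1.1.1, ω.2)) -
  cent (σ.Pa B) (fun ω => σ.tr B i ω.1.1.2)
    (fun ω => (σ.tr B i (σ.x1 B k K ω), σ.Cf B K l ω.1.1 ω.2, σ.tr B k ω.1.1.2, ω.1.1.1, ω.2))

/-- `H(R_j at level j + g + d | x_{<j}, x'_{<j}, q_j, c)` -/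
def Sy.HR (σ : Sy m q) (B : ℕ) (rep : ℕ → ℕ) (k K g d j : ℕ) : ℝ :=
  cent (σ.Pa B) (fun ω => cl B (σ.e (j + g + d)) (σ.Rd B j ω.1.1.1 ω.1.1.2 (σ.x1 B k K ω)))
    (fun ω => (σ.tr B j ω.1.1.2, σ.tr B j (σ.x1 B k K ω),
      cl B (σ.e (j + g)) (σ.yc B j (rep ω.1.1.1) ω.1.1.2), rep ω.1.1.1))

/-- the variable `𝒢 = (x_{<i}, x'_{<i}, c, cell of yc of level l1, cell of R_i of level l1)` -/
def Sy.GG (σ : Sy m q) (B : ℕ) (rep : ℕ → ℕ) (k K i l1 : ℕ) (ω : PS m q) :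
    (Fin m → ℤ) × (Fin m → ℤ) × ℕ × (Fin q → ℤ) × (Fin q → ℤ) :=
  (σ.tr B i ω.1.1.2, σ.tr B i (σ.x1 B k K ω), rep ω.1.1.1,
    cl B (σ.e l1) (σ.yc B i (rep ω.1.1.1) ω.1.1.2),
    cl B (σ.e l1) (σ.Rd B i ω.1.1.1 ω.1.1.2 (σ.x1 B k K ω)))

/-- `H(R_i at level l2 | 𝒢)` -/
def Sy.hr (σ : Sy m q) (B : ℕ) (rep : ℕ → ℕ) (k K i l1 l2 : ℕ) : ℝ :=
  cent (σ.Pa B) (fun ω => cl B (σ.e l2) (σ.Rd B i ω.1.1.1 ω.1.1.2 (σ.x1 B k K ω))) (σ.GG B rep k K i l1)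

/-- `I(C^♭_{l2}; x'_{<i} | x_{<i}, C^♭_{l0}, γ, u)` -/
def Sy.af (σ : Sy m q) (B k K i l0 l2 : ℕ) : ℝ :=
  cent (σ.Pa B) (fun ω => σ.Cf B K l2 ω.1.1 ω.2)
    (fun ω => (σ.tr B i ω.1.1.2, σ.Cf B K l0 ω.1.1 ω.2, ω.1.1.1, ω.2)) -
  cent (σ.Pa B) (fun ω => σ.Cf B K l2 ω.1.1 ω.2)
    (fun ω => (σ.tr B i (σ.x1 B k K ω), σ.tr B i ω.1.1.2, σ.Cf B K l0 ω.1.1 ω.2, ω.1.1.1, ω.2))

/-- the cell of level `i` of the grid with label `τ` -/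
def Sy.Zt (σ : Sy m q) (B i : ℕ) (τ : Fin m → ℤ) : Finset (Fin m → ℤ) := (σ.X B).filter (fun x => σ.tr B i x = τ)

/-- approximate invariance of the profile of the cell `τ` (level `i`) in the cube with corner `S` (level `l0`,
cells of level `l2`) under all multiples, of size at most `B ^ e lh`, of a vector of size between the levels
`l2` and `l1` -/
def Sy.Sv (σ : Sy m q) (B i l0 lh l1 l2 : ℕ) (φ : ℝ) (τ : Fin m → ℤ) (c : ℕ) (S : Fin q → ℤ) : Prop :=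
  ∃ v : Fin q → ℤ, (∀ r, |v r| < (B : ℤ) ^ σ.e l1) ∧ (∃ r, (B : ℤ) ^ σ.e l2 ≤ |v r|) ∧
    ∀ j : ℕ, (∀ r, (j : ℤ) * |v r| ≤ (B : ℤ) ^ σ.e lh) →
      dp (σ.Zt B i τ) (σ.yc B i c) (σ.Zt B i τ) (σ.yc B i c) ((B : ℤ) ^ σ.e l0) ((B : ℤ) ^ σ.e l2)
        S (fun r => S r - j * v r) ≤ φ

/-- the cells of side `s` of the image of `y` under a real matrix -/
def qf {Ω : Type} {q j : ℕ} (M : Matrix (Fin j) (Fin q) ℝ) (y : Ω → Fin q → ℤ) (s : ℤ) :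
    Ω → Fin j → ℤ :=
  fun ω => fl (fun i => (∑ r, M i r * (y ω r : ℝ)) / (s : ℝ))

end

end Pool.Agent.Helper70.SK
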