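import Pool.Agent.Helper70.SK.FinC

/-! Sticky Kakeya sets, FIN: the induction step. -/

namespace Pool.Agent.Helper70.SK

open Finset Pool.Agent.Helper70.DK Filter Topology

theorem fin_gap (V : ℕ → ℝ) (E δ : ℝ) (hV : ∀ j, V j ≤ E) (hδ : 0 < δ) : ∃ g, ∀ j, V j ≤ V g + δ := by
  have hb : BddAbove (Set.range V) := ⟨E, by rintro _ ⟨j, rfl⟩; exact hV j⟩
  obtain ⟨x, ⟨g, rfl⟩, hg⟩ := exists_lt_of_lt_csSup (Set.range_nonempty V) (show sSup (Set.range V) - δ < sSup (Set.range V) by linarith)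
  refine ⟨g, fun j => ?_⟩
  have := le_csSup hb (Set.mem_range_self j)
  linarith

theorem fin_small (B : ℕ) (hB : 2 ≤ B) (L c : ℝ) (hc : 0 < c) :
    ∃ r : ℕ, ∀ x : ℕ, r ≤ x → ((x : ℝ) * L + 2) / (B : ℝ) ^ x ≤ c := by
  have hB1 : (1 : ℝ) < B := by exact_mod_cast (by omega : 1 < B)
  have h1 : Tendsto (fun x : ℕ => ((x : ℝ) ^ 1 / (B : ℝ) ^ x) * L + 2 * ((x : ℝ) ^ 0 / (B : ℝ) ^ x)) atTop
      (𝓝 (0 * L + 2 * 0)) :=
    ((tendsto_pow_const_div_const_pow_of_one_lt 1 hB1).mul_const L).add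
      ((tendsto_pow_const_div_const_pow_of_one_lt 0 hB1).const_mul 2)
  have h2 : (0 : ℝ) * L + 2 * 0 < c := by simpa using hc
  have h3 := (h1.eventually_lt_const h2).exists_forall_of_atTop
  obtain ⟨r, hr⟩ := h3
  refine ⟨r, fun x hx => ?_⟩
  have := hr x hx
  simp only [pow_one, pow_zero] at this
  refine le_trans (le_of_eq ?_) this.le
  ring

theorem fin_TW {m q : ℕ} (σ : Sy m q) (B k K : ℕ) : 0 ≤ σ.TW B k K := by
  unfold Sy.TW
  have := cent_mono_right (σ.Pa B) (fun ω => (σ.tr B K ω.1.1.2, σ.tr B K (σ.x1 B k K ω)))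
    (fun ω => σ.tr B k ω.1.1.2) (fun ω => (ω.1.1.1, σ.tr B k ω.1.1.2)) (fun x _ y _ e => (Prod.ext_iff.1 e).2)
  linarith

theorem fin_aux1 (a s x y : ℝ) (hs : 0 ≤ s) (hy : 0 ≤ y) : a + s * (x - y) ≤ a + s * x := by
  have := mul_nonneg hs hy
  linarith

theorem fin_aux2 (a s x y : ℝ) (hs : 0 ≤ s) (hx : x ≤ 1) (hy : 1 ≤ y) : a + s * (x - y) ≤ a := by
  have := mul_nonneg hs (sub_nonneg.2 (hx.trans hy))
  linarith

/-- the contradiction for a good near minimizer; all parameters are fixed -/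
theorem fin_one (m q' B : ℕ) (R κ D C e ε L c0 c1 c2 c3 c6 η1 ε2 β η δ1 δ2 δ ν τ E lV : ℝ) (V : ℕ → ℝ)
    (hHH : ST_HH) (hB : 2 ≤ B) (hLdef : L = Real.log B) (hR : 0 ≤ R) (hD : 0 ≤ D) (hm : 1 ≤ m)
    (g d gs W1 r0 r Q W κ1 K Vq : ℕ) (hd : 0 < d) (hgd : g ≤ d) (hW1 : 0 < W1) (hr : r0 ≤ r)
    (he : e < (q' : ℝ) + 1)
    (hc0 : 0 ≤ c0) (hc1 : 0 ≤ c1) (hc3 : 0 ≤ c3) (hc6 : 0 ≤ c6) (hη1 : 0 < η1) (hη : η = β * η1)
    (hβ : 0 < β) (hε2 : ε2 < (q' : ℝ) + 1) (hE : E = (e + ε) * L) (hδ : 0 < δ) (hν : ν = η / (16 * ((q' : ℝ) + 1)))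
    (hκ1 : κ1 = W / (4 * m)) (hκ0 : 0 < κ1) (hlV : lV = Real.log Vq)
    (n1 : κ1 * E + c0 + 2 * W * τ ≤ (1 - β) * (((q' : ℝ) + 1 - ε2) * κ1 * L))
    (n2 : W * (d * (δ1 + 2 * τ) + c1 + c3) + (d * (2 * m * (g + d) * L + lV + (2 * m * d + ((q' : ℝ) + 1) * g) * L + c2 +
      ((q' : ℝ) + 1) * d * L) + (gs + W1 + r + 1) * (((q' : ℝ) + 1) * ((g : ℝ) + d) * L + c3)) ≤
      1 / 2 * (d * η * W * L))
    (n3 : c6 / (((q' : ℝ) + 1) * ((g + d : ℕ) : ℝ) * L) ≤ η / (16 * ((q' : ℝ) + 1)))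
    (n4 : ((W1 + (g + d : ℕ) : ℝ)) * (δ2 + 2 * τ) ≤ δ * ν / 4)
    (n5 : (W1 + (g + d : ℕ) : ℝ) * (((q' : ℝ) + 1) * (W1 + (g + d : ℕ) + r) * L) /
      ((W - (gs + (W1 + (g + d)) + r) : ℕ) : ℝ) ≤ δ * ν / 4)
    (n6 : ∀ x : ℕ, r ≤ x → 4 * ((q' : ℝ) + 1) * (((x : ℝ) * L + 2) / (B : ℝ) ^ x) ≤ δ * ν / 4)
    (n7 : 2 * ε * L + τ < ((q' : ℝ) + 1 - e) * L * (η / (8 * ((q' : ℝ) + 1))))
    (n8 : gs + (W1 + (g + d)) + r + 1 ≤ W) (n8' : g + d + d ≤ W)
    (hVm : Monotone V) (hVE : ∀ j, V j ≤ E) (hVg : ∀ j, V j ≤ V g + δ1) (hVgs : ∀ j, V j ≤ V gs + δ2)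
    (σ : Sy m (q' + 1)) (rep : ℕ → ℕ) (hσ : σ.Ok B R κ D C) (hK : K ≤ σ.n) (hWK : W ≤ K)
    (hkk : ∀ k ≤ σ.n, σ.hh B k k ≤ c0)
    (H : ∀ o j, o + j + 1 ≤ W →
      |(∑ k ∈ range (K - W + 1), (σ.hh B (k + o) (k + o + j + 1) - σ.hh B (k + o) (k + o + j))) /
        ((K - W + 1 : ℕ) : ℝ) - V j| ≤ τ)
    (hS2 : ∀ k, k + W ≤ σ.n → η1 * W * L ≤ σ.TW B k (k + W) ∨
      ((q' : ℝ) + 1 - ε2) * κ1 * L ≤ σ.hh B k (k + W) - σ.hh B (k + κ1) (k + W))
    (hG1 : ∀ k j, k ≤ j → j + g + d ≤ k + W → k + W ≤ σ.n →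
      σ.Th B rep k (k + W) g (j + d) - σ.Th B rep k (k + W) g j ≤ σ.HR B rep k (k + W) g d j +
      ((σ.hh B k (j + g + d) - σ.hh B k (j + g)) - (σ.hh B j (j + g + d) - σ.hh B j (j + g))) +
      (σ.Jj B k (k + W) (j + d) (j + d + g) - σ.Jj B k (k + W) j (j + g)) + c1)
    (hTh : ∀ k, k + W ≤ σ.n → (∀ i, k + i + g ≤ k + W →
        σ.Th B rep k (k + W) g (k + i) ≤ (2 * m * i + ((q' : ℝ) + 1) * g) * L + c2) ∧
      (∀ j, k ≤ j → j + g ≤ k + W →
        σ.TW B k (k + W) - 2 * m * (((k + W : ℕ) : ℝ) - j) * L - lV ≤ σ.Th B rep k (k + W) g j))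
    (hJB : ∀ k, k + W ≤ σ.n → (∀ i l, 0 ≤ σ.Jj B k (k + W) i l) ∧
      (∀ i i' l, i ≤ i' → i' ≤ σ.n → σ.Jj B k (k + W) i l ≤ σ.Jj B k (k + W) i' l) ∧
      (∀ i l, l ≤ k + W → σ.Jj B k (k + W) i l ≤ ((q' : ℝ) + 1) * (((k + W : ℕ) : ℝ) - l) * L))
    (hREL : ∀ k i l1, k ≤ i → i ≤ l1 → l1 + g + d ≤ k + W → k + W ≤ σ.n → l1 ≤ i + gs + W1 →
      σ.HR B rep k (k + W) g d l1 - c3 ≤ σ.hr B rep k (k + W) i l1 (l1 + g + d) ∧
      σ.HR B rep k (k + W) g d l1 ≤ ((q' : ℝ) + 1) * ((g : ℝ) + d) * L + c3 ∧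
      σ.hr B rep k (k + W) i l1 (l1 + g + d) ≤ ((q' : ℝ) + 1) * ((g : ℝ) + d) * L)
    (hAFL : ∀ k i l0 l2 : ℕ, k ≤ i → i ≤ l0 → l0 ≤ l2 → l2 ≤ k + W → k + W ≤ σ.n →
      0 ≤ σ.af B k (k + W) i l0 l2 ∧
      σ.af B k (k + W) i l0 l2 ≤ ((σ.hh B k l2 - σ.hh B k l0) - (σ.hh B i l2 - σ.hh B i l0)) +
        (σ.Jj B k (k + W) i l2 - σ.Jj B k (k + W) i l0) +
        4 * ((q' : ℝ) + 1) * (((((k + W : ℕ) : ℝ) - l2) * L + 2) / (B : ℝ) ^ (k + W - l2)))
    (hS45 : ∀ k i : ℕ, k ≤ i → i + gs + W1 + (g + d) + r0 ≤ k + W → k + W ≤ σ.n →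
      (e - ε) * (W1 * L) ≤ σ.hh B i (i + gs + W1) - σ.hh B i (i + gs) ∧
      (σ.af B k (k + W) i (i + gs) (i + gs + W1 + (g + d)) ≤ δ →
        (e - ε + (q' + 1 - e) * ((σ.hr B rep k (k + W) i (i + gs + W1) (i + gs + W1 + (g + d)) - c6) /
          ((q' + 1) * (g + d : ℕ) * L))) * (W1 * L) ≤ σ.hh B i (i + gs + W1) - σ.hh B i (i + gs))) :
    False := by
  have hB1 : (1 : ℝ) < B := by exact_mod_cast (by omega : 1 < B)
  have hL : 0 < L := by rw [hLdef]; exact Real.log_pos hB1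
  obtain ⟨q, hq⟩ : ∃ q : ℝ, q = (q' : ℝ) + 1 := ⟨_, rfl⟩
  rw [← hq] at he hε2 hν n1 n2 n3 n5 n6 n7
  have hq0 : 0 < q := by rw [hq]; positivity
  have hη0 : 0 < η := by rw [hη]; exact mul_pos hβ hη1
  have hν0 : 0 < ν := by rw [hν]; positivity
  obtain ⟨c0', hc0', HH⟩ := hHH m (q' + 1) B R κ D hB hR hD
  obtain ⟨h_nn, h_inc, h_sub, h_anti, -, -⟩ := HH σ C hσ
  obtain ⟨N, hN⟩ : ∃ N, N = K - W + 1 := ⟨_, rfl⟩
  rw [← hN] at H
  have hN0 : 0 < N := by omega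
  have hkW : ∀ k, k < N → k + W ≤ σ.n := fun k hk => by omega
  have hWr : (0 : ℝ) < W := by exact_mod_cast (by omega : 0 < W)
  have hτ : 0 ≤ τ := (abs_nonneg _).trans (H 0 0 (by omega))
  have hmr : (1 : ℝ) ≤ m := by exact_mod_cast hm
  have hκW : κ1 ≤ W := by rw [hκ1]; exact Nat.div_le_self _ _
  -- step A
  have stA := fin_stepA (fun k l => σ.hh B k l) V (fun k => σ.TW B k (k + W)) N W κ1 τ E c0 q ε2 η1 L β hN0 hL hκ0
    hκW hε2 hη1 H hVE (fun k hk => by rw [hq]; exact hS2 k (hkW k hk)) (fun k _ => fin_TW σ B k (k + W))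
    (fun k hk => h_anti k (k + κ1) (k + W) (by omega) (by have := hkW k hk; omega))
    (fun k hk => hkk k (by have := hkW k hk; omega)) h_nn n1
  rw [← hη] at stA
  -- step B
  have stB := fin_stepB (fun k l => σ.hh B k l) V (fun k => σ.TW B k (k + W))
    (fun k i => σ.Th B rep k (k + W) g (k + i)) (fun k o => σ.HR B rep k (k + W) g d (k + o))
    (fun k i => σ.Jj B k (k + W) (k + i) (k + i + g)) N W g d τ q L m η c1 c2 lV δ1 hN0 hL hd n8' hq0.le
    (by linarith) hc1 H hVm hVg stA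
    (by
      intro k hk o ho
      have := hG1 k (k + o) (by omega) (by omega) (hkW k hk)
      rw [show k + o + d = k + (o + d) by ring] at this
      exact this)
    (by
      intro k hk i hi
      have := (hTh k (hkW k hk)).1 i (by omega)
      rw [hq]; exact this)
    (by
      intro k hk i hi
      have := (hTh k (hkW k hk)).2 (k + i) (by omega) (by omega)
      push_cast at this
      have e1 : ((k : ℝ) + W - (k + i)) = W - i := by ring
      rw [e1] at this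
      exact this)
    (by intro k hk i; exact (hJB k (hkW k hk)).1 _ _)
    (by
      intro k hk i hi
      have := (hJB k (hkW k hk)).2.2 (k + i) (k + i + g) (by omega)
      push_cast at this
      have e1 : ((k : ℝ) + W - (k + i + g)) = W - i - g := by ring
      rw [e1] at this
      rw [hq]; exact this)
  -- step C
  have stC := fin_stepC (fun k o => σ.HR B rep k (k + W) g d (k + o))
    (fun k o => σ.hr B rep k (k + W) (k + o) (k + o + gs + W1) (k + o + gs + W1 + (g + d))) N W g d gs W1 r q L c3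
    (by omega) hc3 hq0.le hL
    (by
      intro k hk o ho
      have := (hREL k (k + o) (k + o + gs + W1) (by omega) (by omega) (by omega) (hkW k hk) (le_refl _)).1
      rw [show k + (o + gs + W1) = k + o + gs + W1 by ring,
        show k + o + gs + W1 + (g + d) = k + o + gs + W1 + g + d by ring]
      exact this)
    (by
      intro k hk o ho
      have := (hREL k (k + o) (k + o) (by omega) (le_refl _) (by omega) (hkW k hk) (by omega)).2.1
      rw [hq]; exact this)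
  obtain ⟨O, hO⟩ : ∃ O, O = W - (gs + (W1 + (g + d)) + r) := ⟨_, rfl⟩
  have hO' : W - (gs + (W1 + g + d) + r) = O := by rw [hO, show W1 + g + d = W1 + (g + d) by ring]
  rw [hO'] at stC
  have hO0 : 0 < O := by omega
  rw [← hO] at n5
  have hOr : (0 : ℝ) < O := by exact_mod_cast hO0
  have hOW : (O : ℝ) ≤ W := by exact_mod_cast (by omega : O ≤ W)
  have hNr : (0 : ℝ) < N := by exact_mod_cast hN0
  have hdr : (0 : ℝ) < d := by exact_mod_cast hd
  have hW1r : (0 : ℝ) < W1 := by exact_mod_cast hW1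
  -- lower bound for the sum of hr
  have hX : (N : ℝ) * (1 / 2 * (d * η * W * L)) ≤ ∑ k ∈ range N, ∑ o ∈ range O,
      σ.hr B rep k (k + W) (k + o) (k + o + gs + W1) (k + o + gs + W1 + (g + d)) := by
    refine le_trans ?_ stC
    refine le_trans ?_ (sub_le_sub_right stB _)
    rw [← mul_sub]
    refine mul_le_mul_of_nonneg_left ?_ hNr.le
    linarith [n2]
  -- step D
  have stD := fin_stepD (fun k l => σ.hh B k l) V
    (fun k o => σ.hr B rep k (k + W) (k + o) (k + o + gs + W1) (k + o + gs + W1 + (g + d)))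
    (fun k o => σ.af B k (k + W) (k + o) (k + o + gs) (k + o + gs + W1 + (g + d)))
    (fun k i => σ.Jj B k (k + W) (k + i) (k + i + gs)) N W (g + d) gs W1 r O τ q L e ε δ c6 (δ * ν / 4) δ2 E
    (1 / 2 * (d * η * W * L)) hN0 hL (by omega) hW1 hq0 he hδ hO hO0 H hVm hVgs hVE hX
    (by
      intro k hk o ho
      obtain ⟨a1, a2⟩ := hS45 k (k + o) (by omega) (by omega) (hkW k hk)
      have a3 := (hREL k (k + o) (k + o + gs + W1) (by omega) (by omega) (by omega) (hkW k hk) (le_refl _)).2.2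
      have a4 := (hAFL k (k + o) (k + o + gs) (k + o + gs + W1 + (g + d)) (by omega) (by omega) (by omega) (by omega)
        (hkW k hk)).1
      rw [show k + o + gs + W1 + g + d = k + o + gs + W1 + (g + d) by ring] at a3
      rw [← hq] at a2 a3
      have hP : 0 ≤ W1 * L := by positivity
      have hqe : 0 < q - e := by linarith
      have hDq : 0 < q * ((g + d : ℕ) : ℝ) * L := by
        have : (0 : ℝ) < ((g + d : ℕ) : ℝ) := by exact_mod_cast (by omega : 0 < g + d)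
        positivity
      by_cases hc : σ.af B k (k + W) (k + o) (k + o + gs) (k + o + gs + W1 + (g + d)) ≤ δ
      · refine le_trans (mul_le_mul_of_nonneg_right ?_ hP) (a2 hc)
        have h5 : 0 ≤ σ.af B k (k + W) (k + o) (k + o + gs) (k + o + gs + W1 + (g + d)) / δ := div_nonneg a4 hδ.le
        exact fin_aux1 _ _ _ _ hqe.le h5
      · refine le_trans (mul_le_mul_of_nonneg_right ?_ hP) a1
        push Not at hc
        have b1 : 1 ≤ σ.af B k (k + W) (k + o) (k + o + gs) (k + o + gs + W1 + (g + d)) / δ := by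
          rw [le_div_iff₀ hδ]; linarith
        have b2 : (σ.hr B rep k (k + W) (k + o) (k + o + gs + W1) (k + o + gs + W1 + (g + d)) - c6) /
            (q * ((g + d : ℕ) : ℝ) * L) ≤ 1 := by
          rw [div_le_one hDq]
          push_cast
          linarith
        exact fin_aux2 _ _ _ _ hqe.le b2 b1)
    (by
      intro k hk o ho
      have a4 := (hAFL k (k + o) (k + o + gs) (k + o + gs + W1 + (g + d)) (by omega) (by omega) (by omega) (by omega)
        (hkW k hk)).2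
      have a5 := (hJB k (hkW k hk)).2.1 (k + o) (k + (o + (W1 + (g + d)))) (k + o + gs + W1 + (g + d)) (by omega)
        (by have := hkW k hk; omega)
      have a6 := n6 (W - (o + gs + W1 + (g + d))) (by omega)
      have a7 : (((k + W : ℕ) : ℝ) - ((k + o + gs + W1 + (g + d) : ℕ) : ℝ)) =
          ((W - (o + gs + W1 + (g + d)) : ℕ) : ℝ) := by
        rw [Nat.cast_sub (by omega)]
        push_cast
        ring
      have a8 : k + W - (k + o + gs + W1 + (g + d)) = W - (o + gs + W1 + (g + d)) := by omega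
      rw [a7, a8, ← hq] at a4
      have a9 : k + (o + (W1 + (g + d))) + gs = k + o + gs + W1 + (g + d) := by ring
      have a10 : k + o + gs + (W1 + (g + d)) = k + o + gs + W1 + (g + d) := by ring
      simp only [a9, a10]
      linarith)
    (by intro k hk i; exact (hJB k (hkW k hk)).1 _ _)
    (by
      intro k hk i hi
      have := (hJB k (hkW k hk)).2.2 (k + i) (k + i + gs) (by omega)
      push_cast at this
      have e1 : ((k : ℝ) + W - (k + i + gs)) = W - i - gs := by ring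
      rw [e1] at this
      rw [hq]; exact this)
  -- numerical contradiction
  have hqe : 0 < q - e := by linarith
  have hgdr : (0 : ℝ) < ((g + d : ℕ) : ℝ) := by exact_mod_cast (by omega : 0 < g + d)
  have x1 : η / (4 * q) ≤ 1 / 2 * (d * η * W * L) / (O * (q * ((g + d : ℕ) : ℝ) * L)) := by
    rw [div_le_div_iff₀ (by positivity) (by positivity)]
    have h1 : ((g + d : ℕ) : ℝ) ≤ 2 * d := by
      push_cast
      have : (g : ℝ) ≤ d := by exact_mod_cast hgd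
      linarith
    have h2 : (O : ℝ) * ((g + d : ℕ) : ℝ) ≤ W * (2 * d) :=
      mul_le_mul hOW h1 hgdr.le hWr.le
    have h3 : 0 ≤ η * q * L := by positivity
    calc η * (O * (q * ((g + d : ℕ) : ℝ) * L)) = (η * q * L) * (O * ((g + d : ℕ) : ℝ)) := by ring
      _ ≤ (η * q * L) * (W * (2 * d)) := mul_le_mul_of_nonneg_left h2 h3
      _ = 1 / 2 * (d * η * W * L) * (4 * q) := by ring
  have x2 : ((W1 + ((g + d : ℕ) : ℝ)) * (δ2 + 2 * τ) + (W1 + ((g + d : ℕ) : ℝ)) *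
      (q * (W1 + ((g + d : ℕ) : ℝ) + r) * L) / O + δ * ν / 4) / δ ≤ ν := by
    rw [div_le_iff₀ hδ]
    have h4 : 0 < δ * ν := by positivity
    linarith
  have x3 : ν = η / (16 * q) := hν
  have x4 : η / (8 * q) ≤ 1 / 2 * (d * η * W * L) / (O * (q * ((g + d : ℕ) : ℝ) * L)) -
      c6 / (q * ((g + d : ℕ) : ℝ) * L) - ((W1 + ((g + d : ℕ) : ℝ)) * (δ2 + 2 * τ) + (W1 + ((g + d : ℕ) : ℝ)) *
      (q * (W1 + ((g + d : ℕ) : ℝ) + r) * L) / O + δ * ν / 4) / δ := by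
    have y1 : η / (4 * q) = 4 * (η / (16 * q)) := by field_simp; ring
    have y2 : η / (8 * q) = 2 * (η / (16 * q)) := by field_simp; ring
    linarith
  have x5 : 0 < (q - e) * L := mul_pos hqe hL
  have x6 := mul_le_mul_of_nonneg_left x4 x5.le
  rw [hE] at stD
  linarith

end Pool.Agent.Helper70.SK
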