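import Pool.Agent.Helper70.SK.FIN

/-! Sticky Kakeya sets, FIN: choice of the parameters. -/

namespace Pool.Agent.Helper70.SK

open Finset Pool.Agent.Helper70.DK

theorem st_FIN (h1 : ST_MIN) (h2 : ST_LOWP) (h3 : ST_SEL) (h4 : ST_HH) (h5 : ST_REP) (h6 : ST_S2) (h7 : ST_G1)
    (h8 : ST_TH0) (h9 : ST_JB) (h10 : ST_REL) (h11 : ST_AFL) (h12 : ST_S45) : ST_FIN := by
  intro m q' hqm hEQ
  by_contra hne
  obtain ⟨B, R, κ, D, e, hB, hR, hκ, hD, he0, heq, hLow, hNear⟩ := h1 m (q' + 1) hne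
  have hm : 1 ≤ m := by omega
  have hB1 : (1 : ℝ) < B := by exact_mod_cast (by omega : 1 < B)
  obtain ⟨L, hL⟩ : ∃ L : ℝ, L = Real.log B := ⟨_, rfl⟩
  have hL0 : 0 < L := by rw [hL]; exact Real.log_pos hB1
  obtain ⟨q, hq⟩ : ∃ q : ℝ, q = (q' : ℝ) + 1 := ⟨_, rfl⟩
  have hqc : ((q' + 1 : ℕ) : ℝ) = q := by rw [hq]; push_cast; ring
  rw [hqc] at heq
  have hq0 : 0 < q := by rw [hq]; positivity
  have hmr : (1 : ℝ) ≤ m := by exact_mod_cast hm
  obtain ⟨c0, hc0, HH⟩ := h4 m (q' + 1) B R κ D hB hR hD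
  obtain ⟨ε2, hε2⟩ : ∃ ε2 : ℝ, ε2 = (q - e) / 4 := ⟨_, rfl⟩
  obtain ⟨η1, hη1, HS2⟩ := h6 m (q' + 1) ε2 (by omega) hqm (by rw [hε2]; linarith)
  obtain ⟨c1, hc1, HG1⟩ := h7 m (q' + 1) B R κ D hB hR hD
  obtain ⟨c2, hc2, HTH⟩ := h8 m (q' + 1) B R κ D hB hR hD
  obtain ⟨c3, hc3, HREL⟩ := h10 m (q' + 1) B R κ D hB hR hD
  obtain ⟨c6, hc6, HS45⟩ := h12 m q' B R κ D hB hR hκ hD
  obtain ⟨β, hβ⟩ : ∃ β : ℝ, β = (q - e) / (4 * q) := ⟨_, rfl⟩
  have hqe : 0 < q - e := by linarith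
  have hβ0 : 0 < β := by rw [hβ]; positivity
  obtain ⟨η, hη⟩ : ∃ η : ℝ, η = β * η1 := ⟨_, rfl⟩
  have hη0 : 0 < η := by rw [hη]; positivity
  obtain ⟨ε, hε⟩ : ∃ ε : ℝ, ε = min ((q - e) / 16) ((q - e) * η / (64 * q)) := ⟨_, rfl⟩
  have hε0 : 0 < ε := by rw [hε]; exact lt_min (by positivity) (by positivity)
  have hε16 : ε ≤ (q - e) / 16 := by rw [hε]; exact min_le_left _ _
  have hε64 : ε ≤ (q - e) * η / (64 * q) := by rw [hε]; exact min_le_right _ _
  obtain ⟨C, hC, hN⟩ := hNear ε hε0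
  obtain ⟨W0, HW0⟩ := HS2 B R κ D C hB hR hκ hD hC
  choose σs Ls hOk hn hLn hsum using hN
  obtain ⟨V, hVm, hVb, hV⟩ := h3 (q * L) ((e + ε) * L) c0 Ls (fun n k l => (σs n).hh B k l) (by positivity) hc0 hn
    (by
      intro n k l hl hk
      obtain ⟨-, a2, -, -, -, -⟩ := HH (σs n) C (hOk n)
      obtain ⟨b1, b2⟩ := a2 k l (by have := hLn n; omega)
      rw [hqc, ← hL] at b2
      constructor <;> linarith)
    (by
      intro n k k' l hl hk hk'
      obtain ⟨-, -, a3, -, -, -⟩ := HH (σs n) C (hOk n)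
      exact a3 k k' l hk (by have := hLn n; omega) (by have := hLn n; omega))
    (fun n => (HH (σs n) C (hOk n)).1 0 0)
    (by
      intro n
      obtain ⟨-, -, -, -, -, a6⟩ := HH (σs n) C (hOk n)
      have b := a6 (Ls n) (hLn n)
      have hG : (0 : ℝ) < (σs n).G.card := by exact_mod_cast (hOk n).ne.card_pos
      have c := hsum n
      rw [← hL] at c
      have : (σs n).G.card * (σs n).hh B 0 (Ls n) ≤ (σs n).G.card * ((e + ε) * L * Ls n + c0) := by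
        linarith only [b, c]
      exact le_of_mul_le_mul_left this hG)
  -- parameters
  obtain ⟨δ1, hδ1⟩ : ∃ δ1 : ℝ, δ1 = η * L / 16 := ⟨_, rfl⟩
  obtain ⟨g, hg⟩ := fin_gap V ((e + ε) * L) δ1 (fun j => (hVb j).2) (by rw [hδ1]; positivity)
  obtain ⟨d0, hd0⟩ := exists_nat_ge (16 * (c1 + c3 + c6) / (η * L))
  obtain ⟨d, hd⟩ : ∃ d, d = d0 + g + 1 := ⟨_, rfl⟩
  have hdd : 16 * (c1 + c3 + c6) ≤ d * (η * L) := by
    rw [div_le_iff₀ (by positivity)] at hd0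
    have : (d0 : ℝ) ≤ d := by exact_mod_cast (by omega : d0 ≤ d)
    have h2 : (d0 : ℝ) * (η * L) ≤ d * (η * L) := mul_le_mul_of_nonneg_right this (by positivity)
    linarith
  have hdr : (1 : ℝ) ≤ d := by exact_mod_cast (by omega : 1 ≤ d)
  obtain ⟨L1, HL1⟩ := HS45 C e ε hEQ (h2 m (q' + 1) B R κ D e hLow) hC he0 (by rw [← hq]; linarith) hε0 (g + d)
    (by omega)
  obtain ⟨W1, hW1⟩ : ∃ W1, W1 = L1 + 1 := ⟨_, rfl⟩
  obtain ⟨δ, r0, hδ0, HS⟩ := HL1 W1 (by omega)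
  obtain ⟨ν, hν⟩ : ∃ ν : ℝ, ν = η / (16 * q) := ⟨_, rfl⟩
  have hν0 : 0 < ν := by rw [hν]; positivity
  obtain ⟨W2, hW2⟩ : ∃ W2 : ℝ, W2 = (W1 : ℝ) + ((g + d : ℕ) : ℝ) := ⟨_, rfl⟩
  have hW20 : 0 < W2 := by
    rw [hW2]
    have : (0 : ℝ) < W1 := by exact_mod_cast (by omega : 0 < W1)
    positivity
  obtain ⟨δ2, hδ2⟩ : ∃ δ2 : ℝ, δ2 = δ * ν / (8 * W2) := ⟨_, rfl⟩
  obtain ⟨gs, hgs⟩ := fin_gap V ((e + ε) * L) δ2 (fun j => (hVb j).2) (by rw [hδ2]; positivity)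
  obtain ⟨r1, hr1⟩ := fin_small B hB L (δ * ν / (16 * q)) (by positivity)
  obtain ⟨r, hr⟩ : ∃ r, r = r0 + r1 := ⟨_, rfl⟩
  obtain ⟨n1, hn1⟩ := exists_nat_ge (c1 + c3)
  obtain ⟨Q, hQ⟩ : ∃ Q, Q = gs + W1 + (g + d) + r0 + n1 := ⟨_, rfl⟩
  obtain ⟨Vq, hVq1, HREP⟩ := h5 m (q' + 1) B Q D hB hD
  obtain ⟨τ, hτ⟩ : ∃ τ : ℝ, τ = min (min (η * L / 32) ((q - e) * L * (η / (32 * q))))
    (min (δ * ν / (16 * W2)) (L * (q - e) / (128 * m))) := ⟨_, rfl⟩
  have hτ0 : 0 < τ := by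
    rw [hτ]
    exact lt_min (lt_min (by positivity) (by positivity)) (lt_min (by positivity) (by positivity))
  have hτ1 : τ ≤ η * L / 32 := by rw [hτ]; exact (min_le_left _ _).trans (min_le_left _ _)
  have hτ2 : τ ≤ (q - e) * L * (η / (32 * q)) := by rw [hτ]; exact (min_le_left _ _).trans (min_le_right _ _)
  have hτ3 : τ ≤ δ * ν / (16 * W2) := by rw [hτ]; exact (min_le_right _ _).trans (min_le_left _ _)
  have hτ4 : τ ≤ L * (q - e) / (128 * m) := by rw [hτ]; exact (min_le_right _ _).trans (min_le_right _ _)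
  obtain ⟨c8, hc8⟩ : ∃ c8 : ℝ, c8 = (d * (2 * m * (g + d) * L + Real.log Vq + (2 * m * d + q * g) * L + c2 +
      q * d * L) + (gs + W1 + r + 1) * (q * ((g : ℝ) + d) * L + c3)) := ⟨_, rfl⟩
  obtain ⟨a1, ha1⟩ := exists_nat_ge (4 * c8 / (η * L))
  obtain ⟨a2, ha2⟩ := exists_nat_ge (4 * (W2 * (q * (W2 + r) * L)) / (δ * ν))
  obtain ⟨a3, ha3⟩ := exists_nat_ge (8 * c0 / (L * (q - e)))
  obtain ⟨W, hW⟩ : ∃ W, W = W0 + (gs + (W1 + (g + d)) + r + 1) + (g + d + d) + a1 + a2 + 4 * m * (a3 + 1) := ⟨_, rfl⟩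
  obtain ⟨κ1, hκ1⟩ : ∃ κ1, κ1 = W / (4 * m) := ⟨_, rfl⟩
  have hκa : a3 + 1 ≤ κ1 := by
    rw [hκ1, Nat.le_div_iff_mul_le (by omega)]
    have : 4 * m * (a3 + 1) ≤ W := by omega
    linarith
  have hWκ : W ≤ 8 * m * κ1 := by
    have h1 : W < 4 * m * (κ1 + 1) := by
      rw [hκ1]
      exact Nat.lt_mul_div_succ W (by omega)
    have h2 : 4 * m * (κ1 + 1) ≤ 8 * m * κ1 := by
      have h3 : 1 ≤ κ1 := by omega
      calc 4 * m * (κ1 + 1) ≤ 4 * m * (κ1 + κ1) := Nat.mul_le_mul_left _ (Nat.add_le_add_left h3 _)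
        _ = 8 * m * κ1 := by ring
    omega
  have hWr : (0 : ℝ) < W := by exact_mod_cast (by omega : 0 < W)
  have hκr : (a3 : ℝ) + 1 ≤ κ1 := by exact_mod_cast hκa
  have hκr0 : (0 : ℝ) < κ1 := by
    have : (0 : ℝ) ≤ a3 := Nat.cast_nonneg _
    linarith
  obtain ⟨n, hnn, hWn, H⟩ := hV W Q τ hτ0
  have hKn := hLn n
  obtain ⟨rep, hrep, hrepc⟩ := HREP (σs n) R κ C (hOk n) (by have := hn n; omega)
  have hQn : Q ≤ (σs n).n := by have := hn n; omega
  have hn1r : c1 + c3 ≤ (n1 : ℝ) := hn1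
  have hVqr : (1 : ℝ) ≤ Vq := by exact_mod_cast hVq1
  refine fin_one m q' B R κ D C e ε L c0 c1 c2 c3 c6 η1 ε2 β η δ1 δ2 δ ν τ ((e + ε) * L) (Real.log Vq) V h4 hB hL hR
    hD hm g d gs W1 r0 r Q W κ1 (Ls n) Vq (by omega) (by omega) (by omega) (by omega) (by rw [← hq]; linarith) hc0 hc1
    hc3 hc6 hη1 hη hβ0 (by rw [← hq, hε2]; linarith) rfl hδ0 (by rw [← hq]; exact hν) hκ1 (by omega) rfl ?_ ?_ ?_ ?_ ?_ ?_ ?_
    (by omega) (by omega) hVm (fun j => (hVb j).2) hg hgs (σs n) rep (hOk n) hKn hWn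
    (fun k hk => (HH (σs n) C (hOk n)).2.2.2.2.1 k hk) H ?_ ?_ ?_ ?_ ?_ ?_ ?_
  · -- n1
    rw [← hq]
    have e1 : (1 - β) * (q - ε2) ≥ (q + e) / 2 := by
      have hβq : β * (4 * q) = q - e := by rw [hβ]; field_simp
      have hβ1 : β * q = (q - e) / 4 := by linarith
      have : 0 ≤ β * ε2 := by rw [hε2]; positivity
      have h3 : (1 - β) * (q - ε2) = q - ε2 - β * q + β * ε2 := by ring
      rw [h3, hβ1]
      linarith
    have e2 : (1 - β) * ((q - ε2) * κ1 * L) ≥ (q + e) / 2 * (κ1 * L) := by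
      have h4 : (1 - β) * ((q - ε2) * κ1 * L) = ((1 - β) * (q - ε2)) * (κ1 * L) := by ring
      rw [h4]
      exact mul_le_mul_of_nonneg_right e1 (by positivity)
    have e3 : c0 ≤ κ1 * L * (q - e) / 8 := by
      rw [div_le_iff₀ (by positivity)] at ha3
      have h5 : (a3 : ℝ) * (L * (q - e)) ≤ κ1 * (L * (q - e)) :=
        mul_le_mul_of_nonneg_right (by linarith) (by positivity)
      linarith
    have e4 : 2 * W * τ ≤ κ1 * L * (q - e) / 8 := by
      have h6 : (W : ℝ) ≤ 8 * m * κ1 := by exact_mod_cast hWκ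
      calc 2 * W * τ ≤ 2 * (8 * m * κ1) * (L * (q - e) / (128 * m)) := by
            apply mul_le_mul _ hτ4 hτ0.le (by positivity)
            linarith
        _ = κ1 * L * (q - e) / 8 := by field_simp; ring
    have e5 : κ1 * L * ε ≤ κ1 * L * ((q - e) / 16) := mul_le_mul_of_nonneg_left hε16 (by positivity)
    have e6 := mul_pos (mul_pos hκr0 hL0) hqe
    linarith only [e2, e3, e4, e5, e6]
  · -- n2
    rw [← hq, ← hc8]
    have e1 : c8 ≤ W * (η * L / 4) := by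
      rw [div_le_iff₀ (by positivity)] at ha1
      have h1 : (a1 : ℝ) ≤ W := by exact_mod_cast (by omega : a1 ≤ W)
      have h2 : (a1 : ℝ) * (η * L) ≤ W * (η * L) := mul_le_mul_of_nonneg_right h1 (by positivity)
      linarith
    have e2 : W * (η * L / 4) ≤ d * (W * (η * L / 4)) := by
      have h3 : 0 ≤ W * (η * L / 4) := by positivity
      have h4 := mul_le_mul_of_nonneg_right hdr h3
      linarith only [h4]
    have e3 : d * (δ1 + 2 * τ) + c1 + c3 ≤ d * (η * L) * (3 / 16) := by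
      have h4 : d * (δ1 + 2 * τ) ≤ d * (η * L / 16 + 2 * (η * L / 32)) := by
        rw [hδ1]
        exact mul_le_mul_of_nonneg_left (by linarith) (by linarith)
      linarith
    have e4 := mul_le_mul_of_nonneg_left e3 hWr.le
    have e5 : 0 < d * η * W * L := by positivity
    linarith
  · -- n3
    rw [← hq, div_le_div_iff₀ (by
      have : (0 : ℝ) < ((g + d : ℕ) : ℝ) := by exact_mod_cast (by omega : 0 < g + d)
      positivity) (by positivity)]
    have h1 : (d : ℝ) ≤ ((g + d : ℕ) : ℝ) := by exact_mod_cast (by omega : d ≤ g + d)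
    have h2 : d * (η * L) ≤ ((g + d : ℕ) : ℝ) * (η * L) := mul_le_mul_of_nonneg_right h1 (by positivity)
    have h3 : 16 * c6 ≤ ((g + d : ℕ) : ℝ) * (η * L) := by linarith
    have h4 := mul_le_mul_of_nonneg_left h3 hq0.le
    linarith
  · -- n4
    rw [← hW2]
    have h1 : δ2 + 2 * τ ≤ δ * ν / (4 * W2) := by
      have h2 : δ * ν / (4 * W2) = δ * ν / (8 * W2) + 2 * (δ * ν / (16 * W2)) := by field_simp; ring
      rw [h2, ← hδ2]
      linarith
    calc W2 * (δ2 + 2 * τ) ≤ W2 * (δ * ν / (4 * W2)) := mul_le_mul_of_nonneg_left h1 hW20.le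
      _ = δ * ν / 4 := by field_simp
  · -- n5
    rw [← hq, ← hW2]
    have hO : a2 + 1 ≤ W - (gs + (W1 + (g + d)) + r) := by omega
    have hOr : (a2 : ℝ) + 1 ≤ ((W - (gs + (W1 + (g + d)) + r) : ℕ) : ℝ) := by exact_mod_cast hO
    have ha20 : (0 : ℝ) ≤ a2 := Nat.cast_nonneg _
    rw [div_le_iff₀ (by linarith)]
    rw [div_le_iff₀ (by positivity)] at ha2
    have h1 : (a2 : ℝ) * (δ * ν) ≤ ((W - (gs + (W1 + (g + d)) + r) : ℕ) : ℝ) * (δ * ν) :=
      mul_le_mul_of_nonneg_right (by linarith) (by positivity)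
    linarith
  · -- n6
    intro x hx
    rw [← hq]
    have h1 := hr1 x (by omega)
    calc 4 * q * (((x : ℝ) * L + 2) / (B : ℝ) ^ x) ≤ 4 * q * (δ * ν / (16 * q)) :=
          mul_le_mul_of_nonneg_left h1 (by positivity)
      _ = δ * ν / 4 := by field_simp; ring
  · -- n7
    rw [← hq]
    have h1 : 2 * ε * L ≤ (q - e) * L * (η / (32 * q)) := by
      have h2 := mul_le_mul_of_nonneg_right hε64 (by positivity : (0 : ℝ) ≤ 2 * L)
      have h3 : (q - e) * η / (64 * q) * (2 * L) = (q - e) * L * (η / (32 * q)) := by field_simp; ring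
      rw [h3] at h2
      linarith
    have h4 : (q - e) * L * (η / (8 * q)) = 4 * ((q - e) * L * (η / (32 * q))) := by field_simp; ring
    have h5 : 0 < (q - e) * L * (η / (32 * q)) := by positivity
    rw [h4]
    linarith
  · -- S2
    intro k hk
    have := HW0 W (by omega) (σs n) (hOk n) k hk
    rw [hqc, ← hL, ← hκ1] at this
    rw [← hq]
    exact this
  · -- G1
    intro k j hkj hj hk
    exact HG1 (σs n) C Q k (k + W) g d j rep (hOk n) hrep hkj hj hk hQn (by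
      have : ((g + d : ℕ) : ℝ) + n1 ≤ Q := by exact_mod_cast (by omega : g + d + n1 ≤ Q)
      push_cast at this
      linarith)
  · -- TH0
    intro k hk
    obtain ⟨b1, b2⟩ := HTH (σs n) C Vq k (k + W) g rep (hOk n) (fun γ hγ => (hrep γ hγ).1) (by omega) hk hrepc hVq1
    constructor
    · intro i hi
      have := b1 i hi
      rw [hqc, ← hL] at this
      rw [← hq]
      exact this
    · intro j hkj hj
      have := b2 j hkj hj
      rw [← hL] at this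
      exact this
  · -- JB
    intro k hk
    obtain ⟨b1, b2, b3⟩ := h9 m (q' + 1) B R κ D C (σs n) hB hR hD (hOk n) k (k + W) (by omega) hk
    refine ⟨b1, b2, ?_⟩
    intro i l hl
    have := b3 i l hl
    rw [hqc, ← hL] at this
    rw [← hq]
    exact this
  · -- REL
    intro k i l1 hki hil hl hk hli
    have := HREL (σs n) C Q k (k + W) g d i l1 rep (hOk n) hrep hki hil hl hk hQn (by
      have h1 : (((l1 + g + d : ℕ) : ℝ)) + n1 ≤ Q + i := by exact_mod_cast (by omega : l1 + g + d + n1 ≤ Q + i)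
      linarith)
    rw [hqc, ← hL] at this
    rw [← hq]
    exact this
  · -- AFL
    intro k i l0 l2 hki hil hl hl2 hk
    have := h11 m (q' + 1) B R κ D C (σs n) hB hR hD (hOk n) k (k + W) i l0 l2 hki hil hl hl2 hk
    rw [hqc, ← hL] at this
    rw [← hq]
    exact this
  · -- S45
    intro k i hki hi hk
    have := HS (σs n) Q k (k + W) i (i + gs) rep (hOk n) hrep hki (by omega) hi hk hQn (by omega)
    rw [← hL] at this
    exact this

end Pool.Agent.Helper70.SK
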