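import Pool.Agent.Helper70.SK.Stmts
import Pool.Agent.Helper70.SK.Lib

/-! Sticky Kakeya sets, FIN: elementary lemmas on averages. -/

namespace Pool.Agent.Helper70.SK

open Finset Pool.Agent.Helper70.DK

theorem fin_tel (F : ℕ → ℝ) (N1 d : ℕ) :
    ∑ o ∈ range N1, (F (o + d) - F o) = ∑ i ∈ range d, F (N1 + i) - ∑ i ∈ range d, F i := by
  induction N1 with
  | zero => simp
  | succ n ih =>
    rw [sum_range_succ, ih]
    have h1 : ∑ i ∈ range d, F (n + 1 + i) + F n = ∑ i ∈ range d, F (n + i) + F (n + d) := by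
      have e1 := Finset.sum_range_succ (fun i => F (n + i)) d
      have e2 := Finset.sum_range_succ' (fun i => F (n + i)) d
      rw [e1] at e2
      have e3 : ∑ i ∈ range d, F (n + 1 + i) = ∑ k ∈ range d, F (n + (k + 1)) :=
        Finset.sum_congr rfl fun i _ => by congr 1; ring
      simp only [Nat.add_zero] at e2
      rw [e3]
      exact e2.symm
    linarith

/-- sums of `V` over intervals -/
theorem fin_P (V : ℕ → ℝ) (δ : ℝ) (g o a b : ℕ) (hV : Monotone V) (hg : ∀ j, V j ≤ V g + δ) (hga : g ≤ a) :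
    ∑ j ∈ Ico (o + a) (o + b), V j - ∑ j ∈ Ico a b, V j ≤ ((b - a : ℕ) : ℝ) * δ := by
  have e1 : ∑ j ∈ Ico (o + a) (o + b), V j = ∑ j ∈ Ico a b, V (o + j) := by
    rw [Finset.sum_Ico_add V a b o, Nat.add_comm a o, Nat.add_comm b o]
  rw [e1, ← Finset.sum_sub_distrib]
  calc ∑ j ∈ Ico a b, (V (o + j) - V j) ≤ ∑ j ∈ Ico a b, δ := by
        refine Finset.sum_le_sum fun j hj => ?_
        have h1 := hg (o + j)
        have h2 : V g ≤ V j := hV (hga.trans (Finset.mem_Ico.1 hj).1)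
        linarith
    _ = ((b - a : ℕ) : ℝ) * δ := by
        rw [Finset.sum_const, Nat.card_Ico, nsmul_eq_mul]

/-- sums of increments -/
theorem fin_S (h : ℕ → ℕ → ℝ) (V : ℕ → ℝ) (N W : ℕ) (τ : ℝ) (hN : 0 < N)
    (H : ∀ o j, o + j + 1 ≤ W →
      |(∑ k ∈ range N, (h (k + o) (k + o + j + 1) - h (k + o) (k + o + j))) / (N : ℝ) - V j| ≤ τ)
    (o j1 j2 : ℕ) (h12 : j1 ≤ j2) (ho : o + j2 ≤ W) :
    |∑ k ∈ range N, (h (k + o) (k + o + j2) - h (k + o) (k + o + j1)) - N * ∑ j ∈ Ico j1 j2, V j| ≤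
      N * (((j2 - j1 : ℕ) : ℝ) * τ) := by
  have hN' : (0 : ℝ) < N := by exact_mod_cast hN
  have key : ∀ j, o + j + 1 ≤ W →
      |∑ k ∈ range N, (h (k + o) (k + o + j + 1) - h (k + o) (k + o + j)) - N * V j| ≤ N * τ := by
    intro j hj
    have := H o j hj
    rw [div_sub' hN'.ne', abs_div, abs_of_pos hN', div_le_iff₀ hN'] at this
    linarith [this]
  have e1 : ∑ k ∈ range N, (h (k + o) (k + o + j2) - h (k + o) (k + o + j1)) =
      ∑ j ∈ Ico j1 j2, ∑ k ∈ range N, (h (k + o) (k + o + j + 1) - h (k + o) (k + o + j)) := by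
    rw [Finset.sum_comm]
    refine Finset.sum_congr rfl fun k _ => ?_
    exact (Finset.sum_Ico_sub (fun j => h (k + o) (k + o + j)) h12).symm
  rw [e1, Finset.mul_sum, ← Finset.sum_sub_distrib]
  refine (Finset.abs_sum_le_sum_abs _ _).trans ?_
  calc ∑ j ∈ Ico j1 j2, |∑ k ∈ range N, (h (k + o) (k + o + j + 1) - h (k + o) (k + o + j)) - N * V j|
      ≤ ∑ j ∈ Ico j1 j2, (N * τ) := by
        refine Finset.sum_le_sum fun j hj => key j ?_
        have := (Finset.mem_Ico.1 hj).2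
        omega
    _ = N * (((j2 - j1 : ℕ) : ℝ) * τ) := by
        rw [Finset.sum_const, Nat.card_Ico, nsmul_eq_mul]; ring

end Pool.Agent.Helper70.SK
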