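import Pool.Agent.Helper70.SK.FinA

/-! Sticky Kakeya sets, FIN: the averages. -/

namespace Pool.Agent.Helper70.SK

open Finset Pool.Agent.Helper70.DK

/-- step A: the average information of pairs -/
theorem fin_stepA (h : ℕ → ℕ → ℝ) (V TW : ℕ → ℝ) (N W κ1 : ℕ) (τ E c0 q ε2 η1 L β : ℝ) (hN : 0 < N)
    (hL : 0 < L) (hκ1 : 0 < κ1) (hκW : κ1 ≤ W) (hq : ε2 < q) (hη1 : 0 < η1)
    (H : ∀ o j, o + j + 1 ≤ W →
      |(∑ k ∈ range N, (h (k + o) (k + o + j + 1) - h (k + o) (k + o + j))) / (N : ℝ) - V j| ≤ τ)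
    (hV : ∀ j, V j ≤ E)
    (halt : ∀ k < N, η1 * W * L ≤ TW k ∨ (q - ε2) * κ1 * L ≤ h k (k + W) - h (k + κ1) (k + W))
    (hTW : ∀ k < N, 0 ≤ TW k) (hanti : ∀ k < N, h (k + κ1) (k + W) ≤ h k (k + W))
    (hkk : ∀ k < N, h k k ≤ c0) (hnn : ∀ k l, 0 ≤ h k l)
    (hnum : κ1 * E + c0 + 2 * W * τ ≤ (1 - β) * ((q - ε2) * κ1 * L)) :
    N * (β * η1 * W * L) ≤ ∑ k ∈ range N, TW k := by
  have hN' : (0 : ℝ) < N := by exact_mod_cast hN
  have hκ1' : (0 : ℝ) < κ1 := by exact_mod_cast hκ1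
  have hW' : (0 : ℝ) < W := by exact_mod_cast (lt_of_lt_of_le hκ1 hκW)
  obtain ⟨A, hA⟩ : ∃ A : ℝ, A = (q - ε2) * κ1 * L := ⟨_, rfl⟩
  have hApos : 0 < A := by rw [hA]; exact mul_pos (mul_pos (by linarith) hκ1') hL
  have e1 : ∀ k < N, η1 * W * L * (1 - (h k (k + W) - h (k + κ1) (k + W)) / A) ≤ TW k := by
    intro k hk
    have hD : 0 ≤ (h k (k + W) - h (k + κ1) (k + W)) / A := by
      apply div_nonneg _ hApos.le
      linarith [hanti k hk]
    have hP : 0 < η1 * W * L := mul_pos (mul_pos hη1 hW') hL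
    rcases halt k hk with h1 | h1
    · nlinarith
    · rw [← hA] at h1
      have h2 : 1 ≤ (h k (k + W) - h (k + κ1) (k + W)) / A := by
        rw [le_div_iff₀ hApos]; linarith
      have h3 := hTW k hk
      nlinarith
  have e2 : ∑ k ∈ range N, (h k (k + W) - h (k + κ1) (k + W)) ≤ N * (κ1 * E + c0 + 2 * W * τ) := by
    have a1 := fin_S h V N W τ hN H 0 0 W (Nat.zero_le _) (by omega)
    have a2 := fin_S h V N W τ hN H κ1 0 (W - κ1) (Nat.zero_le _) (by omega)
    simp only [Nat.add_zero, Nat.sub_zero] at a1 a2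
    have b1 := (abs_le.1 a1).2
    have b2 := (abs_le.1 a2).1
    have c1 : ∑ j ∈ Ico 0 W, V j ≤ ∑ j ∈ Ico 0 (W - κ1), V j + κ1 * E := by
      rw [← Finset.sum_Ico_consecutive V (Nat.zero_le (W - κ1)) (Nat.sub_le W κ1)]
      have : ∑ j ∈ Ico (W - κ1) W, V j ≤ κ1 * E := by
        calc ∑ j ∈ Ico (W - κ1) W, V j ≤ ∑ j ∈ Ico (W - κ1) W, E := Finset.sum_le_sum fun j _ => hV j
          _ = κ1 * E := by
            rw [Finset.sum_const, Nat.card_Ico, nsmul_eq_mul]
            have : W - (W - κ1) = κ1 := by omega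
            rw [this]
      linarith
    have c2 : ∑ k ∈ range N, (h k (k + W) - h (k + κ1) (k + W)) =
        ∑ k ∈ range N, (h k (k + W) - h k k) -
        ∑ k ∈ range N, (h (k + κ1) (k + κ1 + (W - κ1)) - h (k + κ1) (k + κ1)) +
        (∑ k ∈ range N, h k k - ∑ k ∈ range N, h (k + κ1) (k + κ1)) := by
      rw [← Finset.sum_sub_distrib, ← Finset.sum_sub_distrib, ← Finset.sum_add_distrib]
      refine Finset.sum_congr rfl fun k _ => ?_
      have : k + κ1 + (W - κ1) = k + W := by omega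
      rw [this]; ring
    have c3 : ∑ k ∈ range N, h k k ≤ N * c0 := by
      calc ∑ k ∈ range N, h k k ≤ ∑ k ∈ range N, c0 :=
            Finset.sum_le_sum fun k hk => hkk k (Finset.mem_range.1 hk)
        _ = N * c0 := by rw [Finset.sum_const, card_range, nsmul_eq_mul]
    have c4 : 0 ≤ ∑ k ∈ range N, h (k + κ1) (k + κ1) := Finset.sum_nonneg fun k _ => hnn _ _
    have c5 : ((W - κ1 : ℕ) : ℝ) ≤ W := by exact_mod_cast Nat.sub_le W κ1
    have hτ : 0 ≤ τ := by
      have := H 0 0 (by omega)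
      exact (abs_nonneg _).trans this
    rw [c2]
    have c6 : ((W - κ1 : ℕ) : ℝ) * τ ≤ W * τ := mul_le_mul_of_nonneg_right c5 hτ
    have c7 : (N : ℝ) * (((W - κ1 : ℕ) : ℝ) * τ) ≤ N * (W * τ) := mul_le_mul_of_nonneg_left c6 hN'.le
    have c8 : (N : ℝ) * ∑ j ∈ Ico 0 W, V j ≤ N * (∑ j ∈ Ico 0 (W - κ1), V j + κ1 * E) :=
      mul_le_mul_of_nonneg_left c1 hN'.le
    nlinarith
  calc N * (β * η1 * W * L) ≤ η1 * W * L * (N - (N * (κ1 * E + c0 + 2 * W * τ)) / A) := by
        have hP : 0 < η1 * W * L := mul_pos (mul_pos hη1 hW') hL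
        have : N * (κ1 * E + c0 + 2 * W * τ) / A ≤ N * (1 - β) := by
          rw [div_le_iff₀ hApos, hA]
          have := mul_le_mul_of_nonneg_left hnum hN'.le
          nlinarith
        nlinarith
    _ ≤ η1 * W * L * (N - (∑ k ∈ range N, (h k (k + W) - h (k + κ1) (k + W))) / A) := by
        have hP : 0 < η1 * W * L := mul_pos (mul_pos hη1 hW') hL
        apply mul_le_mul_of_nonneg_left _ hP.le
        have := div_le_div_of_nonneg_right e2 hApos.le
        linarith
    _ = ∑ k ∈ range N, η1 * W * L * (1 - (h k (k + W) - h (k + κ1) (k + W)) / A) := by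
        rw [← Finset.mul_sum, Finset.sum_sub_distrib (f := fun _ => (1 : ℝ)), Finset.sum_const, card_range,
          nsmul_eq_mul, mul_one, Finset.sum_div]
    _ ≤ ∑ k ∈ range N, TW k := Finset.sum_le_sum fun k hk => e1 k (Finset.mem_range.1 hk)

/-- step B: the displacements -/
theorem fin_stepB (h : ℕ → ℕ → ℝ) (V TW : ℕ → ℝ) (Th HR J : ℕ → ℕ → ℝ) (N W g d : ℕ)
    (τ q L m η c1 c2 lV δ1 : ℝ) (hN : 0 < N) (hL : 0 < L) (hd : 0 < d) (hW : g + d + d ≤ W) (hq : 0 ≤ q)
    (hm : 0 ≤ m) (hc1 : 0 ≤ c1)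
    (H : ∀ o j, o + j + 1 ≤ W →
      |(∑ k ∈ range N, (h (k + o) (k + o + j + 1) - h (k + o) (k + o + j))) / (N : ℝ) - V j| ≤ τ)
    (hVm : Monotone V) (hVg : ∀ j, V j ≤ V g + δ1)
    (hA : N * (η * W * L) ≤ ∑ k ∈ range N, TW k)
    (hG1 : ∀ k < N, ∀ o, o + g + d ≤ W → Th k (o + d) - Th k o ≤ HR k o +
      ((h k (k + o + g + d) - h k (k + o + g)) - (h (k + o) (k + o + g + d) - h (k + o) (k + o + g))) +
      (J k (o + d) - J k o) + c1)
    (hTh1 : ∀ k < N, ∀ i, i + g ≤ W → Th k i ≤ (2 * m * i + q * g) * L + c2)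
    (hTh2 : ∀ k < N, ∀ i, i + g ≤ W → TW k - 2 * m * ((W : ℝ) - i) * L - lV ≤ Th k i)
    (hJ0 : ∀ k < N, ∀ i, 0 ≤ J k i) (hJ1 : ∀ k < N, ∀ i, i + g ≤ W → J k i ≤ q * ((W : ℝ) - i - g) * L) :
    N * (d * (η * W * L) - d * (2 * m * (g + d) * L + lV + (2 * m * d + q * g) * L + c2 + q * d * L) -
      W * (d * (δ1 + 2 * τ) + c1)) ≤ ∑ k ∈ range N, ∑ o ∈ range (W - g - d + 1), HR k o := by
  have hN' : (0 : ℝ) < N := by exact_mod_cast hN
  have hd' : (0 : ℝ) < d := by exact_mod_cast hd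
  obtain ⟨N1, hN1⟩ : ∃ N1, N1 = W - g - d + 1 := ⟨_, rfl⟩
  rw [← hN1]
  have hτ : 0 ≤ τ := (abs_nonneg _).trans (H 0 0 (by omega))
  have hδ1 : 0 ≤ δ1 := by linarith [hVg g]
  -- pointwise in k
  have e1 : ∀ k < N, d * TW k - d * (2 * m * (g + d) * L + lV + (2 * m * d + q * g) * L + c2 + q * d * L) -
      ∑ o ∈ range N1, ((h k (k + o + g + d) - h k (k + o + g)) -
        (h (k + o) (k + o + g + d) - h (k + o) (k + o + g))) - N1 * c1 ≤ ∑ o ∈ range N1, HR k o := by
    intro k hk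
    have a1 : ∑ o ∈ range N1, (Th k (o + d) - Th k o) ≤ ∑ o ∈ range N1, (HR k o +
      ((h k (k + o + g + d) - h k (k + o + g)) - (h (k + o) (k + o + g + d) - h (k + o) (k + o + g))) +
      (J k (o + d) - J k o) + c1) := by
      refine Finset.sum_le_sum fun o ho => hG1 k hk o ?_
      have := Finset.mem_range.1 ho
      omega
    rw [fin_tel (Th k) N1 d] at a1
    rw [Finset.sum_add_distrib, Finset.sum_add_distrib, Finset.sum_add_distrib, fin_tel (J k) N1 d,
      Finset.sum_const, card_range, nsmul_eq_mul] at a1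
    have b1 : d * (TW k - 2 * m * (g + d) * L - lV) ≤ ∑ i ∈ range d, Th k (N1 + i) := by
      calc d * (TW k - 2 * m * (g + d) * L - lV) = ∑ i ∈ range d, (TW k - 2 * m * (g + d) * L - lV) := by
            rw [Finset.sum_const, card_range, nsmul_eq_mul]
        _ ≤ _ := by
            refine Finset.sum_le_sum fun i hi => ?_
            have hi' := Finset.mem_range.1 hi
            have h2 := hTh2 k hk (N1 + i) (by omega)
            have h3 : (W : ℝ) - ((N1 + i : ℕ) : ℝ) ≤ g + d := by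
              have : (W : ℝ) ≤ ((N1 + i : ℕ) : ℝ) + g + d := by
                have : W ≤ N1 + i + g + d := by omega
                exact_mod_cast this
              linarith
            have h4 : 2 * m * ((W : ℝ) - ((N1 + i : ℕ) : ℝ)) * L ≤ 2 * m * (g + d) * L :=
              mul_le_mul_of_nonneg_right (mul_le_mul_of_nonneg_left h3 (by positivity)) hL.le
            linarith
    have b2 : ∑ i ∈ range d, Th k i ≤ d * ((2 * m * d + q * g) * L + c2) := by
      calc ∑ i ∈ range d, Th k i ≤ ∑ i ∈ range d, ((2 * m * d + q * g) * L + c2) := by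
            refine Finset.sum_le_sum fun i hi => ?_
            have hi' := Finset.mem_range.1 hi
            have h2 := hTh1 k hk i (by omega)
            have h3 : (i : ℝ) ≤ d := by exact_mod_cast hi'.le
            have h4 : (2 * m * i + q * g) * L ≤ (2 * m * d + q * g) * L :=
              mul_le_mul_of_nonneg_right (by nlinarith) hL.le
            linarith
        _ = _ := by rw [Finset.sum_const, card_range, nsmul_eq_mul]
    have b3 : ∑ i ∈ range d, J k (N1 + i) ≤ d * (q * d * L) := by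
      calc ∑ i ∈ range d, J k (N1 + i) ≤ ∑ i ∈ range d, (q * d * L) := by
            refine Finset.sum_le_sum fun i hi => ?_
            have hi' := Finset.mem_range.1 hi
            have h2 := hJ1 k hk (N1 + i) (by omega)
            have h3 : (W : ℝ) - ((N1 + i : ℕ) : ℝ) - g ≤ d := by
              have : (W : ℝ) ≤ ((N1 + i : ℕ) : ℝ) + g + d := by
                have : W ≤ N1 + i + g + d := by omega
                exact_mod_cast this
              linarith
            have h4 : q * ((W : ℝ) - ((N1 + i : ℕ) : ℝ) - g) * L ≤ q * d * L :=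
              mul_le_mul_of_nonneg_right (mul_le_mul_of_nonneg_left h3 hq) hL.le
            linarith
        _ = _ := by rw [Finset.sum_const, card_range, nsmul_eq_mul]
    have b4 : 0 ≤ ∑ i ∈ range d, J k i := Finset.sum_nonneg fun i _ => hJ0 k hk i
    nlinarith
  -- average of the increments
  have e2 : ∀ o ∈ range N1, ∑ k ∈ range N, ((h k (k + o + g + d) - h k (k + o + g)) -
        (h (k + o) (k + o + g + d) - h (k + o) (k + o + g))) ≤ N * (d * (δ1 + 2 * τ)) := by
    intro o ho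
    have ho' := Finset.mem_range.1 ho
    have a1 := fin_S h V N W τ hN H 0 (o + g) (o + g + d) (by omega) (by omega)
    have a2 := fin_S h V N W τ hN H o g (g + d) (by omega) (by omega)
    have b1 := (abs_le.1 a1).2
    have b2 := (abs_le.1 a2).1
    have e3 : o + g + d - (o + g) = d := by omega
    have e4 : g + d - g = d := by omega
    rw [e3] at b1
    rw [e4] at b2
    have b3 := fin_P V δ1 g o g (g + d) hVm hVg (le_refl _)
    rw [e4] at b3
    rw [Finset.sum_sub_distrib]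
    have c1 : ∑ k ∈ range N, (h k (k + o + g + d) - h k (k + o + g)) =
        ∑ k ∈ range N, (h (k + 0) (k + 0 + (o + g + d)) - h (k + 0) (k + 0 + (o + g))) := by
      refine Finset.sum_congr rfl fun k _ => ?_
      rw [Nat.add_zero]
      congr 2 <;> ring
    have c2 : ∑ k ∈ range N, (h (k + o) (k + o + g + d) - h (k + o) (k + o + g)) =
        ∑ k ∈ range N, (h (k + o) (k + o + (g + d)) - h (k + o) (k + o + g)) := by
      refine Finset.sum_congr rfl fun k _ => ?_
      rw [show k + o + g + d = k + o + (g + d) by ring]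
    rw [c1, c2]
    have c3 : o + g + d = o + (g + d) := by ring
    rw [← c3] at b3
    have c4 : (N : ℝ) * (∑ j ∈ Ico (o + g) (o + g + d), V j - ∑ j ∈ Ico g (g + d), V j) ≤ N * (d * δ1) :=
      mul_le_mul_of_nonneg_left b3 hN'.le
    nlinarith
  have e5 : ∑ k ∈ range N, ∑ o ∈ range N1, ((h k (k + o + g + d) - h k (k + o + g)) -
        (h (k + o) (k + o + g + d) - h (k + o) (k + o + g))) ≤ N1 * (N * (d * (δ1 + 2 * τ))) := by
    rw [Finset.sum_comm]
    refine (Finset.sum_le_sum e2).trans ?_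
    rw [Finset.sum_const, card_range, nsmul_eq_mul]
  have e6 : ∑ k ∈ range N, (d * TW k -
      d * (2 * m * (g + d) * L + lV + (2 * m * d + q * g) * L + c2 + q * d * L) -
      ∑ o ∈ range N1, ((h k (k + o + g + d) - h k (k + o + g)) -
        (h (k + o) (k + o + g + d) - h (k + o) (k + o + g))) - N1 * c1) ≤
      ∑ k ∈ range N, ∑ o ∈ range N1, HR k o :=
    Finset.sum_le_sum fun k hk => e1 k (Finset.mem_range.1 hk)
  rw [Finset.sum_sub_distrib, Finset.sum_sub_distrib, Finset.sum_sub_distrib, ← Finset.mul_sum, Finset.sum_const,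
    Finset.sum_const, card_range, nsmul_eq_mul, nsmul_eq_mul] at e6
  have hN1W : (N1 : ℝ) ≤ W := by
    have : N1 ≤ W := by omega
    exact_mod_cast this
  have e7 : (N1 : ℝ) * (N * (d * (δ1 + 2 * τ))) ≤ W * (N * (d * (δ1 + 2 * τ))) :=
    mul_le_mul_of_nonneg_right hN1W (by positivity)
  have e8 : (N : ℝ) * (N1 * c1) ≤ N * (W * c1) :=
    mul_le_mul_of_nonneg_left (mul_le_mul_of_nonneg_right hN1W hc1) hN'.le
  have e9 : d * (N * (η * W * L)) ≤ d * ∑ k ∈ range N, TW k := mul_le_mul_of_nonneg_left hA hd'.le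
  linarith

/-- step C: from the displacements of level `l1` to those of level `i` -/
theorem fin_stepC (HR hr : ℕ → ℕ → ℝ) (N W g d gs W1 r : ℕ) (q L c3 : ℝ)
    (hW : gs + (W1 + g + d) + r + 1 ≤ W) (hc3 : 0 ≤ c3) (hq : 0 ≤ q) (hL : 0 < L)
    (h1 : ∀ k < N, ∀ o, o + gs + (W1 + g + d) + r ≤ W → HR k (o + gs + W1) - c3 ≤ hr k o)
    (h2 : ∀ k < N, ∀ o, o + g + d ≤ W → HR k o ≤ q * ((g : ℝ) + d) * L + c3) :
    ∑ k ∈ range N, ∑ o ∈ range (W - g - d + 1), HR k o -
      N * ((gs + W1 + r + 1) * (q * ((g : ℝ) + d) * L + c3) + W * c3) ≤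
    ∑ k ∈ range N, ∑ o ∈ range (W - (gs + (W1 + g + d) + r)), hr k o := by
  obtain ⟨O, hO⟩ : ∃ O, O = W - (gs + (W1 + g + d) + r) := ⟨_, rfl⟩
  obtain ⟨N1, hN1⟩ : ∃ N1, N1 = W - g - d + 1 := ⟨_, rfl⟩
  rw [← hO, ← hN1]
  have key : ∀ k < N, ∑ o ∈ range N1, HR k o - ((gs + W1 + r + 1) * (q * ((g : ℝ) + d) * L + c3) + W * c3) ≤
      ∑ o ∈ range O, hr k o := by
    intro k hk
    have a1 : ∑ o ∈ range O, (HR k (o + gs + W1) - c3) ≤ ∑ o ∈ range O, hr k o := by
      refine Finset.sum_le_sum fun o ho => h1 k hk o ?_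
      have := Finset.mem_range.1 ho
      omega
    have hB : 0 ≤ q * ((g : ℝ) + d) * L + c3 := by positivity
    -- split range N1 = [0, gs + W1) ∪ [gs + W1, gs + W1 + O) ∪ the rest
    have a2 : ∑ o ∈ range N1, HR k o = ∑ o ∈ range (gs + W1), HR k o + ∑ o ∈ Ico (gs + W1) (gs + W1 + O), HR k o +
        ∑ o ∈ Ico (gs + W1 + O) N1, HR k o := by
      rw [Finset.range_eq_Ico, Finset.range_eq_Ico,
        Finset.sum_Ico_consecutive (fun o => HR k o) (Nat.zero_le _) (Nat.le_add_right _ _),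
        Finset.sum_Ico_consecutive (fun o => HR k o) (Nat.zero_le _) (by omega)]
    have a3 : ∑ o ∈ Ico (gs + W1) (gs + W1 + O), HR k o = ∑ o ∈ range O, HR k (o + gs + W1) := by
      rw [Finset.sum_Ico_eq_sum_range]
      have : gs + W1 + O - (gs + W1) = O := by omega
      rw [this]
      refine Finset.sum_congr rfl fun o _ => ?_
      congr 1; ring
    have a4 : ∑ o ∈ range (gs + W1), HR k o ≤ (gs + W1 : ℕ) * (q * ((g : ℝ) + d) * L + c3) := by
      calc ∑ o ∈ range (gs + W1), HR k o ≤ ∑ o ∈ range (gs + W1), (q * ((g : ℝ) + d) * L + c3) := by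
            refine Finset.sum_le_sum fun o ho => h2 k hk o ?_
            have := Finset.mem_range.1 ho
            omega
        _ = _ := by rw [Finset.sum_const, card_range, nsmul_eq_mul]
    have a5 : ∑ o ∈ Ico (gs + W1 + O) N1, HR k o ≤ (r + 1 : ℕ) * (q * ((g : ℝ) + d) * L + c3) := by
      calc ∑ o ∈ Ico (gs + W1 + O) N1, HR k o ≤ ∑ o ∈ Ico (gs + W1 + O) N1, (q * ((g : ℝ) + d) * L + c3) := by
            refine Finset.sum_le_sum fun o ho => h2 k hk o ?_
            have := Finset.mem_Ico.1 ho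
            omega
        _ = ((N1 - (gs + W1 + O) : ℕ) : ℝ) * (q * ((g : ℝ) + d) * L + c3) := by
            rw [Finset.sum_const, Nat.card_Ico, nsmul_eq_mul]
        _ ≤ _ := by
            refine mul_le_mul_of_nonneg_right ?_ hB
            have : N1 - (gs + W1 + O) ≤ r + 1 := by omega
            exact_mod_cast this
    rw [Finset.sum_sub_distrib, Finset.sum_const, card_range, nsmul_eq_mul] at a1
    have a6 : (O : ℝ) * c3 ≤ W * c3 := by
      refine mul_le_mul_of_nonneg_right ?_ hc3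
      have : O ≤ W := by omega
      exact_mod_cast this
    push_cast at a4 a5
    rw [a2, a3]
    nlinarith
  calc ∑ k ∈ range N, ∑ o ∈ range N1, HR k o - N * ((gs + W1 + r + 1) * (q * ((g : ℝ) + d) * L + c3) + W * c3)
      = ∑ k ∈ range N, (∑ o ∈ range N1, HR k o -
          ((gs + W1 + r + 1) * (q * ((g : ℝ) + d) * L + c3) + W * c3)) := by
        rw [Finset.sum_sub_distrib, Finset.sum_const, card_range, nsmul_eq_mul]
    _ ≤ _ := Finset.sum_le_sum fun k hk => key k (Finset.mem_range.1 hk)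

end Pool.Agent.Helper70.SK
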