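import Pool.Agent.Helper70.SK.FinB

/-! Sticky Kakeya sets, FIN: the final inequality. -/

namespace Pool.Agent.Helper70.SK

open Finset Pool.Agent.Helper70.DK

/-- step D: upper and lower bound of the average increment -/
theorem fin_stepD (h : ℕ → ℕ → ℝ) (V : ℕ → ℝ) (hr af Js : ℕ → ℕ → ℝ) (N W D1 gs W1 r O : ℕ)
    (τ q L e ε δ c6 ν1 δ2 E X0 : ℝ) (hN : 0 < N) (hL : 0 < L) (hD1 : 0 < D1) (hW1 : 0 < W1) (hq : 0 < q)
    (hqe : e < q) (hδ : 0 < δ) (hO : O = W - (gs + (W1 + D1) + r)) (hO0 : 0 < O)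
    (H : ∀ o j, o + j + 1 ≤ W →
      |(∑ k ∈ range N, (h (k + o) (k + o + j + 1) - h (k + o) (k + o + j))) / (N : ℝ) - V j| ≤ τ)
    (hVm : Monotone V) (hVg : ∀ j, V j ≤ V gs + δ2) (hVE : ∀ j, V j ≤ E)
    (hX : N * X0 ≤ ∑ k ∈ range N, ∑ o ∈ range O, hr k o)
    (hD : ∀ k < N, ∀ o, o + gs + (W1 + D1) + r ≤ W →
      (e - ε + (q - e) * ((hr k o - c6) / (q * D1 * L) - af k o / δ)) * (W1 * L) ≤
        h (k + o) (k + o + gs + W1) - h (k + o) (k + o + gs))
    (haf : ∀ k < N, ∀ o, o + gs + (W1 + D1) + r ≤ W → af k o ≤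
      ((h k (k + o + gs + (W1 + D1)) - h k (k + o + gs)) -
        (h (k + o) (k + o + gs + (W1 + D1)) - h (k + o) (k + o + gs))) +
      (Js k (o + (W1 + D1)) - Js k o) + ν1)
    (hJ0 : ∀ k < N, ∀ i, 0 ≤ Js k i) (hJ1 : ∀ k < N, ∀ i, i + gs ≤ W → Js k i ≤ q * ((W : ℝ) - i - gs) * L) :
    (e - ε) * L + (q - e) * L * (X0 / (O * (q * D1 * L)) - c6 / (q * D1 * L) -
      ((W1 + D1) * (δ2 + 2 * τ) + (W1 + D1) * (q * (W1 + D1 + r) * L) / O + ν1) / δ) ≤ E + τ := by
  have hN' : (0 : ℝ) < N := by exact_mod_cast hN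
  have hO' : (0 : ℝ) < O := by exact_mod_cast hO0
  have hD1' : (0 : ℝ) < D1 := by exact_mod_cast hD1
  have hW1' : (0 : ℝ) < W1 := by exact_mod_cast hW1
  obtain ⟨Dq, hDq⟩ : ∃ Dq : ℝ, Dq = q * D1 * L := ⟨_, rfl⟩
  have hDq0 : 0 < Dq := by rw [hDq]; positivity
  rw [← hDq] at hD ⊢
  -- upper bound
  have up : ∑ k ∈ range N, ∑ o ∈ range O, (h (k + o) (k + o + gs + W1) - h (k + o) (k + o + gs)) ≤
      O * (N * (W1 * (E + τ))) := by
    rw [Finset.sum_comm]
    calc ∑ o ∈ range O, ∑ k ∈ range N, (h (k + o) (k + o + gs + W1) - h (k + o) (k + o + gs))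
        ≤ ∑ o ∈ range O, N * (W1 * (E + τ)) := by
          refine Finset.sum_le_sum fun o ho => ?_
          have ho' := Finset.mem_range.1 ho
          have a1 := fin_S h V N W τ hN H o gs (gs + W1) (by omega) (by omega)
          have b1 := (abs_le.1 a1).2
          have e3 : gs + W1 - gs = W1 := by omega
          rw [e3] at b1
          have b2 : ∑ j ∈ Ico gs (gs + W1), V j ≤ W1 * E := by
            calc ∑ j ∈ Ico gs (gs + W1), V j ≤ ∑ j ∈ Ico gs (gs + W1), E :=
                  Finset.sum_le_sum fun j _ => hVE j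
              _ = W1 * E := by rw [Finset.sum_const, Nat.card_Ico, nsmul_eq_mul, e3]
          have b3 : (N : ℝ) * ∑ j ∈ Ico gs (gs + W1), V j ≤ N * (W1 * E) :=
            mul_le_mul_of_nonneg_left b2 hN'.le
          have c1 : ∑ k ∈ range N, (h (k + o) (k + o + gs + W1) - h (k + o) (k + o + gs)) =
              ∑ k ∈ range N, (h (k + o) (k + o + (gs + W1)) - h (k + o) (k + o + gs)) := by
            refine Finset.sum_congr rfl fun k _ => ?_
            rw [show k + o + gs + W1 = k + o + (gs + W1) by ring]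
          rw [c1]
          nlinarith
      _ = _ := by rw [Finset.sum_const, card_range, nsmul_eq_mul]
  -- average of af
  have hafs : ∑ k ∈ range N, ∑ o ∈ range O, af k o ≤
      N * (O * ((W1 + D1) * (δ2 + 2 * τ)) + (W1 + D1) * (q * (W1 + D1 + r) * L) + O * ν1) := by
    have a0 : ∑ k ∈ range N, ∑ o ∈ range O, af k o ≤ ∑ k ∈ range N, ∑ o ∈ range O,
        (((h k (k + o + gs + (W1 + D1)) - h k (k + o + gs)) -
        (h (k + o) (k + o + gs + (W1 + D1)) - h (k + o) (k + o + gs))) +
        (Js k (o + (W1 + D1)) - Js k o) + ν1) := by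
      refine Finset.sum_le_sum fun k hk => Finset.sum_le_sum fun o ho => haf k (Finset.mem_range.1 hk) o ?_
      have ho' := Finset.mem_range.1 ho
      omega
    have a1 : ∑ k ∈ range N, ∑ o ∈ range O, ((h k (k + o + gs + (W1 + D1)) - h k (k + o + gs)) -
        (h (k + o) (k + o + gs + (W1 + D1)) - h (k + o) (k + o + gs))) ≤
        O * (N * ((W1 + D1) * (δ2 + 2 * τ))) := by
      rw [Finset.sum_comm]
      calc ∑ o ∈ range O, ∑ k ∈ range N, ((h k (k + o + gs + (W1 + D1)) - h k (k + o + gs)) -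
          (h (k + o) (k + o + gs + (W1 + D1)) - h (k + o) (k + o + gs)))
          ≤ ∑ o ∈ range O, N * ((W1 + D1) * (δ2 + 2 * τ)) := by
            refine Finset.sum_le_sum fun o ho => ?_
            have ho' := Finset.mem_range.1 ho
            have a1 := fin_S h V N W τ hN H 0 (o + gs) (o + gs + (W1 + D1)) (by omega) (by omega)
            have a2 := fin_S h V N W τ hN H o gs (gs + (W1 + D1)) (by omega) (by omega)
            have b1 := (abs_le.1 a1).2
            have b2 := (abs_le.1 a2).1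
            have e3 : o + gs + (W1 + D1) - (o + gs) = W1 + D1 := by omega
            have e4 : gs + (W1 + D1) - gs = W1 + D1 := by omega
            rw [e3] at b1
            rw [e4] at b2
            have b3 := fin_P V δ2 gs o gs (gs + (W1 + D1)) hVm hVg (le_refl _)
            rw [e4] at b3
            rw [Finset.sum_sub_distrib]
            have c1 : ∑ k ∈ range N, (h k (k + o + gs + (W1 + D1)) - h k (k + o + gs)) =
                ∑ k ∈ range N, (h (k + 0) (k + 0 + (o + gs + (W1 + D1))) - h (k + 0) (k + 0 + (o + gs))) := by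
              refine Finset.sum_congr rfl fun k _ => ?_
              rw [Nat.add_zero]
              congr 2 <;> ring
            have c2 : ∑ k ∈ range N, (h (k + o) (k + o + gs + (W1 + D1)) - h (k + o) (k + o + gs)) =
                ∑ k ∈ range N, (h (k + o) (k + o + (gs + (W1 + D1))) - h (k + o) (k + o + gs)) := by
              refine Finset.sum_congr rfl fun k _ => ?_
              rw [show k + o + gs + (W1 + D1) = k + o + (gs + (W1 + D1)) by ring]
            rw [c1, c2]
            have c3 : o + gs + (W1 + D1) = o + (gs + (W1 + D1)) := by ring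
            rw [← c3] at b3
            push_cast at b1 b2 b3
            have c4 : (N : ℝ) * (∑ j ∈ Ico (o + gs) (o + gs + (W1 + D1)), V j -
                ∑ j ∈ Ico gs (gs + (W1 + D1)), V j) ≤ N * ((W1 + D1) * δ2) :=
              mul_le_mul_of_nonneg_left b3 hN'.le
            nlinarith
        _ = _ := by rw [Finset.sum_const, card_range, nsmul_eq_mul]
    have a2 : ∀ k < N, ∑ o ∈ range O, (Js k (o + (W1 + D1)) - Js k o) ≤
        (W1 + D1) * (q * (W1 + D1 + r) * L) := by
      intro k hk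
      rw [fin_tel (Js k) O (W1 + D1)]
      have b1 : 0 ≤ ∑ i ∈ range (W1 + D1), Js k i := Finset.sum_nonneg fun i _ => hJ0 k hk i
      have b2 : ∑ i ∈ range (W1 + D1), Js k (O + i) ≤ (W1 + D1) * (q * (W1 + D1 + r) * L) := by
        calc ∑ i ∈ range (W1 + D1), Js k (O + i) ≤ ∑ i ∈ range (W1 + D1), (q * (W1 + D1 + r) * L) := by
              refine Finset.sum_le_sum fun i hi => ?_
              have hi' := Finset.mem_range.1 hi
              have h2 := hJ1 k hk (O + i) (by omega)
              have h3 : (W : ℝ) - ((O + i : ℕ) : ℝ) - gs ≤ W1 + D1 + r := by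
                have : (W : ℝ) ≤ ((O + i : ℕ) : ℝ) + gs + W1 + D1 + r := by
                  have : W ≤ O + i + gs + W1 + D1 + r := by omega
                  exact_mod_cast this
                linarith
              have h4 : q * ((W : ℝ) - ((O + i : ℕ) : ℝ) - gs) * L ≤ q * (W1 + D1 + r) * L :=
                mul_le_mul_of_nonneg_right (mul_le_mul_of_nonneg_left h3 hq.le) hL.le
              linarith
          _ = _ := by rw [Finset.sum_const, card_range, nsmul_eq_mul]; push_cast; ring
      linarith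
    have a3 : ∑ k ∈ range N, ∑ o ∈ range O, (Js k (o + (W1 + D1)) - Js k o) ≤
        N * ((W1 + D1) * (q * (W1 + D1 + r) * L)) := by
      calc _ ≤ ∑ k ∈ range N, ((W1 + D1) * (q * (W1 + D1 + r) * L)) :=
            Finset.sum_le_sum fun k hk => a2 k (Finset.mem_range.1 hk)
        _ = _ := by rw [Finset.sum_const, card_range, nsmul_eq_mul]
    have a4 : ∑ k ∈ range N, ∑ o ∈ range O,
        (((h k (k + o + gs + (W1 + D1)) - h k (k + o + gs)) -
        (h (k + o) (k + o + gs + (W1 + D1)) - h (k + o) (k + o + gs))) +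
        (Js k (o + (W1 + D1)) - Js k o) + ν1) =
        ∑ k ∈ range N, ∑ o ∈ range O, ((h k (k + o + gs + (W1 + D1)) - h k (k + o + gs)) -
        (h (k + o) (k + o + gs + (W1 + D1)) - h (k + o) (k + o + gs))) +
        ∑ k ∈ range N, ∑ o ∈ range O, (Js k (o + (W1 + D1)) - Js k o) + N * (O * ν1) := by
      simp only [Finset.sum_add_distrib, Finset.sum_const, card_range, nsmul_eq_mul]
    rw [a4] at a0
    nlinarith
  -- lower bound
  have lo : (e - ε) * (W1 * L) * (N * O) + (q - e) * (W1 * L) *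
      ((∑ k ∈ range N, ∑ o ∈ range O, hr k o - N * O * c6) / Dq -
        (∑ k ∈ range N, ∑ o ∈ range O, af k o) / δ) ≤
      ∑ k ∈ range N, ∑ o ∈ range O, (h (k + o) (k + o + gs + W1) - h (k + o) (k + o + gs)) := by
    have a0 : ∑ k ∈ range N, ∑ o ∈ range O,
        ((e - ε + (q - e) * ((hr k o - c6) / Dq - af k o / δ)) * (W1 * L)) ≤
        ∑ k ∈ range N, ∑ o ∈ range O, (h (k + o) (k + o + gs + W1) - h (k + o) (k + o + gs)) := by
      refine Finset.sum_le_sum fun k hk => Finset.sum_le_sum fun o ho => hD k (Finset.mem_range.1 hk) o ?_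
      have ho' := Finset.mem_range.1 ho
      omega
    refine le_trans (le_of_eq ?_) a0
    have a1 : ∀ k o, (e - ε + (q - e) * ((hr k o - c6) / Dq - af k o / δ)) * (W1 * L) =
        ((e - ε) * (W1 * L) - (q - e) * (W1 * L) * (c6 / Dq)) + (q - e) * (W1 * L) / Dq * hr k o -
        (q - e) * (W1 * L) / δ * af k o := by
      intro k o
      field_simp
      ring
    simp only [a1, Finset.sum_add_distrib, Finset.sum_sub_distrib, Finset.sum_const, card_range, nsmul_eq_mul,
      ← Finset.mul_sum]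
    field_simp
    ring
  -- conclusion
  have hqe' : 0 < q - e := by linarith
  have fin1 : (e - ε) * (W1 * L) * (N * O) + (q - e) * (W1 * L) *
      ((N * X0 - N * O * c6) / Dq -
        (N * (O * ((W1 + D1) * (δ2 + 2 * τ)) + (W1 + D1) * (q * (W1 + D1 + r) * L) + O * ν1)) / δ) ≤
      O * (N * (W1 * (E + τ))) := by
    refine le_trans ?_ (lo.trans up)
    have h1 : (N * X0 - N * O * c6) / Dq ≤ (∑ k ∈ range N, ∑ o ∈ range O, hr k o - N * O * c6) / Dq :=
      div_le_div_of_nonneg_right (by linarith) hDq0.le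
    have h2 := div_le_div_of_nonneg_right hafs hδ.le
    have h3 : 0 ≤ (q - e) * (W1 * L) := by positivity
    have h4 := mul_le_mul_of_nonneg_left (sub_le_sub h1 h2) h3
    linarith
  have fin2 : (N * O * W1 : ℝ) * ((e - ε) * L + (q - e) * L * (X0 / (O * Dq) - c6 / Dq -
      ((W1 + D1) * (δ2 + 2 * τ) + (W1 + D1) * (q * (W1 + D1 + r) * L) / O + ν1) / δ)) ≤
      (N * O * W1 : ℝ) * (E + τ) := by
    refine le_trans (le_of_eq ?_) (fin1.trans (le_of_eq ?_))
    · field_simp
    · ring
  have hpos : (0 : ℝ) < N * O * W1 := by positivity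
  exact le_of_mul_le_mul_left fin2 hpos

end Pool.Agent.Helper70.SK
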