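import Pool.Agent.Helper70.SK.MKD

/-! GEN: general bounded sets of slopes and heights; countable covers. -/

namespace Pool.Agent.Helper70.SK

open Finset Pool.Agent.Helper70.DK MeasureTheory

theorem gen_sticky {m b M : ℕ} {R : ℝ} {D : Set (Fin m → ℝ)} {a : (Fin m → ℝ) → Fin m → ℝ} (hb : 2 ≤ b)
    (hst : StickyOn b R D a) (v : Fin m → ℤ) (k : ℤ) (hk : |k| ≤ M) :
    StickyOn b (R + M) {x : Fin m → ℝ | x ∈ cube m ∧ (fun c => x c + (v c : ℝ)) ∈ D}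
      (fun x c => a (fun c => x c + (v c : ℝ)) c + k * (x c + v c)) := by
  have hb0 : (0 : ℝ) < b := by
    have : 0 < b := by omega
    exact_mod_cast this
  intro j x hx x' hx' hfl c
  have hbj : (0 : ℝ) < (b : ℝ) ^ j := by positivity
  have hfl' : ∀ c, ⌊(b : ℝ) ^ j * (x c + (v c : ℝ))⌋ = ⌊(b : ℝ) ^ j * (x' c + (v c : ℝ))⌋ := by
    intro c
    have e : ∀ y : ℝ, ⌊(b : ℝ) ^ j * (y + (v c : ℝ))⌋ = ⌊(b : ℝ) ^ j * y⌋ + (b : ℤ) ^ j * v c := by
      intro y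
      rw [← Int.floor_add_intCast]
      congr 1
      push_cast
      ring
    rw [e, e, hfl c]
  have h1 := hst j _ hx.2 _ hx'.2 hfl' c
  have h2 : |x c - x' c| * (b : ℝ) ^ j ≤ 1 := by
    have h3 := Int.abs_sub_lt_one_of_floor_eq_floor (hfl c)
    rw [← mul_sub, abs_mul, abs_of_pos hbj] at h3
    linarith
  have hk' : |(k : ℝ)| ≤ M := by exact_mod_cast hk
  have h4 : |(a (fun c => x c + (v c : ℝ)) c + k * (x c + v c)) -
      (a (fun c => x' c + (v c : ℝ)) c + k * (x' c + v c))| ≤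
      |a (fun c => x c + (v c : ℝ)) c - a (fun c => x' c + (v c : ℝ)) c| + |(k : ℝ)| * |x c - x' c| := by
    rw [← abs_mul]
    refine le_trans (le_of_eq ?_) (abs_add_le _ _)
    congr 1
    ring
  calc _ ≤ (|a (fun c => x c + (v c : ℝ)) c - a (fun c => x' c + (v c : ℝ)) c| + |(k : ℝ)| * |x c - x' c|) *
        (b : ℝ) ^ j := mul_le_mul_of_nonneg_right h4 hbj.le
    _ = |a (fun c => x c + (v c : ℝ)) c - a (fun c => x' c + (v c : ℝ)) c| * (b : ℝ) ^ j +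
        |(k : ℝ)| * (|x c - x' c| * (b : ℝ) ^ j) := by ring
    _ ≤ R + M * 1 := by
        refine add_le_add h1 ?_
        exact mul_le_mul hk' h2 (by positivity) (by positivity)
    _ = R + M := by ring

theorem gen_pigeon {α ι : Type} [MeasurableSpace α] (μ : Measure α) (S : Set α) (lam : ℝ) (I : Finset ι)
    (hI : I.Nonempty) (S' : ι → Set α) (hS : S ⊆ ⋃ i ∈ I, S' i) (h : ENNReal.ofReal lam ≤ μ S) : ∃ i ∈ I, ENNReal.ofReal (lam / I.card) ≤ μ (S' i) := by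
  by_contra hne
  push Not at hne
  have h1 : μ S ≤ ∑ i ∈ I, μ (S' i) := (measure_mono hS).trans (measure_biUnion_finset_le _ _)
  have h2 := ENNReal.sum_lt_sum_of_nonempty hI hne
  have hc : (0 : ℝ) < I.card := by exact_mod_cast hI.card_pos
  rw [Finset.sum_const, nsmul_eq_mul, ← ENNReal.ofReal_natCast, ← ENNReal.ofReal_mul (by positivity),
    mul_div_cancel₀ _ hc.ne'] at h2
  exact absurd (lt_of_le_of_lt (h.trans h1) h2) (lt_irrefl _)

theorem st_GEN (hMKD : ST_MKD) (hSH : ST_SHEAR) : ST_GEN := by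
  intro m b M R lam ε hb hlam hε hEQ
  obtain ⟨K, hK, HS⟩ := hSH m M
  obtain ⟨I, hI⟩ : ∃ I : Finset ((Fin m → ℤ) × ℤ), I = (Fintype.piFinset (fun _ : Fin m =>
      Finset.Icc (-(M : ℤ)) M)) ×ˢ Finset.Icc (-(M : ℤ)) M := ⟨_, rfl⟩
  have hIne : I.Nonempty := by
    refine ⟨(0, 0), ?_⟩
    rw [hI, Finset.mem_product, Fintype.mem_piFinset]
    refine ⟨fun c => ?_, ?_⟩ <;> · rw [Finset.mem_Icc]; simp
  have hIc : (0 : ℝ) < I.card := by exact_mod_cast hIne.card_pos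
  obtain ⟨c, hc, H⟩ := hMKD m b (R + M) (lam / I.card) ε hb (by positivity) hε hEQ
  have hK0 : 0 < K := by linarith
  refine ⟨c * (K ^ ε)⁻¹, by positivity, ?_⟩
  intro D a hst S hS hvol E hE δ hδ0 hδ1
  obtain ⟨⟨v, k⟩, hvk, hvol'⟩ := gen_pigeon volume S lam I hIne
    (fun i => {p : (Fin m → ℝ) × ℝ | p ∈ S ∧ (∀ c, ⌊p.1 c⌋ = i.1 c) ∧ ⌊p.2⌋ = i.2}) (by
      intro p hp
      rw [Set.mem_iUnion₂]
      refine ⟨((fun c => ⌊p.1 c⌋), ⌊p.2⌋), ?_, hp, fun _ => rfl, rfl⟩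
      have hfl : ∀ y : ℝ, |y| ≤ M → ⌊y⌋ ∈ Finset.Icc (-(M : ℤ)) M := by
        intro y hy
        rw [abs_le] at hy
        rw [Finset.mem_Icc]
        constructor
        · rw [Int.le_floor]; push_cast; exact hy.1
        · have := (Int.floor_le y).trans hy.2
          exact_mod_cast this
      rw [hI, Finset.mem_product, Fintype.mem_piFinset]
      exact ⟨fun c => hfl _ ((hS p hp).2.1 c), hfl _ (hS p hp).2.2⟩) hvol
  rw [hI, Finset.mem_product, Fintype.mem_piFinset] at hvk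
  have hv : ∀ c, |v c| ≤ M := by
    intro c
    have := Finset.mem_Icc.1 (hvk.1 c)
    rw [abs_le]
    exact this
  have hk : |k| ≤ M := by
    have := Finset.mem_Icc.1 hvk.2
    rw [abs_le]
    exact this
  have hinv : (volume : Measure ((Fin m → ℝ) × ℝ)).IsAddRightInvariant := by
    rw [Measure.volume_eq_prod]
    have : ((volume : Measure (Fin m → ℝ)).prod (volume : Measure ℝ)).IsAddLeftInvariant := inferInstance
    infer_instance
  have htr := measure_preimage_add_right (volume : Measure ((Fin m → ℝ) × ℝ))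
    ((fun c => (v c : ℝ)), (k : ℝ)) {p : (Fin m → ℝ) × ℝ | p ∈ S ∧ (∀ c, ⌊p.1 c⌋ = v c) ∧ ⌊p.2⌋ = k}
  have hvol2 : ENNReal.ofReal (lam / I.card) ≤ volume ((fun h : (Fin m → ℝ) × ℝ =>
      h + ((fun c => (v c : ℝ)), (k : ℝ))) ⁻¹'
      {p : (Fin m → ℝ) × ℝ | p ∈ S ∧ (∀ c, ⌊p.1 c⌋ = v c) ∧ ⌊p.2⌋ = k}) := by
    rw [htr]
    exact hvol'
  have key := H {x : Fin m → ℝ | x ∈ cube m ∧ (fun c => x c + (v c : ℝ)) ∈ D}
    (fun x c => a (fun c => x c + (v c : ℝ)) c + k * (x c + v c)) (fun x hx => hx.1)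
    (gen_sticky hb hst v k hk) _ ?_ hvol2
    {p : EuclideanSpace ℝ (Fin (m + 1)) |
        pt (fun c => p c.castSucc + p (Fin.last m) * v c) (p (Fin.last m) + k) ∈ E} ?_
    (δ / K) (by positivity) (by rw [div_lt_one hK0]; linarith)
  · refine le_trans (le_of_eq ?_) (key.trans (HS v k hv hk E δ hδ0))
    congr 1
    rw [Real.div_rpow hδ0.le hK0.le]
    field_simp
  · intro p hp
    obtain ⟨hp1, hp2, hp3⟩ := hp
    have hfrac : ∀ (y : ℝ) (n : ℤ), ⌊y + (n : ℝ)⌋ = n → 0 ≤ y ∧ y < 1 := by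
      intro y n h
      rw [Int.floor_add_intCast] at h
      have h0 : ⌊y⌋ = 0 := by omega
      rw [Int.floor_eq_iff] at h0
      push_cast at h0
      constructor <;> linarith [h0.1, h0.2]
    refine ⟨⟨fun c => hfrac _ _ (hp2 c), (hS _ hp1).1⟩, ?_⟩
    have := hfrac _ _ hp3
    exact ⟨this.1, this.2.le⟩
  · intro p hp
    have h1 := hE _ hp.1
    show pt (fun c => _ + _) _ ∈ E
    refine (congrArg (fun z => z ∈ E) ?_).mp h1
    have e1 : ∀ (y : Fin m → ℝ) (t : ℝ) (c : Fin m),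
        (pt y t : EuclideanSpace ℝ (Fin (m + 1))) c.castSucc = y c := by
      intro y t c
      simp [pt]
    have e2 : ∀ (y : Fin m → ℝ) (t : ℝ),
        (pt y t : EuclideanSpace ℝ (Fin (m + 1))) (Fin.last m) = t := by
      intro y t
      simp [pt]
    simp only [e1, e2]
    congr 1
    funext c
    show a (p.1 + fun c => (v c : ℝ)) c + (p.2 + (k : ℝ)) * (p.1 c + (v c : ℝ)) = _
    have e3 : (p.1 + fun c => (v c : ℝ)) = (fun c => p.1 c + (v c : ℝ)) := rfl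
    rw [e3]
    ring

theorem st_COVR (hGEN : ST_GEN) : ST_COVR := by
  intro m b R hb hEQ D a hst S hS hvol E hE
  have hsub : S ⊆ ⋃ n : ℕ × ℕ, {p : (Fin m → ℝ) × ℝ | p ∈ S ∧ (∀ c, |p.1 c| ≤ (n.1 : ℝ)) ∧ |p.2| ≤ (n.1 : ℝ) ∧
      pt (fun c => a p.1 c + p.2 * p.1 c) p.2 ∈ E n.2} := by
    intro p hp
    obtain ⟨i, hi⟩ := Set.mem_iUnion.1 (hE p hp)
    obtain ⟨M, hM⟩ := exists_nat_ge ((∑ c, |p.1 c|) + |p.2|)
    rw [Set.mem_iUnion]
    refine ⟨(M, i), hp, fun c => ?_, ?_, hi⟩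
    · have h1 : |p.1 c| ≤ ∑ c, |p.1 c| :=
        Finset.single_le_sum (f := fun c => |p.1 c|) (fun _ _ => abs_nonneg _) (Finset.mem_univ c)
      have h2 := abs_nonneg p.2
      show |p.1 c| ≤ (M : ℝ)
      linarith
    · have h1 : 0 ≤ ∑ c, |p.1 c| := Finset.sum_nonneg fun _ _ => abs_nonneg _
      show |p.2| ≤ (M : ℝ)
      linarith
  obtain ⟨⟨M, i⟩, hn⟩ : ∃ n : ℕ × ℕ, volume {p : (Fin m → ℝ) × ℝ | p ∈ S ∧ (∀ c, |p.1 c| ≤ (n.1 : ℝ)) ∧
      |p.2| ≤ (n.1 : ℝ) ∧ pt (fun c => a p.1 c + p.2 * p.1 c) p.2 ∈ E n.2} ≠ 0 := by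
    by_contra hne
    push Not at hne
    exact hvol (measure_mono_null hsub (measure_iUnion_null hne))
  obtain ⟨lam, hlam, hle⟩ : ∃ lam : ℝ, 0 < lam ∧ ENNReal.ofReal lam ≤
      volume {p : (Fin m → ℝ) × ℝ | p ∈ S ∧ (∀ c, |p.1 c| ≤ (M : ℝ)) ∧
      |p.2| ≤ (M : ℝ) ∧ pt (fun c => a p.1 c + p.2 * p.1 c) p.2 ∈ E i} := by
    obtain ⟨q, hq0, hq1⟩ := ENNReal.lt_iff_exists_real_btwn.1 (pos_iff_ne_zero.2 hn)
    exact ⟨q, ENNReal.ofReal_pos.1 hq1.1, hq1.2.le⟩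
  refine ⟨i, fun ε hε => ?_⟩
  obtain ⟨c, hc, H⟩ := hGEN m b M R lam ε hb hlam hε hEQ
  exact ⟨c, hc, H D a hst _ (fun p hp => ⟨hS p hp.1, hp.2.1, hp.2.2.1⟩) hle (E i) (fun p hp => hp.2.2.2)⟩

end Pool.Agent.Helper70.SK
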