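import Pool.Agent.Helper70.SK.Main
import Pool.Agent.Helper70.SK.GEN
import Pool.Agent.Helper91.SK.EXT
import Pool.Agent.Helper63.SK.SHEAR
import Pool.Agent.Helper78.SK.ENTP

/-! Sticky Kakeya sets, Minkowski dimension: the final statements. -/

namespace Pool.Agent.Helper70.SK

open Finset Pool.Agent.Helper70.DK MeasureTheory

theorem fin_GEN (h : ST_MKR) : ST_GEN := st_GEN (st_MKD h st_EXT) st_SHEAR

theorem fin_main (h : ST_MKR) (m b M : ℕ) (R lam ε : ℝ) (hb : 2 ≤ b) (hlam : 0 < lam) (hε : 0 < ε) :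
    ∃ c : ℝ, 0 < c ∧ ∀ (D : Set (Fin m → ℝ)) (a : (Fin m → ℝ) → Fin m → ℝ), StickyOn b R D a →
    ∀ S : Set ((Fin m → ℝ) × ℝ), (∀ p ∈ S, p.1 ∈ D ∧ (∀ c, |p.1 c| ≤ M) ∧ |p.2| ≤ M) →
    ENNReal.ofReal lam ≤ volume S →
    ∀ E : Set (EuclideanSpace ℝ (Fin (m + 1))), (∀ p ∈ S, pt (fun c => a p.1 c + p.2 * p.1 c) p.2 ∈ E) →
    ∀ δ : ℝ, 0 < δ → δ < 1 → ENNReal.ofReal (c * δ ^ ε) ≤ volume (Metric.thickening δ E) :=
  fin_GEN h m b M R lam ε hb hlam hε (main_EQ m)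

end Pool.Agent.Helper70.SK
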