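import Pool.Agent.Helper70.SK.Final
import Pool.Agent.Helper70.SK.CNT2
import Pool.Agent.Helper5.SK.OCC
import Pool.Agent.Helper83.SK.MKR
import Pool.Agent.Helper83.SK.VOLR

/-! Sticky Kakeya sets, Minkowski dimension: the final statement for maps sticky with respect to a base. -/

namespace Pool.Agent.Helper70.SK

open Finset Pool.Agent.Helper70.DK MeasureTheory

theorem fin_MKR : ST_MKR := st_MKR st_VOLR st_ENTP (st_CNT2 st_OCC)

theorem fin_MKD : ST_MKD := st_MKD fin_MKR st_EXT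

theorem fin_sticky (m b M : ℕ) (R lam ε : ℝ) (hb : 2 ≤ b) (hlam : 0 < lam) (hε : 0 < ε) :
    ∃ c : ℝ, 0 < c ∧ ∀ (D : Set (Fin m → ℝ)) (a : (Fin m → ℝ) → Fin m → ℝ), StickyOn b R D a →
    ∀ S : Set ((Fin m → ℝ) × ℝ), (∀ p ∈ S, p.1 ∈ D ∧ (∀ c, |p.1 c| ≤ M) ∧ |p.2| ≤ M) →
    ENNReal.ofReal lam ≤ volume S →
    ∀ E : Set (EuclideanSpace ℝ (Fin (m + 1))), (∀ p ∈ S, pt (fun c => a p.1 c + p.2 * p.1 c) p.2 ∈ E) →
    ∀ δ : ℝ, 0 < δ → δ < 1 → ENNReal.ofReal (c * δ ^ ε) ≤ volume (Metric.thickening δ E) :=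
  fin_main fin_MKR m b M R lam ε hb hlam hε

end Pool.Agent.Helper70.SK
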