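import Pool.Agent.Helper70.SK.Stmts3
import Pool.Agent.Helper70.SK.GEN

/-! GL: bounded slopes and heights. -/

namespace Pool.Agent.Helper70.SK

open Finset Pool.Agent.Helper70.DK MeasureTheory

theorem gl_content {m M : ℕ} {C : ℝ} {L : Set ((Fin m → ℝ) × (Fin m → ℝ))} (hL : Content m C L)
    (v : Fin m → ℤ) (k : ℤ) (hk : |k| ≤ M) :
    Content m (C * (2 * M + 1) ^ m)
      {q : (Fin m → ℝ) × (Fin m → ℝ) | ((fun c => q.1 c + (v c : ℝ)), (fun c => q.2 c - k * (q.1 c + v c))) ∈ L} := by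
  classical
  intro j
  obtain ⟨F, hF1, hF2⟩ := hL j
  refine ⟨(F ×ˢ Fintype.piFinset (fun _ : Fin m => Finset.Icc (-(M : ℤ)) M)).image
    (fun z => ((fun c => z.1.1 c - 2 ^ j * v c), (fun c => z.1.2 c + k * z.1.1 c + z.2 c))), ?_, ?_⟩
  · have h1 : ((F ×ˢ Fintype.piFinset (fun _ : Fin m => Finset.Icc (-(M : ℤ)) M)).card : ℝ) =
        F.card * (2 * M + 1) ^ m := by
      rw [Finset.card_product, Fintype.card_piFinset]
      push_cast
      congr 1
      rw [Finset.prod_const, Finset.card_univ, Fintype.card_fin, Int.card_Icc]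
      congr 1
      have : ((M : ℤ) + 1 - -(M : ℤ)).toNat = 2 * M + 1 := by omega
      rw [this]
      push_cast
      ring
    calc _ ≤ ((F ×ˢ Fintype.piFinset (fun _ : Fin m => Finset.Icc (-(M : ℤ)) M)).card : ℝ) := by
          exact_mod_cast Finset.card_image_le
      _ = F.card * (2 * M + 1) ^ m := h1
      _ ≤ (C * 2 ^ (m * j)) * (2 * M + 1) ^ m := mul_le_mul_of_nonneg_right hF1 (by positivity)
      _ = C * (2 * M + 1) ^ m * 2 ^ (m * j) := by ring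
  · intro q hq
    have h1 := hF2 _ hq
    simp only at h1
    set χ : Fin m → ℤ := fun c => ⌊(2 : ℝ) ^ j * (q.1 c + (v c : ℝ))⌋ with hχ
    set α : Fin m → ℤ := fun c => ⌊(2 : ℝ) ^ j * (q.2 c - k * (q.1 c + v c))⌋ with hα
    rw [Finset.mem_image]
    refine ⟨((χ, α), fun c => ⌊(2 : ℝ) ^ j * q.2 c⌋ - α c - k * χ c), ?_, ?_⟩
    · rw [Finset.mem_product]
      refine ⟨h1, ?_⟩
      rw [Fintype.mem_piFinset]
      intro c
      rw [Finset.mem_Icc]
      have a1 := Int.floor_le ((2 : ℝ) ^ j * (q.1 c + (v c : ℝ)))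
      have a2 := Int.lt_floor_add_one ((2 : ℝ) ^ j * (q.1 c + (v c : ℝ)))
      have b1 := Int.floor_le ((2 : ℝ) ^ j * (q.2 c - k * (q.1 c + v c)))
      have b2 := Int.lt_floor_add_one ((2 : ℝ) ^ j * (q.2 c - k * (q.1 c + v c)))
      have c1 := Int.floor_le ((2 : ℝ) ^ j * q.2 c)
      have c2 := Int.lt_floor_add_one ((2 : ℝ) ^ j * q.2 c)
      have hk1 : |(k : ℝ)| ≤ M := by exact_mod_cast hk
      have e1 : (2 : ℝ) ^ j * q.2 c = (2 : ℝ) ^ j * (q.2 c - k * (q.1 c + v c)) +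
        k * ((2 : ℝ) ^ j * (q.1 c + (v c : ℝ))) := by ring
      have hd : |(k : ℝ) * ((2 : ℝ) ^ j * (q.1 c + (v c : ℝ)) - (χ c : ℝ))| ≤ M := by
        rw [abs_mul]
        have h3 : |(2 : ℝ) ^ j * (q.1 c + (v c : ℝ)) - (χ c : ℝ)| ≤ 1 := by
          rw [abs_le]
          constructor <;> linarith
        calc _ ≤ (M : ℝ) * 1 := mul_le_mul hk1 h3 (abs_nonneg _) (Nat.cast_nonneg M)
          _ = M := mul_one _
      rw [abs_le] at hd
      have hd1 : (k : ℝ) * ((2 : ℝ) ^ j * (q.1 c + (v c : ℝ))) - k * (χ c : ℝ) ≥ -M := by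
        have := hd.1
        rw [mul_sub] at this
        exact this
      have hd2 : (k : ℝ) * ((2 : ℝ) ^ j * (q.1 c + (v c : ℝ))) - k * (χ c : ℝ) ≤ M := by
        have := hd.2
        rw [mul_sub] at this
        exact this
      have hα' : (α c : ℝ) ≤ (2 : ℝ) ^ j * (q.2 c - k * (q.1 c + v c)) := b1
      have hα'' : (2 : ℝ) ^ j * (q.2 c - k * (q.1 c + v c)) < (α c : ℝ) + 1 := b2
      constructor
      · have h4 : (-(M : ℝ)) - 1 < (⌊(2 : ℝ) ^ j * q.2 c⌋ : ℝ) - α c - k * χ c := by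
          linarith
        have h5 : (-(M : ℤ)) - 1 < ⌊(2 : ℝ) ^ j * q.2 c⌋ - α c - k * χ c := by exact_mod_cast h4
        show -(M : ℤ) ≤ ⌊(2 : ℝ) ^ j * q.2 c⌋ - α c - k * χ c
        omega
      · have h4 : (⌊(2 : ℝ) ^ j * q.2 c⌋ : ℝ) - α c - k * χ c < (M : ℝ) + 1 := by
          linarith
        have h5 : ⌊(2 : ℝ) ^ j * q.2 c⌋ - α c - k * χ c < (M : ℤ) + 1 := by exact_mod_cast h4
        show ⌊(2 : ℝ) ^ j * q.2 c⌋ - α c - k * χ c ≤ (M : ℤ)
        omega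
    · refine Prod.ext ?_ ?_
      · funext c
        show χ c - 2 ^ j * v c = ⌊(2 : ℝ) ^ j * q.1 c⌋
        have h3 : (2 : ℝ) ^ j * (q.1 c + (v c : ℝ)) = (2 : ℝ) ^ j * q.1 c + ((2 ^ j * v c : ℤ) : ℝ) := by
          push_cast
          ring
        simp only [hχ]
        rw [h3, Int.floor_add_intCast]
        ring
      · funext c
        show α c + k * χ c + (⌊(2 : ℝ) ^ j * q.2 c⌋ - α c - k * χ c) = ⌊(2 : ℝ) ^ j * q.2 c⌋
        ring

theorem st_GL (hUC : ST_UC) (hSH : ST_SHEAR) : ST_GL := by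
  intro m M C lam ε hm hlam hε
  obtain ⟨K, hK, HS⟩ := hSH m M
  obtain ⟨I, hI⟩ : ∃ I : Finset ((Fin m → ℤ) × ℤ), I = (Fintype.piFinset (fun _ : Fin m =>
      Finset.Icc (-(M : ℤ)) M)) ×ˢ Finset.Icc (-(M : ℤ)) M := ⟨_, rfl⟩
  have hIne : I.Nonempty := by
    refine ⟨(0, 0), ?_⟩
    rw [hI, Finset.mem_product, Fintype.mem_piFinset]
    refine ⟨fun c => ?_, ?_⟩ <;> · rw [Finset.mem_Icc]; simp
  have hIc : (0 : ℝ) < I.card := by exact_mod_cast hIne.card_pos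
  obtain ⟨c, hc, H⟩ := hUC m (C * (2 * M + 1) ^ m) (lam / I.card) ε hm (by positivity) hε
  have hK0 : 0 < K := by linarith
  refine ⟨c * (K ^ ε)⁻¹, by positivity, ?_⟩
  intro L hL E hvol δ hδ0 hδ1
  obtain ⟨S, hS⟩ : ∃ S : Set ((Fin m → ℝ) × ℝ), S = {p : (Fin m → ℝ) × ℝ | (∀ c, |p.1 c| ≤ M) ∧ |p.2| ≤ M ∧
        ∃ a : Fin m → ℝ, (p.1, a) ∈ L ∧ pt (fun c => a c + p.2 * p.1 c) p.2 ∈ E} := ⟨_, rfl⟩
  rw [← hS] at hvol
  have hS' : ∀ p ∈ S, (∀ c, |p.1 c| ≤ M) ∧ |p.2| ≤ M ∧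
        ∃ a : Fin m → ℝ, (p.1, a) ∈ L ∧ pt (fun c => a c + p.2 * p.1 c) p.2 ∈ E := by
    intro p hp
    rw [hS] at hp
    exact hp
  obtain ⟨⟨v, k⟩, hvk, hvol'⟩ := gen_pigeon volume S lam I hIne
    (fun i => {p : (Fin m → ℝ) × ℝ | p ∈ S ∧ (∀ c, ⌊p.1 c⌋ = i.1 c) ∧ ⌊p.2⌋ = i.2}) (by
      intro p hp
      rw [Set.mem_iUnion₂]
      refine ⟨((fun c => ⌊p.1 c⌋), ⌊p.2⌋), ?_, hp, fun _ => rfl, rfl⟩
      have hfl : ∀ y : ℝ, |y| ≤ M → ⌊y⌋ ∈ Finset.Icc (-(M : ℤ)) M := by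
        intro y hy
        rw [abs_le] at hy
        rw [Finset.mem_Icc]
        constructor
        · rw [Int.le_floor]; push_cast; exact hy.1
        · have := (Int.floor_le y).trans hy.2
          exact_mod_cast this
      rw [hI, Finset.mem_product, Fintype.mem_piFinset]
      exact ⟨fun c => hfl _ ((hS' p hp).1 c), hfl _ (hS' p hp).2.1⟩) hvol
  rw [hI, Finset.mem_product, Fintype.mem_piFinset] at hvk
  have hv : ∀ c, |v c| ≤ M := by
    intro c
    have := Finset.mem_Icc.1 (hvk.1 c)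
    rw [abs_le]
    exact this
  have hk : |k| ≤ M := by
    have := Finset.mem_Icc.1 hvk.2
    rw [abs_le]
    exact this
  have hinv : (volume : Measure ((Fin m → ℝ) × ℝ)).IsAddRightInvariant := by
    rw [Measure.volume_eq_prod]
    have : ((volume : Measure (Fin m → ℝ)).prod (volume : Measure ℝ)).IsAddLeftInvariant := inferInstance
    infer_instance
  have htr := measure_preimage_add_right (volume : Measure ((Fin m → ℝ) × ℝ))
    ((fun c => (v c : ℝ)), (k : ℝ)) {p : (Fin m → ℝ) × ℝ | p ∈ S ∧ (∀ c, ⌊p.1 c⌋ = v c) ∧ ⌊p.2⌋ = k}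
  have hvol2 : ENNReal.ofReal (lam / I.card) ≤ volume ((fun h : (Fin m → ℝ) × ℝ =>
      h + ((fun c => (v c : ℝ)), (k : ℝ))) ⁻¹'
      {p : (Fin m → ℝ) × ℝ | p ∈ S ∧ (∀ c, ⌊p.1 c⌋ = v c) ∧ ⌊p.2⌋ = k}) := by
    rw [htr]
    exact hvol'
  have key := H {q : (Fin m → ℝ) × (Fin m → ℝ) |
      ((fun c => q.1 c + (v c : ℝ)), (fun c => q.2 c - k * (q.1 c + v c))) ∈ L} (gl_content hL v k hk)
    {p : EuclideanSpace ℝ (Fin (m + 1)) |
        pt (fun c => p c.castSucc + p (Fin.last m) * v c) (p (Fin.last m) + k) ∈ E}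
    (hvol2.trans (measure_mono ?_)) (δ / K) (by positivity) (by rw [div_lt_one hK0]; linarith)
  · refine le_trans (le_of_eq ?_) (key.trans (HS v k hv hk E δ hδ0))
    congr 1
    rw [Real.div_rpow hδ0.le hK0.le]
    field_simp
  · intro p hp
    obtain ⟨hp1, hp2, hp3⟩ := hp
    have hfrac : ∀ (y : ℝ) (n : ℤ), ⌊y + (n : ℝ)⌋ = n → 0 ≤ y ∧ y < 1 := by
      intro y n h
      rw [Int.floor_add_intCast] at h
      have h0 : ⌊y⌋ = 0 := by omega
      rw [Int.floor_eq_iff] at h0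
      push_cast at h0
      constructor <;> linarith [h0.1, h0.2]
    have h3 := hfrac _ _ hp3
    refine ⟨fun c => hfrac _ _ (hp2 c), ⟨h3.1, h3.2.le⟩, ?_⟩
    obtain ⟨-, -, a, ha1, ha2⟩ := hS' _ hp1
    refine ⟨fun c => a c + k * (p.1 c + v c), ?_, ?_⟩
    · show ((fun c => p.1 c + (v c : ℝ)), (fun c => a c + k * (p.1 c + v c) - k * (p.1 c + v c))) ∈ L
      have e1 : (fun c => a c + k * (p.1 c + v c) - k * (p.1 c + v c)) = a := by
        funext c
        ring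
      rw [e1]
      exact ha1
    · show pt (fun c => _ + _) _ ∈ E
      refine (congrArg (fun z => z ∈ E) ?_).mp ha2
      have e1 : ∀ (y : Fin m → ℝ) (t : ℝ) (c : Fin m),
          (pt y t : EuclideanSpace ℝ (Fin (m + 1))) c.castSucc = y c := by
        intro y t c
        simp [pt]
      have e2 : ∀ (y : Fin m → ℝ) (t : ℝ),
          (pt y t : EuclideanSpace ℝ (Fin (m + 1))) (Fin.last m) = t := by
        intro y t
        simp [pt]
      simp only [e1, e2]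
      congr 1
      funext c
      show a c + (p.2 + (k : ℝ)) * (p.1 c + (v c : ℝ)) = _
      ring

end Pool.Agent.Helper70.SK
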