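import Pool.Agent.Helper70.SK.Stmts3

/-! ONE: unit cube, one scale. -/

namespace Pool.Agent.Helper70.SK

open Finset Pool.Agent.Helper70.DK MeasureTheory

theorem one_dist {m : ℕ} (y y' : Fin m → ℝ) (t t' r : ℝ) (hr : 0 ≤ r) (h : ∀ c, |y c - y' c| ≤ r)
    (ht : |t - t'| ≤ r) :
    dist (pt y t : EuclideanSpace ℝ (Fin (m + 1))) (pt y' t') ≤ (m + 1) * r := by
  rw [EuclideanSpace.dist_eq]
  have hm : (0 : ℝ) ≤ m := Nat.cast_nonneg m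
  have h0 : 0 ≤ (m + 1 : ℝ) * r := by positivity
  refine Real.sqrt_le_iff.2 ⟨h0, ?_⟩
  rw [Fin.sum_univ_castSucc]
  have h1 : dist ((pt y t : EuclideanSpace ℝ (Fin (m + 1))).ofLp (Fin.last m))
      ((pt y' t' : EuclideanSpace ℝ (Fin (m + 1))).ofLp (Fin.last m)) ^ 2 ≤ r ^ 2 := by
    have h3 : dist ((pt y t : EuclideanSpace ℝ (Fin (m + 1))).ofLp (Fin.last m))
      ((pt y' t' : EuclideanSpace ℝ (Fin (m + 1))).ofLp (Fin.last m)) = |t - t'| := by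
      simp [pt, Real.dist_eq]
    rw [h3]
    exact pow_le_pow_left₀ (abs_nonneg _) ht 2
  have h2 : ∀ c : Fin m, dist ((pt y t : EuclideanSpace ℝ (Fin (m + 1))).ofLp c.castSucc)
      ((pt y' t' : EuclideanSpace ℝ (Fin (m + 1))).ofLp c.castSucc) ^ 2 ≤ r ^ 2 := by
    intro c
    have h3 : dist ((pt y t : EuclideanSpace ℝ (Fin (m + 1))).ofLp c.castSucc)
      ((pt y' t' : EuclideanSpace ℝ (Fin (m + 1))).ofLp c.castSucc) = |y c - y' c| := by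
      simp [pt, Real.dist_eq]
    rw [h3]
    exact pow_le_pow_left₀ (abs_nonneg _) (h c) 2
  have h4 := Finset.sum_le_sum (s := Finset.univ) (fun c (_ : c ∈ Finset.univ) => h2 c)
  rw [Finset.sum_const, Finset.card_univ, Fintype.card_fin, nsmul_eq_mul] at h4
  calc _ ≤ (m : ℝ) * r ^ 2 + r ^ 2 := add_le_add h4 h1
    _ ≤ ((m + 1) * r) ^ 2 := by
        have h5 : 0 ≤ (m : ℝ) * r ^ 2 := mul_nonneg hm (sq_nonneg r)
        have h6 : 0 ≤ (m : ℝ) * m * r ^ 2 := mul_nonneg (mul_nonneg hm hm) (sq_nonneg r)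
        nlinarith

theorem one_floor {B n i : ℕ} (hB : 1 ≤ B) (hi : i ≤ n) (x : ℝ) :
    ⌊((B ^ n : ℕ) : ℝ) * x⌋ / (B : ℤ) ^ (n - i) = ⌊((B ^ i : ℕ) : ℝ) * x⌋ := by
  have h1 : ((B ^ n : ℕ) : ℝ) * x = ((B ^ (n - i) : ℕ) : ℝ) * (((B ^ i : ℕ) : ℝ) * x) := by
    rw [← mul_assoc, ← Nat.cast_mul, ← pow_add, Nat.sub_add_cancel hi]
  have h2 : (B ^ (n - i) : ℕ) ≠ 0 := by positivity
  have h3 : ((B : ℤ) ^ (n - i)) = ((B ^ (n - i) : ℕ) : ℤ) := by push_cast; rfl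
  rw [h1, h3, Int.natCast_mul_floor_div_cancel h2]

theorem one_cl {m B n i : ℕ} (hB : 1 ≤ B) (hi : i ≤ n) (x : Fin m → ℝ) :
    cl B (n - i) (fun c => ⌊((B ^ n : ℕ) : ℝ) * x c⌋) = fun c => ⌊((B ^ i : ℕ) : ℝ) * x c⌋ := by
  funext c
  exact one_floor hB hi (x c)

theorem one_gr {m N : ℕ} {x : Fin m → ℤ} : x ∈ gr m N ↔ ∀ c, 0 ≤ x c ∧ x c < (N : ℤ) := by
  simp [gr, Fintype.mem_piFinset]

theorem one_gr_fl {m N : ℕ} (hN : 1 ≤ N) {x : Fin m → ℝ} (hx : x ∈ cube m) :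
    (fun c => ⌊(N : ℝ) * x c⌋) ∈ gr m N := by
  have hN0 : (0 : ℝ) < N := by exact_mod_cast hN
  rw [one_gr]
  intro c
  refine ⟨Int.floor_nonneg.2 (mul_nonneg hN0.le (hx c).1), ?_⟩
  rw [Int.floor_lt]
  have := (hx c).2
  push_cast
  nlinarith

/-- the adapted sheet is sticky -/
theorem one_sticky {m B n : ℕ} (hB : 1 ≤ B) (al Φ : (Fin m → ℤ) → Fin m → ℤ)
    (h : ∀ i ≤ n, ∀ x ∈ gr m (B ^ n), ∀ x' ∈ gr m (B ^ n), cl B (n - i) x = cl B (n - i) x' →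
        cl B (n - i) (al (Φ x)) = cl B (n - i) (al (Φ x'))) :
    StickyOn B 1 (cube m) (fun x c => (al (Φ (fun c => ⌊((B ^ n : ℕ) : ℝ) * x c⌋)) c : ℝ) / ((B ^ n : ℕ) : ℝ)) := by
  have hB0 : (0 : ℝ) < B := by exact_mod_cast hB
  intro j x hx x' hx' hfl c
  by_cases hj : j ≤ n
  · have h1 := h j hj _ (one_gr_fl (Nat.one_le_pow _ _ hB) hx) _ (one_gr_fl (Nat.one_le_pow _ _ hB) hx') (by
      rw [one_cl hB hj, one_cl hB hj]
      funext c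
      push_cast
      exact hfl c)
    have h2 := congrFun h1 c
    simp only [cl] at h2
    set u : ℤ := al (Φ (fun c => ⌊((B ^ n : ℕ) : ℝ) * x c⌋)) c with hu
    set v : ℤ := al (Φ (fun c => ⌊((B ^ n : ℕ) : ℝ) * x' c⌋)) c with hv
    have hBz : (0 : ℤ) < (B : ℤ) ^ (n - j) := by positivity
    have h3 := Int.emod_add_mul_ediv u ((B : ℤ) ^ (n - j))
    have h4 := Int.emod_add_mul_ediv v ((B : ℤ) ^ (n - j))
    rw [h2] at h3
    have h5 := Int.emod_nonneg u hBz.ne'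
    have h6 := Int.emod_lt_of_pos u hBz
    have h7 := Int.emod_nonneg v hBz.ne'
    have h8 := Int.emod_lt_of_pos v hBz
    have h9 : |u - v| ≤ (B : ℤ) ^ (n - j) := by
      rw [abs_le]
      constructor <;> linarith
    have h10 : |(u : ℝ) - v| ≤ (B : ℝ) ^ (n - j) := by exact_mod_cast h9
    have h11 : (0 : ℝ) < ((B ^ n : ℕ) : ℝ) := by positivity
    rw [← sub_div, abs_div, abs_of_pos h11, div_mul_eq_mul_div, div_le_one h11]
    calc |(u : ℝ) - v| * (B : ℝ) ^ j ≤ (B : ℝ) ^ (n - j) * (B : ℝ) ^ j :=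
          mul_le_mul_of_nonneg_right h10 (by positivity)
      _ = ((B ^ n : ℕ) : ℝ) := by rw [← pow_add, Nat.sub_add_cancel hj]; push_cast; rfl
  · have h1 : (fun c => ⌊((B ^ n : ℕ) : ℝ) * x c⌋) = fun c => ⌊((B ^ n : ℕ) : ℝ) * x' c⌋ := by
      have h2 := one_cl hB (show n ≤ j by omega) x
      have h3 := one_cl hB (show n ≤ j by omega) x'
      rw [← h2, ← h3]
      congr 1
      funext c
      push_cast
      exact hfl c
    simp only [h1, sub_self, abs_zero, zero_mul]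
    exact zero_le_one

theorem one_incl {m : ℕ} {E1 : Set (EuclideanSpace ℝ (Fin (m + 1)))} {ι : Type} (Θ : Finset ι)
    (Es : ι → Set (EuclideanSpace ℝ (Fin (m + 1)))) (ρ r s : ℝ) (hs : ρ + r ≤ s)
    (h : ∀ p ∈ E1, ∃ θ ∈ Θ, ∃ q ∈ Es θ, dist p q ≤ r) :
    Metric.thickening ρ E1 ⊆ ⋃ θ ∈ Θ, Metric.thickening s (Es θ) := by
  intro z hz
  rw [Metric.mem_thickening_iff] at hz
  obtain ⟨p, hp, hzp⟩ := hz
  obtain ⟨θ, hθ, q, hq, hpq⟩ := h p hp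
  simp only [Set.mem_iUnion]
  refine ⟨θ, hθ, ?_⟩
  rw [Metric.mem_thickening_iff]
  refine ⟨q, hq, ?_⟩
  calc dist z q ≤ dist z p + dist p q := dist_triangle _ _ _
    _ < s := by linarith

set_option linter.unusedVariables false in
open Classical in
theorem st_ONE (hOCC : ST_OCC) (hBOX : ST_BOXV) (hCELL : ST_CELL) (hTB : ST_TB) (hRSH : ST_RSH)
    (hMKD : ST_MKD) (hEQ : ∀ m, EQ m m) : ST_ONE := by
  intro m C lam ε hm hC hlam hε
  have hm0 : (0 : ℝ) < m := by exact_mod_cast hm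
  have hC0 : 0 < C := by linarith
  obtain ⟨η, hη⟩ : ∃ η : ℝ, η = ε / (2 * m) := ⟨_, rfl⟩
  have hη0 : 0 < η := by rw [hη]; positivity
  obtain ⟨B0, hB0⟩ := hTB m C (min (lam / 4) 1) η hm hC (lt_min (by positivity) one_pos) (min_le_right _ _) hη0
  obtain ⟨p, hp⟩ : ∃ p : ℕ, p = B0 + 1 := ⟨_, rfl⟩
  obtain ⟨B, hB⟩ : ∃ B : ℕ, B = 2 ^ p := ⟨_, rfl⟩
  have hBB : B0 ≤ B := by
    have := (Nat.lt_two_pow_self : B0 + 1 < 2 ^ (B0 + 1))
    rw [hB, hp]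
    omega
  have hB2 : 2 ≤ B := by
    rw [hB, hp, pow_succ]
    have : 1 ≤ 2 ^ B0 := Nat.one_le_two_pow
    omega
  have hBr : (B : ℝ) = 2 ^ p := by rw [hB]; push_cast; rfl
  have hB0' : (0 : ℝ) < B := by rw [hBr]; positivity
  obtain ⟨c1, hc1, hM⟩ := hMKD m B 1 (lam ^ 2 / (16 * C)) (ε / 2) hB2 (by positivity) (by positivity) (hEQ m)
  obtain ⟨K1, hK1, hR⟩ := hRSH m 1 zero_le_one
  refine ⟨B, c1 * (1 / 2) ^ (ε / 2), K1 * (1 + (m + 1) * 4), hB2, by positivity, ?_, ?_⟩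
  · nlinarith
  intro L hL E hE n
  obtain ⟨N, hN⟩ : ∃ N : ℕ, N = B ^ n := ⟨_, rfl⟩
  have hN1 : 1 ≤ N := by rw [hN]; exact Nat.one_le_pow _ _ (by omega)
  have hN0 : (0 : ℝ) < N := by exact_mod_cast hN1
  have hNr : (N : ℝ) = 2 ^ (p * n) := by rw [hN]; push_cast; rw [hBr, ← pow_mul]
  obtain ⟨S, hS⟩ : ∃ S : Set ((Fin m → ℝ) × ℝ), S = {p | p.1 ∈ cube m ∧ p.2 ∈ Set.Icc 0 1 ∧
    ∃ a : Fin m → ℝ, (p.1, a) ∈ L ∧ pt (fun c => a c + p.2 * p.1 c) p.2 ∈ E} := ⟨_, rfl⟩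
  rw [← hS] at hE
  have hocc := hOCC m N lam S hN1 hlam.le (by intro q hq; rw [hS] at hq; exact ⟨hq.1, hq.2.1⟩) hE
  obtain ⟨O, hO⟩ : ∃ O : Finset ((Fin m → ℤ) × ℕ), O = (gr m N ×ˢ Finset.range N).filter
      (fun z => ∃ p ∈ S, (∀ c, ⌊(N : ℝ) * p.1 c⌋ = z.1 c) ∧ ⌊(N : ℝ) * p.2⌋ = (z.2 : ℤ)) := ⟨_, rfl⟩
  have hocc' : lam * (N : ℝ) ^ (m + 1) ≤ (O.card : ℝ) := by
    rw [hO]
    convert hocc using 4
  have hch : ∀ z ∈ O, ∃ q : ((Fin m → ℝ) × ℝ) × (Fin m → ℝ), q.1.1 ∈ cube m ∧ q.1.2 ∈ Set.Icc (0 : ℝ) 1 ∧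
      (q.1.1, q.2) ∈ L ∧ pt (fun c => q.2 c + q.1.2 * q.1.1 c) q.1.2 ∈ E ∧
      (∀ c, ⌊(N : ℝ) * q.1.1 c⌋ = z.1 c) ∧ ⌊(N : ℝ) * q.1.2⌋ = (z.2 : ℤ) := by
    intro z hz
    rw [hO] at hz
    obtain ⟨q, hq, h1, h2⟩ := (Finset.mem_filter.1 hz).2
    rw [hS] at hq
    obtain ⟨h3, h4, a, h5, h6⟩ := hq
    exact ⟨(q, a), h3, h4, h5, h6, h1, h2⟩
  choose! Q hQ using hch
  obtain ⟨al, hal⟩ : ∃ al : (Fin m → ℤ) → ℕ → Fin m → ℤ, al = fun χ γ c => ⌊(N : ℝ) * (Q (χ, γ)).2 c⌋ := ⟨_, rfl⟩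
  have hOsub : O ⊆ gr m N ×ˢ Finset.range N := by rw [hO]; exact Finset.filter_subset _ _
  obtain ⟨F, hFc, hF⟩ := hL (p * n)
  have hFc' : (F.card : ℝ) ≤ C * (N : ℝ) ^ m := by
    refine hFc.trans (le_of_eq ?_)
    rw [hNr, ← pow_mul]
    congr 2
    ring
  have hFm : ∀ z ∈ O, (z.1, al z.1 z.2) ∈ F := by
    intro z hz
    obtain ⟨h1, h2, h3, h4, h5, h6⟩ := hQ z hz
    have h7 := hF _ h3
    rw [← hNr] at h7
    have h8 : (fun c => ⌊(N : ℝ) * (Q z).1.1 c⌋) = z.1 := by funext c; exact h5 c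
    rw [h8] at h7
    rw [hal]
    exact h7
  obtain ⟨X0, α, hX0g, hX0c, hX0⟩ := hCELL m N C lam O F al hN1 hlam hC0 hOsub hocc' hFc' hFm
  have hkey : ∀ χ ∈ X0, ∃ γ, (χ, γ) ∈ O ∧ al χ γ = α χ := by
    intro χ hχ
    have h1 := hX0 χ hχ
    have h2 : (0 : ℝ) < (((Finset.range N).filter (fun γ => (χ, γ) ∈ O ∧ al χ γ = α χ)).card : ℝ) :=
      lt_of_lt_of_le (by positivity) h1
    have h3 : 0 < ((Finset.range N).filter (fun γ => (χ, γ) ∈ O ∧ al χ γ = α χ)).card := by exact_mod_cast h2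
    obtain ⟨γ, hγ⟩ := Finset.card_pos.1 h3
    exact ⟨γ, (Finset.mem_filter.1 hγ).2⟩
  have hNB : ((B ^ n : ℕ) : ℝ) = N := by rw [hN]
  have hStt : ∀ i ≤ n, ((Stt B n X0 α i).card : ℝ) ≤ C * (B : ℝ) ^ (m * i) := by
    intro i hi
    obtain ⟨Fi, hFic, hFi⟩ := hL (p * i)
    have h1 : Stt B n X0 α i ⊆ Fi := by
      intro s hs
      rw [Stt, Finset.mem_image] at hs
      obtain ⟨χ, hχ, rfl⟩ := hs
      obtain ⟨γ, hγ, hγ2⟩ := hkey χ hχ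
      obtain ⟨h1, h2, h3, h4, h5, h6⟩ := hQ _ hγ
      have h7 := hFi _ h3
      have h8 : χ = fun c => ⌊((B ^ n : ℕ) : ℝ) * (Q (χ, γ)).1.1 c⌋ := by
        rw [hNB]; funext c; exact (h5 c).symm
      have h9 : α χ = fun c => ⌊((B ^ n : ℕ) : ℝ) * (Q (χ, γ)).2 c⌋ := by
        rw [← hγ2, hal, hNB]
      have h10 : ((B ^ i : ℕ) : ℝ) = 2 ^ (p * i) := by push_cast; rw [hBr, ← pow_mul]
      have h11 : cl B (n - i) χ = fun c => ⌊(2 : ℝ) ^ (p * i) * (Q (χ, γ)).1.1 c⌋ := by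
        rw [← h10, ← one_cl (by omega) hi, ← h8]
      have h12 : cl B (n - i) (α χ) = fun c => ⌊(2 : ℝ) ^ (p * i) * (Q (χ, γ)).2 c⌋ := by
        rw [h9, one_cl (by omega) hi, h10]
      rw [h11, h12]
      exact h7
    calc ((Stt B n X0 α i).card : ℝ) ≤ Fi.card := by exact_mod_cast Finset.card_le_card h1
      _ ≤ C * 2 ^ (m * (p * i)) := hFic
      _ = C * (B : ℝ) ^ (m * i) := by
          rw [hBr, ← pow_mul]
          congr 2
          ring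
  obtain ⟨Φ, X1, hΦ, hΦa, hX1g, hX1c, hΘ⟩ := hB0 B hBB n X0 α (by rw [← hN]; exact hX0g) (by
    refine le_trans ?_ hX0c
    have h1 : (B : ℝ) ^ (m * n) = (N : ℝ) ^ m := by rw [hN]; push_cast; rw [← pow_mul]; congr 1; ring
    rw [h1]
    exact mul_le_mul_of_nonneg_right (min_le_left _ _) (by positivity)) hStt
  obtain ⟨Θ, hΘd⟩ : ∃ Θ : Finset (Fin m → ℤ), Θ = X1.image (fun x c => x c - Φ x c) := ⟨_, rfl⟩
  obtain ⟨T, hT⟩ : ∃ T : Finset ((Fin m → ℤ) × ℕ), T = (X1 ×ˢ Finset.range N).filter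
    (fun z => (Φ z.1, z.2) ∈ O ∧ al (Φ z.1) z.2 = α (Φ z.1)) := ⟨_, rfl⟩
  have hTc : lam ^ 2 / (16 * C) * (N : ℝ) ^ (m + 1) ≤ T.card := by
    have h1 : (T.card : ℝ) = ∑ χ ∈ X1, (((Finset.range N).filter
        (fun γ => (Φ χ, γ) ∈ O ∧ al (Φ χ) γ = α (Φ χ))).card : ℝ) := by
      rw [hT, Finset.card_filter, Finset.sum_product, Nat.cast_sum]
      refine Finset.sum_congr rfl fun χ _ => ?_
      rw [Finset.card_filter]
    rw [h1]
    have h2 : ∑ χ ∈ X1, (lam ^ 2 / (8 * C) * N) ≤ ∑ χ ∈ X1, (((Finset.range N).filter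
        (fun γ => (Φ χ, γ) ∈ O ∧ al (Φ χ) γ = α (Φ χ))).card : ℝ) :=
      Finset.sum_le_sum fun χ hχ => hX0 _ (hΦ χ (hX1g hχ))
    refine le_trans ?_ h2
    rw [Finset.sum_const, nsmul_eq_mul]
    have h3 : (B : ℝ) ^ (m * n) = (N : ℝ) ^ m := by rw [hN]; push_cast; rw [← pow_mul]; congr 1; ring
    rw [h3] at hX1c
    calc lam ^ 2 / (16 * C) * (N : ℝ) ^ (m + 1) = (1 / 2 * (N : ℝ) ^ m) * (lam ^ 2 / (8 * C) * N) := by
          field_simp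
          ring
      _ ≤ X1.card * (lam ^ 2 / (8 * C) * N) := mul_le_mul_of_nonneg_right hX1c (by positivity)
  have hTsub : T ⊆ gr m N ×ˢ Finset.range N := by
    rw [hT]
    intro z hz
    have h1 := (Finset.mem_product.1 (Finset.mem_filter.1 hz).1)
    refine Finset.mem_product.2 ⟨?_, h1.2⟩
    rw [hN]
    exact hX1g h1.1
  have hbox := hBOX m N T hN1 hTsub
  obtain ⟨S1, hS1⟩ : ∃ S1 : Set ((Fin m → ℝ) × ℝ), S1 = {p | p.1 ∈ cube m ∧ p.2 ∈ Set.Icc 0 1 ∧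
    ∃ z ∈ T, (∀ c, ⌊(N : ℝ) * p.1 c⌋ = z.1 c) ∧ ⌊(N : ℝ) * p.2⌋ = (z.2 : ℤ)} := ⟨_, rfl⟩
  rw [← hS1] at hbox
  have hvol : ENNReal.ofReal (lam ^ 2 / (16 * C)) ≤ volume S1 := by
    refine le_trans (ENNReal.ofReal_le_ofReal ?_) hbox
    rw [le_div_iff₀ (by positivity)]
    exact hTc
  obtain ⟨a1, ha1⟩ : ∃ a1 : (Fin m → ℝ) → Fin m → ℝ,
    a1 = fun x c => (α (Φ (fun c => ⌊((B ^ n : ℕ) : ℝ) * x c⌋)) c : ℝ) / ((B ^ n : ℕ) : ℝ) := ⟨_, rfl⟩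
  have hst : StickyOn B 1 (cube m) a1 := by
    rw [ha1]
    exact one_sticky (by omega) α Φ hΦa
  obtain ⟨E1, hE1⟩ : ∃ E1 : Set (EuclideanSpace ℝ (Fin (m + 1))),
    E1 = {q | ∃ p ∈ S1, q = pt (fun c => a1 p.1 c + p.2 * p.1 c) p.2} := ⟨_, rfl⟩
  have hu0 : (0 : ℝ) < (B : ℝ)⁻¹ ^ n := by positivity
  have hu1 : (B : ℝ)⁻¹ ^ n ≤ 1 := pow_le_one₀ (by positivity) (inv_le_one_of_one_le₀ (by exact_mod_cast (by omega : 1 ≤ B)))
  have huN : (B : ℝ)⁻¹ ^ n = 1 / N := by rw [hN]; push_cast; rw [inv_pow, one_div]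
  have hmk := hM (cube m) a1 (subset_refl _) hst S1 (by intro q hq; rw [hS1] at hq; exact ⟨hq.1, hq.2.1⟩) hvol E1
    (by intro q hq; rw [hE1]; exact ⟨q, hq, rfl⟩) (1 / 2 * (B : ℝ)⁻¹ ^ n) (by positivity) (by linarith)
  obtain ⟨Es, hEs⟩ : ∃ Es : (Fin m → ℤ) → Set (EuclideanSpace ℝ (Fin (m + 1))),
    Es = fun w => {p : EuclideanSpace ℝ (Fin (m + 1)) |
        pt (fun c => p c.castSucc + p (Fin.last m) * (-((w c : ℝ) / N))) (p (Fin.last m) + 0) ∈ E} := ⟨_, rfl⟩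
  have hinc : ∀ q ∈ E1, ∃ θ ∈ Θ, ∃ q' ∈ Es θ, dist q q' ≤ (m + 1) * (4 / N) := by
    intro q hq
    rw [hE1] at hq
    obtain ⟨r, hr, rfl⟩ := hq
    rw [hS1] at hr
    obtain ⟨hr1, hr2, z, hz, hz1, hz2⟩ := hr
    rw [hT] at hz
    obtain ⟨hz3, hz4, hz5⟩ := Finset.mem_filter.1 hz
    have hz6 := (Finset.mem_product.1 hz3).1
    obtain ⟨h1, h2, h3, h4, h5, h6⟩ := hQ _ hz4
    set Qz := Q (Φ z.1, z.2) with hQz
    refine ⟨fun c => z.1 c - Φ z.1 c, by rw [hΘd]; exact Finset.mem_image_of_mem _ hz6,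
      pt (fun c => Qz.2 c + Qz.1.2 * Qz.1.1 c + Qz.1.2 * (((z.1 c - Φ z.1 c : ℤ) : ℝ) / N)) Qz.1.2, ?_, ?_⟩
    · rw [hEs]
      simp only [Set.mem_ofPred_eq]
      have e1 : (pt (fun c => Qz.2 c + Qz.1.2 * Qz.1.1 c + Qz.1.2 * (((z.1 c - Φ z.1 c : ℤ) : ℝ) / N)) Qz.1.2 :
          EuclideanSpace ℝ (Fin (m + 1))) (Fin.last m) = Qz.1.2 := by simp [pt]
      have e2 : ∀ c : Fin m, (pt (fun c => Qz.2 c + Qz.1.2 * Qz.1.1 c + Qz.1.2 * (((z.1 c - Φ z.1 c : ℤ) : ℝ) / N)) Qz.1.2 :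
          EuclideanSpace ℝ (Fin (m + 1))) c.castSucc =
          Qz.2 c + Qz.1.2 * Qz.1.1 c + Qz.1.2 * (((z.1 c - Φ z.1 c : ℤ) : ℝ) / N) := by intro c; simp [pt]
      rw [e1, add_zero]
      have e3 : (fun c : Fin m => (pt (fun c => Qz.2 c + Qz.1.2 * Qz.1.1 c + Qz.1.2 * (((z.1 c - Φ z.1 c : ℤ) : ℝ) / N)) Qz.1.2 :
          EuclideanSpace ℝ (Fin (m + 1))) c.castSucc + Qz.1.2 * (-(((z.1 c - Φ z.1 c : ℤ) : ℝ) / N))) =
          fun c => Qz.2 c + Qz.1.2 * Qz.1.1 c := by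
        funext c
        rw [e2]
        ring
      rw [e3]
      exact h4
    · -- distances
      have hfl : ∀ u v : ℝ, ⌊(N : ℝ) * u⌋ = ⌊(N : ℝ) * v⌋ → |u - v| ≤ 1 / N := by
        intro u v huv
        have h7 := Int.abs_sub_lt_one_of_floor_eq_floor huv
        rw [← mul_sub, abs_mul, abs_of_pos hN0] at h7
        rw [le_div_iff₀ hN0]
        linarith
      have ht : |r.2 - Qz.1.2| ≤ 1 / N := hfl _ _ (by rw [hz2, h6])
      have hfl2 : ∀ (u : ℝ) (k : ℤ), ⌊(N : ℝ) * u⌋ = k → 0 ≤ u - k / N ∧ u - k / N ≤ 1 / N := by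
        intro u k huk
        have h7 := Int.floor_le ((N : ℝ) * u)
        have h8 := Int.lt_floor_add_one ((N : ℝ) * u)
        rw [huk] at h7 h8
        constructor
        · rw [sub_nonneg, div_le_iff₀ hN0]
          linarith
        · rw [sub_le_iff_le_add, ← add_div, le_div_iff₀ hN0]
          linarith
      refine one_dist _ _ _ _ _ (by positivity) (fun c => ?_) (ht.trans ?_)
      · have ea : |a1 r.1 c - Qz.2 c| ≤ 1 / N := by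
          have h7 : (fun c => ⌊((B ^ n : ℕ) : ℝ) * r.1 c⌋) = z.1 := by
            rw [hNB]; funext c; exact hz1 c
          have h8 : a1 r.1 c = (α (Φ z.1) c : ℝ) / N := by
            rw [ha1]
            simp only []
            rw [h7, hNB]
          have h9 : ⌊(N : ℝ) * Qz.2 c⌋ = α (Φ z.1) c := by
            rw [← hz5, hal]
          have h10 := hfl2 _ _ h9
          rw [h8, abs_sub_comm, abs_of_nonneg h10.1]
          exact h10.2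
        have ex : |r.1 c - (Qz.1.1 c + (((z.1 c - Φ z.1 c : ℤ) : ℝ) / N))| ≤ 1 / N := by
          have h7 := hfl2 _ _ (hz1 c)
          have h8 := hfl2 _ _ (h5 c)
          have h9 : r.1 c - (Qz.1.1 c + (((z.1 c - Φ z.1 c : ℤ) : ℝ) / N)) =
              (r.1 c - (z.1 c : ℝ) / N) - (Qz.1.1 c - (Φ z.1 c : ℝ) / N) := by
            push_cast
            ring
          rw [h9, abs_le]
          constructor <;> linarith [h7.1, h7.2, h8.1, h8.2]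
        have hx1 : |r.1 c| ≤ 1 := by
          rw [abs_le]
          constructor <;> linarith [(hr1 c).1, (hr1 c).2]
        have htq : |Qz.1.2| ≤ 1 := by
          rw [abs_le]
          constructor <;> linarith [h2.1, h2.2]
        have h10 : a1 r.1 c + r.2 * r.1 c - (Qz.2 c + Qz.1.2 * Qz.1.1 c + Qz.1.2 * (((z.1 c - Φ z.1 c : ℤ) : ℝ) / N)) =
            (a1 r.1 c - Qz.2 c) + (r.2 - Qz.1.2) * r.1 c +
              Qz.1.2 * (r.1 c - (Qz.1.1 c + (((z.1 c - Φ z.1 c : ℤ) : ℝ) / N))) := by ring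
        rw [h10]
        have hN' : 0 ≤ 1 / (N : ℝ) := by positivity
        calc _ ≤ |a1 r.1 c - Qz.2 c| + |(r.2 - Qz.1.2) * r.1 c| +
              |Qz.1.2 * (r.1 c - (Qz.1.1 c + (((z.1 c - Φ z.1 c : ℤ) : ℝ) / N)))| := abs_add_three _ _ _
          _ ≤ 1 / N + 1 / N * 1 + 1 * (1 / N) := by
              rw [abs_mul, abs_mul]
              exact add_le_add (add_le_add ea (mul_le_mul ht hx1 (abs_nonneg _) hN'))
                (mul_le_mul htq ex (abs_nonneg _) zero_le_one)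
          _ ≤ 4 / N := by
              have : (4 : ℝ) / N = 4 * (1 / N) := by ring
              rw [this]
              linarith
      · exact div_le_div_of_nonneg_right (by norm_num) hN0.le
  obtain ⟨s, hs⟩ : ∃ s : ℝ, s = (1 + (m + 1) * 4) * (1 / N) := ⟨_, rfl⟩
  have hs0 : 0 < s := by rw [hs]; positivity
  have hsub := one_incl Θ Es (1 / 2 * (B : ℝ)⁻¹ ^ n) ((m + 1) * (4 / N)) s (by
    rw [hs, huN]
    have : 0 < 1 / (N : ℝ) := by positivity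
    have e : (m + 1 : ℝ) * (4 / N) = (m + 1) * 4 * (1 / N) := by ring
    rw [e]
    linarith) hinc
  obtain ⟨V, hV⟩ : ∃ V : ENNReal, V = volume (Metric.thickening (K1 * (1 + (m + 1) * 4) * (B : ℝ)⁻¹ ^ n) E) := ⟨_, rfl⟩
  rw [← hV]
  have hone : ∀ w ∈ Θ, volume (Metric.thickening s (Es w)) ≤ V := by
    intro w hw
    rw [hΘd, Finset.mem_image] at hw
    obtain ⟨x, hx, rfl⟩ := hw
    have h1 := hR (fun c => -(((x c - Φ x c : ℤ) : ℝ) / N)) 0 (by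
      intro c
      rw [abs_neg, abs_div, abs_of_pos hN0, div_le_one hN0]
      have hx1 := one_gr.1 (hX1g hx) c
      have hx2 := one_gr.1 (hX0g (hΦ x (hX1g hx))) c
      rw [← hN] at hx1
      have h2 : |x c - Φ x c| ≤ (N : ℤ) := by
        rw [abs_le]
        constructor <;> linarith [hx1.1, hx1.2, hx2.1, hx2.2]
      exact_mod_cast h2) E (K1 * s) (by positivity)
    have h2 : K1 * s / K1 = s := by field_simp
    rw [h2] at h1
    have h3 : K1 * s = K1 * (1 + (m + 1) * 4) * (B : ℝ)⁻¹ ^ n := by rw [hs, huN]; ring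
    rw [h3, ← hV] at h1
    rw [hEs]
    exact h1
  have htot : ENNReal.ofReal (c1 * (1 / 2 * (B : ℝ)⁻¹ ^ n) ^ (ε / 2)) ≤ V * (Θ.card : ENNReal) := by
    calc _ ≤ volume (Metric.thickening (1 / 2 * (B : ℝ)⁻¹ ^ n) E1) := hmk
      _ ≤ volume (⋃ θ ∈ Θ, Metric.thickening s (Es θ)) := measure_mono hsub
      _ ≤ ∑ θ ∈ Θ, volume (Metric.thickening s (Es θ)) := measure_biUnion_finset_le _ _
      _ ≤ ∑ θ ∈ Θ, V := Finset.sum_le_sum hone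
      _ = V * (Θ.card : ENNReal) := by rw [Finset.sum_const, nsmul_eq_mul, mul_comm]
  have hY : (Θ.card : ENNReal) ≤ ENNReal.ofReal ((B : ℝ) ^ (m * η * n)) := by
    rw [← ENNReal.ofReal_natCast]
    refine ENNReal.ofReal_le_ofReal ?_
    rw [hΘd]
    convert hΘ using 3
  have hY0 : (0 : ℝ) < (B : ℝ) ^ (m * η * n) := by positivity
  have hfin : ENNReal.ofReal (c1 * (1 / 2 * (B : ℝ)⁻¹ ^ n) ^ (ε / 2)) ≤ V * ENNReal.ofReal ((B : ℝ) ^ (m * η * n)) :=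
    htot.trans (mul_le_mul_right hY V)
  have hdiv := ENNReal.div_le_of_le_mul hfin
  rw [← ENNReal.ofReal_div_of_pos hY0] at hdiv
  refine le_trans (le_of_eq ?_) hdiv
  congr 1
  have e1 : (m : ℝ) * η * n = n * (ε / 2) := by
    rw [hη]
    field_simp
  have e2 : (B : ℝ) ^ (m * η * n) = (((B : ℝ)⁻¹ ^ n) ^ (ε / 2))⁻¹ := by
    rw [e1, Real.rpow_mul hB0'.le, Real.rpow_natCast, ← Real.inv_rpow (by positivity), inv_pow, inv_inv]
  rw [e2, Real.mul_rpow (by norm_num) hu0.le, div_inv_eq_mul]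
  have e3 : ((B : ℝ)⁻¹ ^ n) ^ ε = ((B : ℝ)⁻¹ ^ n) ^ (ε / 2) * ((B : ℝ)⁻¹ ^ n) ^ (ε / 2) := by
    rw [← Real.rpow_add hu0]
    congr 1
    ring
  rw [e3]
  ring

end Pool.Agent.Helper70.SK
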