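import Pool.Agent.Helper70.SK.Final2
import Pool.Agent.Helper70.SK.ONE
import Pool.Agent.Helper70.SK.GL
import Pool.Agent.Helper70.SK.COVS
import Pool.Agent.Helper70.SK.COVL
import Pool.Agent.Helper5.SK.CELL
import Pool.Agent.Helper5.SK.THR
import Pool.Agent.Helper5.SK.UC
import Pool.Agent.Helper5.SK.RSH
import Pool.Agent.Helper5.SK.BOXV
import Pool.Agent.Helper78.SK.PRU
import Pool.Agent.Helper15.SK.CODE
import Pool.Agent.Helper30.SK.ZJ
import Pool.Agent.Helper63.SK.TB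
import Pool.Agent.Helper91.SK.RUN

/-! Line sets of finite Minkowski content: the final statements. -/

namespace Pool.Agent.Helper70.SK

open Finset Pool.Agent.Helper70.DK MeasureTheory

theorem fin_TB : ST_TB := st_TB (st_PRU st_THR st_ZJ) (st_RUN st_COVS) st_CODE

theorem fin_ONE : ST_ONE := st_ONE st_OCC st_BOXV st_CELL fin_TB st_RSH fin_MKD main_EQ

theorem fin_GL : ST_GL := st_GL (st_UC fin_ONE) st_SHEAR

theorem fin_cover (m M : ℕ) (hm : 1 ≤ m) (C : ℕ → ℝ) (lam : ℝ) (hlam : 0 < lam) :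
    ∃ c : ℕ → ℕ → ℝ → ℝ, (∀ k i ε, 0 < ε → 0 < c k i ε) ∧
      ∀ (L : ℕ → Set ((Fin m → ℝ) × (Fin m → ℝ))) (E : ℕ → Set (EuclideanSpace ℝ (Fin (m + 1)))),
        (∀ k, Content m (C k) (L k)) →
        ENNReal.ofReal lam ≤ volume {p : (Fin m → ℝ) × ℝ | (∀ c, |p.1 c| ≤ M) ∧ |p.2| ≤ M ∧
          ∃ a : Fin m → ℝ, (p.1, a) ∈ ⋃ k, L k ∧ pt (fun c => a c + p.2 * p.1 c) p.2 ∈ ⋃ i, E i} →
        ∃ k i, ∀ ε δ : ℝ, 0 < ε → 0 < δ → δ < 1 →
          ENNReal.ofReal (c k i ε * δ ^ ε) ≤ volume (Metric.thickening δ (E i)) :=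
  covl_main fin_GL m M hm C lam hlam

end Pool.Agent.Helper70.SK
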