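import Pool.Agent.Helper70.SK.Stmts2
import Pool.Agent.Helper50.DK.VOL

/-! MKD: all scales, maps that are sticky on a set of slopes. -/

namespace Pool.Agent.Helper70.SK

open Finset Pool.Agent.Helper70.DK MeasureTheory

theorem mkd_nonempty {α : Type} [MeasurableSpace α] (μ : Measure α) (lam : ℝ) (hlam : 0 < lam) (S : Set α)
    (h : ENNReal.ofReal lam ≤ μ S) : S.Nonempty := by
  by_contra hne
  rw [Set.not_nonempty_iff_eq_empty] at hne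
  rw [hne, measure_empty] at h
  have := ENNReal.ofReal_pos.2 hlam
  exact absurd (lt_of_lt_of_le this h) (lt_irrefl _)

theorem st_MKD (hMKR : ST_MKR) (hEXT : ST_EXT) : ST_MKD := by
  intro m b R lam ε hb hlam hε hEQ
  obtain ⟨R', hR'⟩ : ∃ R' : ℝ, R' = max R 0 := ⟨_, rfl⟩
  have hR0 : 0 ≤ R' := hR' ▸ le_max_right _ _
  have hRR : R ≤ R' := hR' ▸ le_max_left _ _
  obtain ⟨L0, c, K, hc, hK, H⟩ := hMKR m b R' lam (ε / 2) hb hR0 hlam (half_pos hε) hEQ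
  have hb0 : (0 : ℝ) < b := by
    have : 0 < b := by omega
    exact_mod_cast this
  have hb1 : (1 : ℝ) < b := by
    have : 1 < b := by omega
    exact_mod_cast this
  have hBi1 : (b : ℝ)⁻¹ < 1 := by
    rw [inv_lt_one₀ hb0]
    exact hb1
  have hBi0 : (0 : ℝ) < (b : ℝ)⁻¹ := by positivity
  obtain ⟨K', hK'⟩ : ∃ K' : ℝ, K' = ((m : ℝ) + 1) * (R' + 1) := ⟨_, rfl⟩
  have hK'0 : 0 < K' := by rw [hK']; positivity
  obtain ⟨N1, hN1⟩ : ∃ N1 : ℕ, (K + K') * (b : ℝ)⁻¹ ^ N1 ≤ 1 := by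
    obtain ⟨N, hN⟩ := exists_pow_lt_of_lt_one (show 0 < (K + K')⁻¹ by positivity) hBi1
    refine ⟨N, ?_⟩
    have h1 := mul_le_mul_of_nonneg_left hN.le (show 0 ≤ K + K' by positivity)
    rwa [mul_inv_cancel₀ (by positivity)] at h1
  obtain ⟨N0, hN0⟩ : ∃ N0 : ℕ, N0 = L0 + N1 := ⟨_, rfl⟩
  refine ⟨c * ((b : ℝ)⁻¹ ^ (N0 + 1)) ^ (ε / 2), by positivity, ?_⟩
  intro D a hD hst S hS hvol E hE δ hδ0 hδ1
  obtain ⟨n, hn1, hn2⟩ := exists_nat_pow_near_of_lt_one hδ0 hδ1.le hBi0 hBi1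
  obtain ⟨L, hL⟩ : ∃ L : ℕ, L = N0 + (n + 1) := ⟨_, rfl⟩
  obtain ⟨ρ, hρ⟩ : ∃ ρ : ℝ, ρ = (b : ℝ)⁻¹ ^ L := ⟨_, rfl⟩
  have hρ0 : 0 < ρ := by rw [hρ]; positivity
  have hSne := mkd_nonempty volume lam hlam S hvol
  have hDne : D.Nonempty := by
    obtain ⟨p, hp⟩ := hSne
    exact ⟨p.1, (hS hp).1⟩
  have hst' : StickyOn b R' D a := fun j x hx x' hx' h c => (hst j x hx x' hx' h c).trans hRR
  obtain ⟨a', ha', hclose⟩ := hEXT m b L R' D a hb hR0 hD hDne hst'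
  have hbL : (0 : ℝ) < (b : ℝ) ^ L := by positivity
  have hρL : ρ * (b : ℝ) ^ L = 1 := by
    rw [hρ, inv_pow]
    exact inv_mul_cancel₀ hbL.ne'
  have hcl : ∀ x ∈ D, ∀ c, |a' x c - a x c| ≤ R' * ρ := by
    intro x hx c
    have h1 := mul_le_mul_of_nonneg_right (hclose x hx c) hρ0.le
    have h2 : |a' x c - a x c| * (b : ℝ) ^ L * ρ = |a' x c - a x c| := by
      rw [mul_assoc, mul_comm ((b : ℝ) ^ L), hρL, mul_one]
    rwa [h2] at h1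
  have h1 := H L (by omega) a' ha' S (fun p hp => ⟨hD (hS hp).1, (hS hp).2⟩) hvol
    (Metric.thickening (K' * ρ) E) (by
      intro p hp
      rw [Metric.mem_thickening_iff]
      refine ⟨_, hE p hp, ?_⟩
      have hlt : ∀ c, |(fun c => a' p.1 c + p.2 * p.1 c) c - (fun c => a p.1 c + p.2 * p.1 c) c| <
          (R' + 1) * ρ := by
        intro c
        have h2 := hcl p.1 (hS hp).1 c
        have h3 : (fun c => a' p.1 c + p.2 * p.1 c) c - (fun c => a p.1 c + p.2 * p.1 c) c =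
            a' p.1 c - a p.1 c := by ring
        rw [h3]
        linarith
      refine (vol_dist _ _ _ _ (by positivity) hlt).trans_le (le_of_eq ?_)
      rw [hK']
      ring)
  rw [← hρ] at h1
  have h2 : (K + K') * ρ ≤ δ := by
    have e1 : ρ = (b : ℝ)⁻¹ ^ L0 * (b : ℝ)⁻¹ ^ N1 * (b : ℝ)⁻¹ ^ (n + 1) := by
      rw [hρ, hL, hN0, pow_add, pow_add]
    have e2 : (b : ℝ)⁻¹ ^ L0 ≤ 1 := pow_le_one₀ hBi0.le hBi1.le
    have e3 : (K + K') * ρ = ((K + K') * (b : ℝ)⁻¹ ^ N1) * ((b : ℝ)⁻¹ ^ L0 * (b : ℝ)⁻¹ ^ (n + 1)) := by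
      rw [e1]
      ring
    rw [e3]
    calc ((K + K') * (b : ℝ)⁻¹ ^ N1) * ((b : ℝ)⁻¹ ^ L0 * (b : ℝ)⁻¹ ^ (n + 1))
        ≤ 1 * (1 * (b : ℝ)⁻¹ ^ (n + 1)) := by gcongr
      _ = (b : ℝ)⁻¹ ^ (n + 1) := by ring
      _ ≤ δ := hn1.le
  have h3 : Metric.thickening (K * ρ) (Metric.thickening (K' * ρ) E) ⊆ Metric.thickening δ E :=
    (Metric.thickening_thickening_subset _ _ _).trans (Metric.thickening_mono (by linarith) E)
  refine le_trans (ENNReal.ofReal_le_ofReal ?_) (h1.trans (measure_mono h3))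
  rw [mul_assoc]
  refine mul_le_mul_of_nonneg_left ?_ hc.le
  have h4 : (b : ℝ)⁻¹ ^ (N0 + 1) * δ ≤ ρ := by
    have e : ρ = (b : ℝ)⁻¹ ^ (N0 + 1) * (b : ℝ)⁻¹ ^ n := by
      rw [hρ, hL, ← pow_add]
      congr 1
      ring
    rw [e]
    gcongr
  have h5 : δ ^ ε ≤ δ ^ (ε / 2) :=
    Real.rpow_le_rpow_of_exponent_ge hδ0 hδ1.le (by linarith)
  calc ((b : ℝ)⁻¹ ^ (N0 + 1)) ^ (ε / 2) * δ ^ ε
      ≤ ((b : ℝ)⁻¹ ^ (N0 + 1)) ^ (ε / 2) * δ ^ (ε / 2) := by gcongr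
    _ = ((b : ℝ)⁻¹ ^ (N0 + 1) * δ) ^ (ε / 2) := by
        rw [Real.mul_rpow (by positivity) hδ0.le]
    _ ≤ ρ ^ (ε / 2) := by
        refine Real.rpow_le_rpow (by positivity) h4 (by positivity)

end Pool.Agent.Helper70.SK
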