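import Pool.Agent.Helper70.SK.Stmts

/-! Sticky Kakeya sets: combination of S2A and S2B, and of G1A and G1B. -/

namespace Pool.Agent.Helper70.SK

open Finset Pool.Agent.Helper70.DK

theorem st_S2 (h1 : ST_S2A) (h2 : ST_S2B) : ST_S2 := by
  intro m q ε2 hq hqm hε
  obtain ⟨δ2, hδ, H2⟩ := h2 m q ε2 hq hqm hε
  obtain ⟨η1, hη, H1⟩ := h1 m q δ2 hq hqm hδ
  refine ⟨η1, hη, ?_⟩
  intro B R κ D C hB hR hκ hD hC
  obtain ⟨W1, K1⟩ := H1 B R κ D C hB hR hκ hD hC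
  obtain ⟨W2, K2⟩ := H2 B R κ D hB hR hκ hD
  refine ⟨max W1 W2, ?_⟩
  intro W hW σ hσ k hk
  by_cases h : η1 * W * Real.log B ≤ σ.TW B k (k + W)
  · exact Or.inl h
  · right
    push Not at h
    have e1 := K1 W (le_trans (le_max_left _ _) hW) σ hσ k hk h
    exact K2 W (le_trans (le_max_right _ _) hW) σ C hσ k hk e1

theorem st_G1 (h1 : ST_G1A) (h2 : ST_G1B) : ST_G1 := by
  intro m q B R κ D hB hR hD
  obtain ⟨c1, hc1, H1⟩ := h1 m q B R κ D hB hR hD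
  obtain ⟨c2, hc2, H2⟩ := h2 m q B R κ D hB hR hD
  refine ⟨c1 + c2, by linarith, ?_⟩
  intro σ C Q k K g d j rep hσ hrep hkj hjK hK hQ hgd
  have e1 := H1 σ C Q k K g d j rep hσ hrep hkj hjK hK hQ (by linarith)
  have e2 := H2 σ C Q k K g d j rep hσ hrep hkj hjK hK hQ (by linarith)
  unfold Sy.Th
  linarith

end Pool.Agent.Helper70.SK
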