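import Pool.Agent.Helper11.SK.S4A
import Pool.Agent.Helper15.SK.S5U
import Pool.Agent.Helper30.SK.SUPP
import Pool.Agent.Helper31.SK.G1B
import Pool.Agent.Helper38.SK.COV
import Pool.Agent.Helper38.SK.S2BF
import Pool.Agent.Helper38.SK.LAY
import Pool.Agent.Helper38.SK.TR
import Pool.Agent.Helper41.SK.G1A
import Pool.Agent.Helper41.SK.S2A
import Pool.Agent.Helper42.SK.LINA
import Pool.Agent.Helper42.SK.REP
import Pool.Agent.Helper47.SK.S4D
import Pool.Agent.Helper51.SK.PIN
import Pool.Agent.Helper53.SK.REL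
import Pool.Agent.Helper60.SK.IND
import Pool.Agent.Helper60.SK.JB
import Pool.Agent.Helper60.SK.MIN
import Pool.Agent.Helper67.SK.COMB
import Pool.Agent.Helper67.SK.MINR
import Pool.Agent.Helper67.SK.PK
import Pool.Agent.Helper67.SK.SEL
import Pool.Agent.Helper68.SK.HH
import Pool.Agent.Helper72.SK.PARB
import Pool.Agent.Helper77.SK.LAG
import Pool.Agent.Helper78.SK.S5P
import Pool.Agent.Helper80.SK.S5
import Pool.Agent.Helper81.SK.ANTI
import Pool.Agent.Helper81.SK.ZO
import Pool.Agent.Helper82.SK.DET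
import Pool.Agent.Helper82.SK.SHIFT
import Pool.Agent.Helper84.SK.AFL
import Pool.Agent.Helper86.SK.GEO
import Pool.Agent.Helper86.SK.TH0
import Pool.Agent.Helper92.SK.LOWP
import Pool.Agent.Helper92.SK.UDOM
import Pool.Agent.Helper94.SK.S45
import Pool.Agent.Helper95.SK.FANO
import Pool.Agent.Helper97.SK.PARA
import Pool.Agent.Helper97.SK.TUP
import Pool.Agent.Helper70.SK.S2
import Pool.Agent.Helper70.SK.FINM

/-! Sticky Kakeya sets: full entropy at almost all heights. -/

namespace Pool.Agent.Helper70.SK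

open Finset Pool.Agent.Helper70.DK

theorem main_PARA : ST_PARA := st_PARA st_PK

theorem main_S4A : ST_S4A := st_S4A main_PARA st_PIN st_SHIFT st_FANO st_UDOM st_GEO

theorem main_S4D : ST_S4D := st_S4D main_S4A st_ANTI st_COMB main_PARA st_GEO

theorem main_S5 : ST_S5 := st_S5 (st_S5U st_GEO st_DET st_UDOM) (st_S5P st_GEO st_ZO st_DET) st_GEO st_ZO

theorem main_S45 : ST_S45 := st_S45 main_S4D main_S5 st_TR st_LAY

theorem main_S2 : ST_S2 :=
  st_S2 (st_S2A (st_TUP st_PK main_PARA st_GEO st_IND st_DET) st_SUPP (st_MINR st_LINA st_LAG st_GEO)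
    st_GEO st_IND) (st_S2B st_COV st_PK st_GEO st_IND st_DET)

theorem main_G1 : ST_G1 :=
  st_G1 (st_G1A st_DET st_IND st_GEO main_PARA) (st_G1B st_DET st_IND st_GEO main_PARA)

theorem main_FIN : ST_FIN :=
  st_FIN st_MIN st_LOWP st_SEL (st_HH st_GEO st_IND st_DET) st_REP main_S2 main_G1
    (st_TH0 st_GEO st_IND st_DET main_PARA) (st_JB main_PARA (st_PARB st_PK)) (st_REL st_GEO st_DET main_PARA)
    (st_AFL main_PARA st_FANO st_IND st_GEO) main_S45

theorem main_EQ0 (m : ℕ) : EQ m 0 := by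
  intro B R κ D C ε hB hR hκ hD hC hε
  refine ⟨0, fun σ _ L _ _ => ?_⟩
  have hl : 0 ≤ Real.log (B : ℝ) := Real.log_nonneg (by exact_mod_cast (by omega : 1 ≤ B))
  have h1 : 0 ≤ ∑ γ ∈ σ.G, σ.h B γ L := Finset.sum_nonneg fun γ _ => ent_nonneg _ _
  have h2 : 0 ≤ ε * L * Real.log B * σ.G.card := by positivity
  have h3 : (((0 : ℕ) : ℝ) - ε) * L * Real.log B * σ.G.card = -(ε * L * Real.log B * σ.G.card) := by
    push_cast
    ring
  rw [h3]
  linarith

theorem main_EQq (m : ℕ) : ∀ q : ℕ, q ≤ m → EQ m q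
  | 0, _ => main_EQ0 m
  | q + 1, h => main_FIN m q h (main_EQq m q (by omega))

/-- full entropy: the main statement -/
theorem main_EQ (m : ℕ) : EQ m m := main_EQq m m le_rfl

end Pool.Agent.Helper70.SK
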