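import Pool.Agent.Helper70.SK.Defs

/-! Sticky Kakeya sets, Minkowski dimension: statements of the modules (blueprint: /team-store/sk_blueprint.md). -/

namespace Pool.Agent.Helper70.SK

open Finset Pool.Agent.Helper70.DK MeasureTheory

/-! ### general modules -/

/-- (DET) entropy of the cells of `z` given the cells of `z'` and the approximate difference -/
def ST_DET : Prop :=
  (∀ (Ω ζ : Type) (q K : ℕ) (S : Finset Ω) (z z' : Ω → Fin q → ℤ) (Z : Ω → ζ) (w : ζ → Fin q → ℤ) (s : ℤ),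
    0 < s → (∀ ω ∈ S, ∀ r, |z ω r - z' ω r - w (Z ω) r| ≤ K * s) →
    cent S (fun ω r => z ω r / s) (fun ω => ((fun r => z' ω r / s), Z ω)) ≤ q * Real.log (2 * K + 3)) ∧
  (∀ (Ω ζ : Type) (q K : ℕ) (S : Finset Ω) (v v' : Ω → Fin q → ℝ) (Z : Ω → ζ) (w : ζ → Fin q → ℝ),
    (∀ ω ∈ S, ∀ r, |v ω r - v' ω r - w (Z ω) r| ≤ K) →
    cent S (fun ω => fl (v ω)) (fun ω => (fl (v' ω), Z ω)) ≤ q * Real.log (2 * K + 3)) ∧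
  (∀ (Ω ζ : Type) (q K : ℕ) (S : Finset Ω) (z : Ω → Fin q → ℤ) (Z : Ω → ζ) (w : ζ → Fin q → ℤ) (s : ℤ),
    0 < s → (∀ ω ∈ S, ∀ r, |z ω r - w (Z ω) r| ≤ K * s) →
    cent S (fun ω r => z ω r / s) Z ≤ q * Real.log (2 * K + 3))

/-- (IND) product spaces -/
def ST_IND : Prop :=
  (∀ (Ω1 Ω2 α β : Type) (S1 : Finset Ω1) (S2 : Finset Ω2) (f : Ω1 → α) (Z : Ω1 → β), S2.Nonempty →
    cent (S1 ×ˢ S2) (fun p => f p.1) (fun p => Z p.1) = cent S1 f Z ∧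
    cent (S1 ×ˢ S2) (fun p => f p.1) (fun p => (Z p.1, p.2)) = cent S1 f Z) ∧
  (∀ (Ω1 Ω2 α β : Type) (S1 : Finset Ω1) (S2 : Finset Ω2) (f : Ω2 → α) (Z : Ω2 → β), S1.Nonempty →
    cent (S1 ×ˢ S2) (fun p => f p.2) (fun p => Z p.2) = cent S2 f Z ∧
    cent (S1 ×ˢ S2) (fun p => f p.2) (fun p => (p.1, Z p.2)) = cent S2 f Z) ∧
  (∀ (Ω1 Ω2 α β ζ : Type) (S1 : Finset Ω1) (S2 : Finset Ω2) (c : Ω1 → β) (T : Ω2 → ζ) (f : β → Ω2 → α),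
    cent (S1 ×ˢ S2) (fun p => f (c p.1) p.2) (fun p => (T p.2, c p.1)) =
      cent (S1 ×ˢ S2) (fun p => f (c p.1) p.2) (fun p => (T p.2, p.1))) ∧
  (∀ (Ω1 Ω2 β : Type) (S1 : Finset Ω1) (S2 : Finset Ω2) (Z : Ω2 → β), S1.Nonempty → S2.Nonempty →
    cent (S1 ×ˢ S2) (fun p => p.1) (fun p => Z p.2) = Real.log S1.card)

open Classical in
/-- (PK) the enumeration of a finite set -/
def ST_PK : Prop :=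
  ∀ (Ω : Type) (F : Finset Ω) (N : ℕ) (d : Ω), F.Nonempty → F.card ∣ N →
    (∀ j, pk F j d ∈ F) ∧
    ∀ ω ∈ F, ((Finset.range N).filter (fun j => pk F j d = ω)).card * F.card = N

/-- (PARA) partner space: range, marginals, symmetry -/
def ST_PARA : Prop :=
  ∀ (m q B k K : ℕ) (σ : Sy m q),
    (∀ ω ∈ σ.Pa B, σ.x1 B k K ω ∈ σ.X B ∧ σ.ff B k K (ω.1.1.1, σ.x1 B k K ω) = σ.ff B k K ω.1.1) ∧
    (∀ (α : Type) (F : BS m q → α), ent (σ.Pa B) (fun ω => F (ω.1.1, ω.2)) = ent (σ.Om B) F) ∧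
    (∀ (α : Type) (F : BS m q → α),
      ent (σ.Pa B) (fun ω => F ((ω.1.1.1, σ.x1 B k K ω), ω.2)) = ent (σ.Om B) F) ∧
    (∀ (α : Type) (F : ℕ → (Fin m → ℤ) → (Fin m → ℤ) → (Fin q → ℤ) → α),
      ent (σ.Pa B) (fun ω => F ω.1.1.1 ω.1.1.2 (σ.x1 B k K ω) ω.2) =
        ent (σ.Pa B) (fun ω => F ω.1.1.1 (σ.x1 B k K ω) ω.1.1.2 ω.2)) ∧
    (∀ φ : BS m q → ℝ, (∑ ω ∈ σ.Pa B, φ (ω.1.1, ω.2)) * (σ.Om B).card = (∑ ω ∈ σ.Om B, φ ω) * (σ.Pa B).card ∧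
      (∑ ω ∈ σ.Pa B, φ ((ω.1.1.1, σ.x1 B k K ω), ω.2)) * (σ.Om B).card = (∑ ω ∈ σ.Om B, φ ω) * (σ.Pa B).card)

/-- (PARB) partner space: conditional independence of the two points given their common function -/
def ST_PARB : Prop :=
  ∀ (m q B k K : ℕ) (σ : Sy m q) (α β : Type) (F : BS m q → α) (F' : BS m q → β),
    ent (σ.Pa B) (fun ω => (F (ω.1.1, ω.2), F' ((ω.1.1.1, σ.x1 B k K ω), ω.2), σ.ff B k K ω.1.1, ω.2)) +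
      ent (σ.Pa B) (fun ω => (σ.ff B k K ω.1.1, ω.2)) =
    ent (σ.Pa B) (fun ω => (F (ω.1.1, ω.2), σ.ff B k K ω.1.1, ω.2)) +
      ent (σ.Pa B) (fun ω => (F' ((ω.1.1.1, σ.x1 B k K ω), ω.2), σ.ff B k K ω.1.1, ω.2))

/-- (PIN) average form of Pinsker's inequality -/
def ST_PIN : Prop :=
  ∀ (Ω α β ζ : Type) (S : Finset Ω) (F : Ω → α) (T : Ω → β) (Z : Ω → ζ), S.Nonempty →
    ∑ ω ∈ S, l1 (fib S (fun ω' => (T ω', Z ω')) (T ω, Z ω)) F (fib S Z (Z ω)) F ≤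
      S.card * (2 * Real.sqrt (cent S F Z - cent S F (fun ω => (T ω, Z ω))))

open Classical in
/-- (SHIFT) conditional laws of two functions that rarely differ -/
def ST_SHIFT : Prop :=
  ∀ (Ω α β : Type) (Z : Finset Ω) (F F' : Ω → α) (π : α → β),
    ∑ ω ∈ Z, l1 (fib Z (fun ω' => π (F ω')) (π (F ω))) F (fib Z (fun ω' => π (F' ω')) (π (F ω))) F' ≤
      4 * ((Z.filter (fun ω => F ω ≠ F' ω)).card : ℝ)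

/-- (FANO) entropy of the shifted cells of `z` given those of a nearby `z'`; probability that they differ -/
def ST_FANO : Prop :=
  ∀ (Ω : Type) (q M s : ℕ) (S : Finset Ω) (z z' : Ω → Fin q → ℤ) (ρ : ℝ), 0 < s → s ∣ M → 0 < M →
    0 < ρ → ρ ≤ s → (∀ ω ∈ S, ∀ r, |(z ω r : ℝ) - (z' ω r : ℝ)| ≤ ρ) →
    (∀ (ζ : Type) (Z : Ω × (Fin q → ℤ) → ζ),
      cent (S ×ˢ gr q M) (fun p r => (z p.1 r + p.2 r) / (s : ℤ))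
        (fun p => ((fun r => (z' p.1 r + p.2 r) / (s : ℤ)), Z p)) ≤ q * (ρ / s) * (Real.log (s / ρ) + 2)) ∧
    (((S ×ˢ gr q M).filter (fun p => ¬ ∀ r, (z p.1 r + p.2 r) / (s : ℤ) = (z' p.1 r + p.2 r) / (s : ℤ))).card : ℝ) ≤
      q * (ρ / s) * (S ×ˢ gr q M).card

/-- (UDOM) the corner of the cell containing a given point is uniformly distributed -/
def ST_UDOM : Prop :=
  ∀ (q M s : ℕ) (y v : Fin q → ℤ) (F : (Fin q → ℤ) → ℝ), 0 < s → s ∣ M →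
    ∑ u ∈ gr q M, F (fun r => (s : ℤ) * ((y r + v r + u r) / (s : ℤ)) - u r - v r) =
      ((M / s : ℕ) : ℝ) ^ q * ∑ S ∈ Bx (s : ℤ) y, F S

open Classical in
/-- (ANTI) entropy gives separation of pairs -/
def ST_ANTI : Prop :=
  ∀ (Ω α : Type) (q V : ℕ) (S : Finset Ω) (R : Ω → Fin q → ℤ) (Gf : Ω → α) (s : ℤ), S.Nonempty → 0 < s →
    2 ≤ V → (∀ c, ∃ F : Finset (Fin q → ℤ), F.card ≤ V ∧ ∀ ω ∈ S, Gf ω = c → (fun r => R ω r / s) ∈ F) →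
    cent S (fun ω r => R ω r / s) Gf ≤ (q + 1) * Real.log 3 + Real.log V *
      ((∑ ω ∈ S, (((fib S Gf (Gf ω)).filter (fun ω' => ∃ r, s ≤ |R ω' r - R ω r|)).card : ℝ) /
        ((fib S Gf (Gf ω)).card : ℝ)) / S.card)

open Classical in
/-- (COMB) from the comparison of the profiles `a` and `b` along the displacements `R` to the approximate
invariance of `b` under multiples of differences of displacements -/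
def ST_COMB : Prop :=
  ∀ (Ω α E : Type) (q : ℕ) (P : Finset Ω) (Gf : Ω → α) (y R : Ω → Fin q → ℤ) (a b : α → (Fin q → ℤ) → E)
    (d : E → E → ℝ) (s0 s1 s2 h : ℕ) (φ φ2 : ℝ), P.Nonempty → 0 < s1 → 0 < s2 → 0 < φ2 → 0 ≤ φ →
    (∀ x, d x x = 0) → (∀ x x', 0 ≤ d x x') → (∀ x x', d x x' = d x' x) → (∀ x x' x'', d x x'' ≤ d x x' + d x' x'') →
    (∀ ω ∈ P, ∀ ω' ∈ P, Gf ω = Gf ω' → ∀ r, |y ω r - y ω' r| < s1) →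
    (∑ ω ∈ P, ∑ S ∈ Bx (s0 : ℤ) (y ω), d (a (Gf ω) S) (b (Gf ω) (fun r => S r - R ω r)) ≤
      P.card * (s0 : ℝ) ^ q * φ) →
    ∑ ω ∈ P, (∑ ω' ∈ fib P Gf (Gf ω), if (∃ r, (s2 : ℤ) ≤ |R ω' r - R ω r|) then
      (((Fintype.piFinset (fun r => Finset.Icc (y ω r - R ω r - s0 + s1 + h) (y ω r - R ω r - s1 - h))).filter
        (fun S => ∃ j : ℕ, (∀ r, (j : ℤ) * |R ω' r - R ω r| ≤ h) ∧
          φ2 < d (b (Gf ω) S) (b (Gf ω) (fun r => S r - j * (R ω' r - R ω r))))).card : ℝ) else 0) /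
      ((fib P Gf (Gf ω)).card : ℝ) ≤ P.card * (s0 : ℝ) ^ q * (2 * φ * (h / (s2 * φ2)))

/-- (TR) approximate translation invariance and full entropy in its direction -/
def ST_TR : Prop :=
  ∀ q' : ℕ, ∃ c : ℝ, 0 ≤ c ∧
  ∀ (B e0 eh e1 e2 : ℕ) (Ω : Type) (Z : Finset Ω) (y : Ω → Fin (q' + 1) → ℤ) (S v : Fin (q' + 1) → ℤ)
    (φ2 φ3 : ℝ) (M : Matrix (Fin q') (Fin (q' + 1)) ℝ), 2 ≤ B → e2 ≤ e1 → e1 < eh → eh ≤ e0 → Frame M →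
    M.mulVec (fun r => (v r : ℝ)) = 0 → (∀ r, |v r| < (B : ℤ) ^ e1) → (∃ r, (B : ℤ) ^ e2 ≤ |v r|) →
    (Qb Z y ((B : ℤ) ^ e0) S).Nonempty →
    (∀ j : ℕ, (∀ r, (j : ℤ) * |v r| ≤ (B : ℤ) ^ eh) →
      dp Z y Z y ((B : ℤ) ^ e0) ((B : ℤ) ^ e2) S (fun r => S r - j * v r) ≤ φ2) →
    ((Ly Z y ((B : ℤ) ^ e0) ((B : ℤ) ^ eh) S).card : ℝ) ≤ φ3 * (Qb Z y ((B : ℤ) ^ e0) S).card →
    0 ≤ φ2 → 0 ≤ φ3 → φ2 + 2 * φ3 ≤ 1 →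
    ent (Qb Z y ((B : ℤ) ^ e0) S) (qf M y ((B : ℤ) ^ e1)) + ((eh : ℝ) - e1) * Real.log B - c -
      (φ2 + 2 * φ3) * ((q' + 1) * ((e0 : ℝ) - e1) * Real.log B + c) - Real.sqrt (φ2 + 2 * φ3) ≤
      ent (Qb Z y ((B : ℤ) ^ e0) S) (pf y ((B : ℤ) ^ e1) S)

/-- (LAY) the layers have small mass on average -/
def ST_LAY : Prop :=
  ∀ (Ω : Type) (q s h : ℕ) (Z : Finset Ω) (y : Ω → Fin q → ℤ) (φ3 : ℝ), 0 < s → 2 * h ≤ s → 0 < φ3 →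
    ∑ ω ∈ Z, (((Bx (s : ℤ) (y ω)).filter (fun S =>
      φ3 * ((Qb Z y s S).card : ℝ) < ((Ly Z y s h S).card : ℝ))).card : ℝ) ≤
      Z.card * (s : ℝ) ^ q * (4 * q * 2 ^ q * h / (s * φ3))

/-- (SUPP) the fibres of `v` contain many heights if `v` carries little information on `γ` -/
def ST_SUPP : Prop :=
  ∀ (Ω α : Type) (S : Finset Ω) (γ : Ω → ℕ) (v : Ω → α) (G : Finset ℕ) (D0 : ℝ), S.Nonempty →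
    (∀ ω ∈ S, γ ω ∈ G) → 0 < D0 →
    ((S.filter (fun ω => (((fib S v (v ω)).image γ).card : ℝ) < Real.exp (-D0) * G.card)).card : ℝ) * D0 ≤
      S.card * (Real.log G.card - cent S γ v)

/-! ### linear algebra -/

/-- (LINA) vectors almost in the kernel of a nondegenerate matrix have small minors -/
def ST_LINA : Prop :=
  ∀ (m q p : ℕ) (N : Matrix (Fin q) (Fin m) ℝ) (V : Matrix (Fin m) (Fin p) ℝ) (lam Mx ε0 : ℝ), m < p + q →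
    1 ≤ p → 0 < lam → 0 ≤ Mx → 0 ≤ ε0 →
    (∀ v : Fin q → ℝ, lam * ∑ r, v r ^ 2 ≤ ∑ c, (∑ r, v r * N r c) ^ 2) → (∀ c i, |V c i| ≤ Mx) →
    (∀ r i, |(N * V) r i| ≤ ε0) → ∀ I : Fin p → Fin m,
      |(V.submatrix I id).det| ≤ p.factorial * Mx ^ (p - 1) * (p * Real.sqrt q * ε0 / Real.sqrt lam)

/-- (LAG) leading coefficient by interpolation -/
def ST_LAG : Prop :=
  ∀ (p : ℕ) (P : Polynomial ℝ) (t : Fin (p + 1) → ℝ) (sep b : ℝ), P.natDegree ≤ p → 0 < sep →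
    (∀ l l', l ≠ l' → sep ≤ |t l - t l'|) → (∀ l, |P.eval (t l)| ≤ b) → |P.coeff p| * sep ^ p ≤ (p + 1) * b

/-- (MINR) grid points whose images meet at `p + 1` separated heights have small minors -/
def ST_MINR : Prop :=
  ∀ (m q p B : ℕ) (R κ D K' : ℝ), 1 ≤ q → q ≤ m → p = m - q + 1 → 2 ≤ B → 0 ≤ R → 0 < κ → 0 ≤ D → 0 ≤ K' →
  ∃ c : ℝ, 0 ≤ c ∧ ∀ (σ : Sy m q) (C : ℝ), σ.Ok B R κ D C → ∀ k W j0 : ℕ, k + W ≤ σ.n → j0 ≤ σ.n →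
  ∀ (x : Fin (p + 1) → Fin m → ℤ) (γ : Fin (p + 1) → ℕ),
    (∀ i, x i ∈ σ.X B ∧ σ.tr B k (x i) = σ.tr B k (x 0)) → (∀ l, γ l ∈ σ.G) →
    (∀ l l', l ≠ l' → (B : ℤ) ^ (σ.a3 - j0) ≤ |σ.t (γ l) - σ.t (γ l')|) →
    (∀ l i r, |(σ.Y B (γ l) (x i) r : ℝ) - (σ.Y B (γ l) (x 0) r : ℝ)| ≤ K' * (B : ℝ) ^ σ.e (k + W)) →
    ∀ I : Fin p → Fin m, |((Matrix.of fun i j : Fin p => ((x i.succ (I j) - x 0 (I j) : ℤ) : ℝ)).det)| *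
      (B : ℝ) ^ W ≤ c * (B : ℝ) ^ ((σ.n - k) * p) * (B : ℝ) ^ (p * j0)

/-- (COV) if the determinants of most `p`-tuples are small then most points lie in few cells -/
def ST_COV : Prop :=
  ∀ m p : ℕ, 1 ≤ p → ∃ Cm : ℕ, ∀ (Ω : Type) (Z : Finset Ω) (ξ : Ω → Fin m → ℤ) (M s : ℕ) (δ : ℝ),
    Z.Nonempty → 0 < s → s ≤ M → 0 < δ → (∀ ω ∈ Z, ∀ c, |ξ ω c| ≤ M) →
    (((Fintype.piFinset (fun _ : Fin p => Z)).filter (fun z => ∃ I : Fin p → Fin m,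
      (s : ℤ) ^ p < |(Matrix.of fun i j : Fin p => ξ (z i) (I j)).det|)).card : ℝ) < (δ * Z.card) ^ p →
    ∃ Z0 ⊆ Z, (1 - δ) * Z.card ≤ Z0.card ∧
      (Z0.image (fun ω c => ξ ω c / (s : ℤ))).card ≤ Cm * (M / s + 1) ^ (p - 1)

/-! ### systems -/

/-- (GEO) geometry of the cells -/
def ST_GEO : Prop :=
  ∀ (m q B : ℕ) (R κ D C : ℝ) (σ : Sy m q), 2 ≤ B → 0 ≤ R → 0 ≤ D → σ.Ok B R κ D C →
    (∀ γ ∈ σ.G, ∀ k ≤ σ.n, ∀ x ∈ σ.X B, ∀ x' ∈ σ.X B, σ.tr B k x = σ.tr B k x' → ∀ r,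
      |(σ.Y B γ x r : ℝ) - (σ.Y B γ x' r : ℝ)| ≤ m * D * (R + 1) * (B : ℝ) ^ σ.e k) ∧
    (∀ (Q : ℕ) (rep : ℕ → ℕ), Q ≤ σ.n → σ.Rep B Q rep → ∀ γ ∈ σ.G, ∀ k ≤ σ.n, ∀ x ∈ σ.X B, ∀ x' ∈ σ.X B,
      σ.tr B k x = σ.tr B k x' → ∀ r,
      |((σ.Y B γ x r : ℝ) - (σ.Y B γ x' r : ℝ)) - ((σ.Y B (rep γ) x r : ℝ) - (σ.Y B (rep γ) x' r : ℝ))| ≤
        m * (R + 1 + D) * (B : ℝ) ^ σ.e k / (B : ℝ) ^ Q) ∧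
    (∀ k ≤ σ.n, ∀ x ∈ σ.X B, σ.co B k x ∈ σ.X B ∧ σ.tr B k (σ.co B k x) = σ.tr B k x ∧
      (∀ c, 0 ≤ σ.tr B k x c ∧ σ.tr B k x c < (B : ℤ) ^ k) ∧
      (∀ c, 0 ≤ x c - σ.co B k x c ∧ x c - σ.co B k x c < (B : ℤ) ^ (σ.n - k))) ∧
    (∀ k k' : ℕ, k ≤ k' → k' ≤ σ.n → ∀ x, σ.tr B k x = cl B (k' - k) (σ.tr B k' x))

/-- (HH) the entropies `hh` -/
def ST_HH : Prop :=
  ∀ (m q B : ℕ) (R κ D : ℝ), 2 ≤ B → 0 ≤ R → 0 ≤ D → ∃ c0 : ℝ, 0 ≤ c0 ∧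
  ∀ (σ : Sy m q) (C : ℝ), σ.Ok B R κ D C →
    (∀ k l, 0 ≤ σ.hh B k l) ∧
    (∀ k l, l + 1 ≤ σ.n → σ.hh B k l ≤ σ.hh B k (l + 1) ∧ σ.hh B k (l + 1) ≤ σ.hh B k l + q * Real.log B) ∧
    (∀ k k' l, k ≤ k' → k' ≤ σ.n → l + 1 ≤ σ.n →
      σ.hh B k' (l + 1) - σ.hh B k' l ≤ σ.hh B k (l + 1) - σ.hh B k l) ∧
    (∀ k k' l, k ≤ k' → k' ≤ σ.n → σ.hh B k' l ≤ σ.hh B k l) ∧
    (∀ k ≤ σ.n, σ.hh B k k ≤ c0) ∧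
    (∀ L ≤ σ.n, σ.G.card * σ.hh B 0 L ≤ (∑ γ ∈ σ.G, σ.h B γ L) + σ.G.card * c0)

/-- (REP) few classes of heights -/
def ST_REP : Prop :=
  ∀ (m q B Q : ℕ) (D : ℝ), 2 ≤ B → 0 ≤ D → ∃ V : ℕ, 1 ≤ V ∧ ∀ (σ : Sy m q) (R κ C : ℝ), σ.Ok B R κ D C →
    Q ≤ σ.n → ∃ rep : ℕ → ℕ, σ.Rep B Q rep ∧ (σ.G.image rep).card ≤ V

/-- (ZO) magnification -/
def ST_ZO : Prop :=
  ∀ (m q B : ℕ) (R κ D C : ℝ) (σ : Sy m q), 2 ≤ B → σ.Ok B R κ D C → ∀ k ≤ σ.n, ∀ T ∈ gr m (B ^ k),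
    (σ.zo B k T).Ok B R κ D C ∧
    (∀ l, (σ.zo B k T).e l = σ.e (k + l)) ∧
    Set.BijOn (fun z : Fin m → ℤ => (fun c => (B : ℤ) ^ (σ.n - k) * T c + z c))
      ((σ.zo B k T).X B) (σ.Zt B k T) ∧
    (∀ γ, ∀ z ∈ (σ.zo B k T).X B, ∀ r, (σ.zo B k T).Y B γ z r =
      σ.Y B γ (fun c => (B : ℤ) ^ (σ.n - k) * T c + z c) r - σ.Y B γ (fun c => (B : ℤ) ^ (σ.n - k) * T c) r)

/-! ### information of pairs on the height -/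

/-- tuple space -/
noncomputable def Sy.Pt {m q : ℕ} (σ : Sy m q) (B p : ℕ) : Finset ((ℕ × (Fin m → ℤ)) × (Fin p → ℕ)) :=
  σ.GX B ×ˢ Fintype.piFinset (fun _ : Fin p => Finset.range (σ.N0 B))

/-- the point and its `p` partners -/
noncomputable def Sy.xt {m q : ℕ} (σ : Sy m q) (B k K p : ℕ) (ω : (ℕ × (Fin m → ℤ)) × (Fin p → ℕ)) :
    Fin (p + 1) → Fin m → ℤ :=
  Fin.cons ω.1.2 (fun i : Fin p => (σ.pa B k K ω.1 (ω.2 i)).2)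

/-- the minors of the differences of the corners (level `K`) of the tuple are small -/
def Sy.Gt {m q : ℕ} (σ : Sy m q) (B k K p : ℕ) (ω : (ℕ × (Fin m → ℤ)) × (Fin p → ℕ)) : Prop :=
  ∀ I : Fin p → Fin m, |(Matrix.of fun i j : Fin p =>
    σ.co B K (σ.xt B k K p ω i.succ) (I j) - σ.co B K (σ.xt B k K p ω 0) (I j)).det| *
      (B : ℤ) ^ ((K - k) / 2) ≤ (B : ℤ) ^ ((σ.n - k) * p)

/-- (TUP) information of tuples and of pairs -/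
def ST_TUP : Prop :=
  ∀ (m q p B : ℕ) (R κ D : ℝ), 1 ≤ p → 2 ≤ B → 0 ≤ R → 0 ≤ D → ∃ c0 : ℝ, 0 ≤ c0 ∧
  ∀ (σ : Sy m q) (C : ℝ), σ.Ok B R κ D C → ∀ k K, k ≤ K → K ≤ σ.n →
    cent (σ.Pt B p) (fun ω i => σ.tr B K (σ.xt B k K p ω i)) (fun ω => σ.tr B k ω.1.2) -
    cent (σ.Pt B p) (fun ω i => σ.tr B K (σ.xt B k K p ω i)) (fun ω => (ω.1.1, σ.tr B k ω.1.2)) ≤
      p * (σ.TW B k K + c0)

open Classical in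
/-- (S2A) little information of pairs: the minors of most tuples are small -/
def ST_S2A : Prop :=
  ∀ (m q : ℕ) (δ2 : ℝ), 1 ≤ q → q ≤ m → 0 < δ2 → ∃ η1 : ℝ, 0 < η1 ∧
  ∀ (B : ℕ) (R κ D C : ℝ), 2 ≤ B → 0 ≤ R → 0 < κ → 0 ≤ D → 0 ≤ C → ∃ W0 : ℕ, ∀ W, W0 ≤ W →
  ∀ σ : Sy m q, σ.Ok B R κ D C → ∀ k, k + W ≤ σ.n → σ.TW B k (k + W) < η1 * W * Real.log B →
    (((σ.Pt B (m - q + 1)).filter (fun ω => ¬ σ.Gt B k (k + W) (m - q + 1) ω)).card : ℝ) ≤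
      δ2 * (σ.Pt B (m - q + 1)).card

open Classical in
/-- (S2B) small minors for most tuples: `Y` determines the first digits up to dimension `m - q` -/
def ST_S2B : Prop :=
  ∀ (m q : ℕ) (ε2 : ℝ), 1 ≤ q → q ≤ m → 0 < ε2 → ∃ δ2 : ℝ, 0 < δ2 ∧
  ∀ (B : ℕ) (R κ D : ℝ), 2 ≤ B → 0 ≤ R → 0 < κ → 0 ≤ D → ∃ W0 : ℕ, ∀ W, W0 ≤ W →
  ∀ (σ : Sy m q) (C : ℝ), σ.Ok B R κ D C → ∀ k, k + W ≤ σ.n →
    (((σ.Pt B (m - q + 1)).filter (fun ω => ¬ σ.Gt B k (k + W) (m - q + 1) ω)).card : ℝ) ≤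
      δ2 * (σ.Pt B (m - q + 1)).card →
    ((q : ℝ) - ε2) * ((W / (4 * m) : ℕ) : ℝ) * Real.log B ≤
      σ.hh B k (k + W) - σ.hh B (k + W / (4 * m)) (k + W)

/-- (S2) alternative for every level -/
def ST_S2 : Prop :=
  ∀ (m q : ℕ) (ε2 : ℝ), 1 ≤ q → q ≤ m → 0 < ε2 → ∃ η1 : ℝ, 0 < η1 ∧
  ∀ (B : ℕ) (R κ D C : ℝ), 2 ≤ B → 0 ≤ R → 0 < κ → 0 ≤ D → 0 ≤ C → ∃ W0 : ℕ, ∀ W, W0 ≤ W →
  ∀ σ : Sy m q, σ.Ok B R κ D C → ∀ k, k + W ≤ σ.n →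
    η1 * W * Real.log B ≤ σ.TW B k (k + W) ∨
    ((q : ℝ) - ε2) * ((W / (4 * m) : ℕ) : ℝ) * Real.log B ≤
      σ.hh B k (k + W) - σ.hh B (k + W / (4 * m)) (k + W)

/-! ### growth of the information -/

/-- (G1A) -/
def ST_G1A : Prop :=
  ∀ (m q B : ℕ) (R κ D : ℝ), 2 ≤ B → 0 ≤ R → 0 ≤ D → ∃ c1 : ℝ, 0 ≤ c1 ∧
  ∀ (σ : Sy m q) (C : ℝ) (Q k K g d j : ℕ) (rep : ℕ → ℕ), σ.Ok B R κ D C → σ.Rep B Q rep → k ≤ j →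
    j + g + d ≤ K → K ≤ σ.n → Q ≤ σ.n → (g : ℝ) + d + c1 ≤ Q →
    cent (σ.Pa B) (fun ω => (σ.tr B (j + d) ω.1.1.2, σ.tr B (j + d) (σ.x1 B k K ω),
        cl B (σ.e (j + d + g)) (σ.yc B (j + d) (rep ω.1.1.1) ω.1.1.2))) (fun ω => (rep ω.1.1.1, σ.tr B k ω.1.1.2)) -
    cent (σ.Pa B) (fun ω => (σ.tr B j ω.1.1.2, σ.tr B j (σ.x1 B k K ω),
        cl B (σ.e (j + g)) (σ.yc B j (rep ω.1.1.1) ω.1.1.2))) (fun ω => (rep ω.1.1.1, σ.tr B k ω.1.1.2)) ≤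
    σ.HR B rep k K g d j + (σ.hh B j (j + g + d) - σ.hh B j (j + g)) +
      2 * cent (σ.Om B) (fun ω => σ.tr B (j + d) ω.1.2)
        (fun ω => (σ.C B (j + g + d) ω, σ.tr B j ω.1.2, ω.1.1, ω.2)) + c1

/-- (G1B) -/
def ST_G1B : Prop :=
  ∀ (m q B : ℕ) (R κ D : ℝ), 2 ≤ B → 0 ≤ R → 0 ≤ D → ∃ c1 : ℝ, 0 ≤ c1 ∧
  ∀ (σ : Sy m q) (C : ℝ) (Q k K g d j : ℕ) (rep : ℕ → ℕ), σ.Ok B R κ D C → σ.Rep B Q rep → k ≤ j →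
    j + g + d ≤ K → K ≤ σ.n → Q ≤ σ.n → (g : ℝ) + d + c1 ≤ Q →
    (σ.hh B j (j + g + d) - σ.hh B j (j + g)) +
      2 * cent (σ.Om B) (fun ω => σ.tr B (j + d) ω.1.2)
        (fun ω => (σ.C B (j + g + d) ω, σ.tr B j ω.1.2, ω.1.1, ω.2)) -
      ((σ.hh B k (j + g + d) - σ.hh B k (j + g)) - (σ.hh B j (j + g + d) - σ.hh B j (j + g))) -
      (σ.Jj B k K (j + d) (j + d + g) - σ.Jj B k K j (j + g)) - c1 ≤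
    cent (σ.Pa B) (fun ω => (σ.tr B (j + d) ω.1.1.2, σ.tr B (j + d) (σ.x1 B k K ω),
        cl B (σ.e (j + d + g)) (σ.yc B (j + d) (rep ω.1.1.1) ω.1.1.2))) (fun ω => (ω.1.1.1, σ.tr B k ω.1.1.2)) -
    cent (σ.Pa B) (fun ω => (σ.tr B j ω.1.1.2, σ.tr B j (σ.x1 B k K ω),
        cl B (σ.e (j + g)) (σ.yc B j (rep ω.1.1.1) ω.1.1.2))) (fun ω => (ω.1.1.1, σ.tr B k ω.1.1.2))

/-- (G1) increments of the information -/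
def ST_G1 : Prop :=
  ∀ (m q B : ℕ) (R κ D : ℝ), 2 ≤ B → 0 ≤ R → 0 ≤ D → ∃ c1 : ℝ, 0 ≤ c1 ∧
  ∀ (σ : Sy m q) (C : ℝ) (Q k K g d j : ℕ) (rep : ℕ → ℕ), σ.Ok B R κ D C → σ.Rep B Q rep → k ≤ j →
    j + g + d ≤ K → K ≤ σ.n → Q ≤ σ.n → (g : ℝ) + d + c1 ≤ Q →
    σ.Th B rep k K g (j + d) - σ.Th B rep k K g j ≤ σ.HR B rep k K g d j +
      ((σ.hh B k (j + g + d) - σ.hh B k (j + g)) - (σ.hh B j (j + g + d) - σ.hh B j (j + g))) +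
      (σ.Jj B k K (j + d) (j + d + g) - σ.Jj B k K j (j + g)) + c1

/-- (TH0) upper and lower bounds for the information -/
def ST_TH0 : Prop :=
  ∀ (m q B : ℕ) (R κ D : ℝ), 2 ≤ B → 0 ≤ R → 0 ≤ D → ∃ c1 : ℝ, 0 ≤ c1 ∧
  ∀ (σ : Sy m q) (C : ℝ) (V k K g : ℕ) (rep : ℕ → ℕ), σ.Ok B R κ D C → (∀ γ ∈ σ.G, rep γ ∈ σ.G) →
    k ≤ K → K ≤ σ.n → (σ.G.image rep).card ≤ V → 1 ≤ V →
    (∀ i, k + i + g ≤ K → σ.Th B rep k K g (k + i) ≤ (2 * m * i + q * g) * Real.log B + c1) ∧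
    (∀ j, k ≤ j → j + g ≤ K →
      σ.TW B k K - 2 * m * ((K : ℝ) - j) * Real.log B - Real.log V ≤ σ.Th B rep k K g j)

/-- (JB) the mutual informations of the two points -/
def ST_JB : Prop :=
  ∀ (m q B : ℕ) (R κ D C : ℝ) (σ : Sy m q), 2 ≤ B → 0 ≤ R → 0 ≤ D → σ.Ok B R κ D C → ∀ k K, k ≤ K → K ≤ σ.n →
    (∀ i l, 0 ≤ σ.Jj B k K i l) ∧
    (∀ i i' l, i ≤ i' → i' ≤ σ.n → σ.Jj B k K i l ≤ σ.Jj B k K i' l) ∧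
    (∀ i l, l ≤ K → σ.Jj B k K i l ≤ q * ((K : ℝ) - l) * Real.log B)

/-- (REL) the displacements of level `i` and of level `l1` -/
def ST_REL : Prop :=
  ∀ (m q B : ℕ) (R κ D : ℝ), 2 ≤ B → 0 ≤ R → 0 ≤ D → ∃ c1 : ℝ, 0 ≤ c1 ∧
  ∀ (σ : Sy m q) (C : ℝ) (Q k K g d i l1 : ℕ) (rep : ℕ → ℕ), σ.Ok B R κ D C → σ.Rep B Q rep → k ≤ i → i ≤ l1 →
    l1 + g + d ≤ K → K ≤ σ.n → Q ≤ σ.n → ((l1 + g + d : ℕ) : ℝ) - i + c1 ≤ Q →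
    σ.HR B rep k K g d l1 - c1 ≤ σ.hr B rep k K i l1 (l1 + g + d) ∧
    σ.HR B rep k K g d l1 ≤ q * ((g : ℝ) + d) * Real.log B + c1 ∧
    σ.hr B rep k K i l1 (l1 + g + d) ≤ q * ((g : ℝ) + d) * Real.log B

/-- (AFL) the information `af` -/
def ST_AFL : Prop :=
  ∀ (m q B : ℕ) (R κ D C : ℝ) (σ : Sy m q), 2 ≤ B → 0 ≤ R → 0 ≤ D → σ.Ok B R κ D C →
    ∀ k K i l0 l2 : ℕ, k ≤ i → i ≤ l0 → l0 ≤ l2 → l2 ≤ K → K ≤ σ.n →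
    0 ≤ σ.af B k K i l0 l2 ∧
    σ.af B k K i l0 l2 ≤ ((σ.hh B k l2 - σ.hh B k l0) - (σ.hh B i l2 - σ.hh B i l0)) +
      (σ.Jj B k K i l2 - σ.Jj B k K i l0) +
      4 * q * ((((K : ℝ) - l2) * Real.log B + 2) / (B : ℝ) ^ (K - l2))

/-! ### saturation -/

/-- (S4A) comparison of the profiles of the two points -/
def ST_S4A : Prop :=
  ∀ (m q B : ℕ) (R κ D : ℝ), 2 ≤ B → 0 ≤ R → 0 ≤ D → ∃ c4 : ℝ, 0 ≤ c4 ∧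
  ∀ (σ : Sy m q) (C : ℝ) (Q k K i l0 l2 : ℕ) (rep : ℕ → ℕ), σ.Ok B R κ D C → σ.Rep B Q rep → k ≤ i → i ≤ l0 →
    l0 ≤ l2 → l2 ≤ K → K ≤ σ.n → Q ≤ σ.n →
    ∑ ω ∈ σ.Pa B, ∑ S ∈ Bx ((B : ℤ) ^ σ.e l0) (σ.yc B i (rep ω.1.1.1) ω.1.1.2),
      dp (σ.Zt B i (σ.tr B i ω.1.1.2)) (σ.yc B i (rep ω.1.1.1))
        (σ.Zt B i (σ.tr B i (σ.x1 B k K ω))) (σ.yc B i (rep ω.1.1.1))
        ((B : ℤ) ^ σ.e l0) ((B : ℤ) ^ σ.e l2) S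
        (fun r => S r - σ.Rd B i ω.1.1.1 ω.1.1.2 (σ.x1 B k K ω) r) ≤
      (σ.Pa B).card * ((B : ℝ) ^ σ.e l0) ^ q * (4 * Real.sqrt (σ.af B k K i l0 l2) +
        c4 * ((B : ℝ) ^ l2 / (B : ℝ) ^ (i + Q) + (B : ℝ) ^ l2 / (B : ℝ) ^ K))

open Classical in
/-- fraction of the pairs (point, corner of a cube containing it) with the property `P` -/
noncomputable def Sy.zz {m q : ℕ} (σ : Sy m q) (B i l0 : ℕ) (rep : ℕ → ℕ)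
    (P : (Fin m → ℤ) → ℕ → (Fin q → ℤ) → Prop) : ℝ :=
  (∑ z ∈ σ.GX B, (((Bx ((B : ℤ) ^ σ.e l0) (σ.yc B i (rep z.1) z.2)).filter
    (fun S => P (σ.tr B i z.2) (rep z.1) S)).card : ℝ)) / ((σ.GX B).card * ((B : ℝ) ^ σ.e l0) ^ q)

/-- (S4D) many cubes are approximately invariant -/
def ST_S4D : Prop :=
  ∀ (m q B : ℕ) (R κ D : ℝ), 1 ≤ q → 2 ≤ B → 0 ≤ R → 0 ≤ D → ∃ c4 : ℝ, 0 ≤ c4 ∧
  ∀ (σ : Sy m q) (C : ℝ) (Q k K i l0 lh l1 l2 : ℕ) (rep : ℕ → ℕ) (φ2 : ℝ), σ.Ok B R κ D C → σ.Rep B Q rep →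
    k ≤ i → i ≤ l0 → l0 ≤ lh → lh ≤ l1 → l1 < l2 → l2 ≤ K → K ≤ σ.n → Q ≤ σ.n → (l1 : ℝ) - i + c4 ≤ Q →
    0 < φ2 →
    (σ.hr B rep k K i l1 l2 - (q + 1) * Real.log 3) / (q * ((l2 : ℝ) - l1) * Real.log B) -
      c4 * (1 / (B : ℝ) ^ (l1 - l0) + 1 / (B : ℝ) ^ (lh - l0)) -
      2 * (4 * Real.sqrt (σ.af B k K i l0 l2) +
        c4 * ((B : ℝ) ^ l2 / (B : ℝ) ^ (i + Q) + (B : ℝ) ^ l2 / (B : ℝ) ^ K)) * (B : ℝ) ^ (l2 - lh) / φ2 ≤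
    σ.zz B i l0 rep (σ.Sv B i l0 lh l1 l2 φ2)

/-- (S5U) lower bound of the entropy increment by the entropies in the cubes -/
def ST_S5U : Prop :=
  ∀ (m q B : ℕ) (R κ D : ℝ), 2 ≤ B → 0 ≤ R → 0 ≤ D → ∃ c5 : ℝ, 0 ≤ c5 ∧
  ∀ (σ : Sy m q) (C : ℝ) (Q i l0 l1 : ℕ) (rep : ℕ → ℕ), σ.Ok B R κ D C → σ.Rep B Q rep → i ≤ l0 → l0 ≤ l1 →
    l1 ≤ σ.n → Q ≤ σ.n → (l1 : ℝ) - i + c5 ≤ Q →
    (∑ z ∈ σ.GX B, ∑ S ∈ Bx ((B : ℤ) ^ σ.e l0) (σ.yc B i (rep z.1) z.2),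
      ent (Qb (σ.Zt B i (σ.tr B i z.2)) (σ.yc B i (rep z.1)) ((B : ℤ) ^ σ.e l0) S)
        (pf (σ.yc B i (rep z.1)) ((B : ℤ) ^ σ.e l1) S)) / ((σ.GX B).card * ((B : ℝ) ^ σ.e l0) ^ q) - c5 ≤
    σ.hh B i l1 - σ.hh B i l0

open Classical in
/-- (S5P) the bound for a fixed small tube -/
def ST_S5P : Prop :=
  ∀ (m q' B : ℕ) (R κ D C e ε : ℝ), EQ m q' → LowP m (q' + 1) B R κ D e → 2 ≤ B → 0 ≤ R → 0 < κ → 0 ≤ D →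
    0 ≤ C → 0 ≤ e → e ≤ q' + 1 → 0 < ε → ∃ L1 : ℕ,
  ∀ (σ : Sy m (q' + 1)) (Q i l3 l1 : ℕ) (rep : ℕ → ℕ), σ.Ok B R κ D C → σ.Rep B Q rep → i ≤ l3 → l3 + L1 ≤ l1 →
    l1 ≤ σ.n → Q ≤ σ.n → l1 + L1 ≤ i + Q →
  ∀ x0 ∈ σ.X B, ∀ (sat : ℕ → Prop) (M : ℕ → Matrix (Fin q') (Fin (q' + 1)) ℝ) (S : ℕ → Fin (q' + 1) → ℤ),
    (∀ γ, Frame (M γ)) →
    (e * σ.G.card + (q' + 1 - e) * ((σ.G.filter sat).card : ℝ) - ε * σ.G.card) * (((l1 : ℝ) - l3) * Real.log B) ≤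
    ∑ γ ∈ σ.G, if sat γ then ent (σ.Zt B l3 (σ.tr B l3 x0)) (qf (M γ) (σ.yc B i (rep γ)) ((B : ℤ) ^ σ.e l1)) +
        ((l1 : ℝ) - l3) * Real.log B
      else ent (σ.Zt B l3 (σ.tr B l3 x0)) (pf (σ.yc B i (rep γ)) ((B : ℤ) ^ σ.e l1) (S γ))

/-- (S5) the entropy increment with a set of saturated cubes -/
def ST_S5 : Prop :=
  ∀ (m q' B : ℕ) (R κ D C e ε : ℝ), EQ m q' → LowP m (q' + 1) B R κ D e → 2 ≤ B → 0 ≤ R → 0 < κ → 0 ≤ D →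
    0 ≤ C → 0 ≤ e → e ≤ q' + 1 → 0 < ε → ∃ L1 : ℕ,
  ∀ (σ : Sy m (q' + 1)) (Q i l0 l1 : ℕ) (rep : ℕ → ℕ), σ.Ok B R κ D C → σ.Rep B Q rep → i ≤ l0 → l0 + L1 ≤ l1 →
    l1 ≤ σ.n → Q ≤ σ.n → l1 + L1 ≤ i + Q →
  ∀ P : (Fin m → ℤ) → ℕ → (Fin (q' + 1) → ℤ) → Prop,
    (∀ τ c S, P τ c S → ∃ M : Matrix (Fin q') (Fin (q' + 1)) ℝ, Frame M ∧
      ent (Qb (σ.Zt B i τ) (σ.yc B i c) ((B : ℤ) ^ σ.e l0) S) (qf M (σ.yc B i c) ((B : ℤ) ^ σ.e l1)) +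
        (1 - ε / 4) * (((l1 : ℝ) - l0) * Real.log B) ≤
      ent (Qb (σ.Zt B i τ) (σ.yc B i c) ((B : ℤ) ^ σ.e l0) S) (pf (σ.yc B i c) ((B : ℤ) ^ σ.e l1) S)) →
    (e + (q' + 1 - e) * σ.zz B i l0 rep P - ε) * (((l1 : ℝ) - l0) * Real.log B) ≤ σ.hh B i l1 - σ.hh B i l0

/-- (S45) the entropy increment under small `af` -/
def ST_S45 : Prop :=
  ∀ (m q' B : ℕ) (R κ D : ℝ), 2 ≤ B → 0 ≤ R → 0 < κ → 0 ≤ D → ∃ c6 : ℝ, 0 ≤ c6 ∧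
  ∀ C e ε : ℝ, EQ m q' → LowP m (q' + 1) B R κ D e → 0 ≤ C → 0 ≤ e → e ≤ q' + 1 → 0 < ε →
  ∀ D1 : ℕ, 1 ≤ D1 → ∃ L1 : ℕ, ∀ W1, L1 ≤ W1 → ∃ (δ : ℝ) (r0 : ℕ), 0 < δ ∧
  ∀ (σ : Sy m (q' + 1)) (Q k K i l0 : ℕ) (rep : ℕ → ℕ), σ.Ok B R κ D C → σ.Rep B Q rep → k ≤ i → i ≤ l0 →
    l0 + W1 + D1 + r0 ≤ K → K ≤ σ.n → Q ≤ σ.n → l0 + W1 + D1 + r0 ≤ i + Q →
    (e - ε) * (W1 * Real.log B) ≤ σ.hh B i (l0 + W1) - σ.hh B i l0 ∧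
    (σ.af B k K i l0 (l0 + W1 + D1) ≤ δ →
      (e - ε + (q' + 1 - e) * ((σ.hr B rep k K i (l0 + W1) (l0 + W1 + D1) - c6) / ((q' + 1) * D1 * Real.log B))) *
        (W1 * Real.log B) ≤ σ.hh B i (l0 + W1) - σ.hh B i l0)

/-! ### final part -/

/-- (MIN) the minimal rate -/
def ST_MIN : Prop :=
  ∀ m q : ℕ, ¬ EQ m q → ∃ (B : ℕ) (R κ D e : ℝ), 2 ≤ B ∧ 0 ≤ R ∧ 0 < κ ∧ 0 ≤ D ∧ 0 ≤ e ∧ e < q ∧
    Low m q B R κ D e ∧ Near m q B R κ D e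

/-- (LOWP) the lower bound holds for all but few heights -/
def ST_LOWP : Prop :=
  ∀ (m q B : ℕ) (R κ D e : ℝ), Low m q B R κ D e → LowP m q B R κ D e

/-- (SEL) limit profile of a sequence of arrays -/
def ST_SEL : Prop :=
  ∀ (M E c : ℝ) (K : ℕ → ℕ) (h : ℕ → ℕ → ℕ → ℝ), 0 ≤ M → 0 ≤ c → (∀ n, n ≤ K n) →
    (∀ n k l, l + 1 ≤ K n → k ≤ K n → 0 ≤ h n k (l + 1) - h n k l ∧ h n k (l + 1) - h n k l ≤ M) →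
    (∀ n k k' l, l + 1 ≤ K n → k ≤ k' → k' ≤ K n → h n k' (l + 1) - h n k' l ≤ h n k (l + 1) - h n k l) →
    (∀ n, 0 ≤ h n 0 0) → (∀ n, h n 0 (K n) ≤ E * K n + c) →
    ∃ V : ℕ → ℝ, Monotone V ∧ (∀ j, 0 ≤ V j ∧ V j ≤ E) ∧
      ∀ (W n0 : ℕ) (τ : ℝ), 0 < τ → ∃ n, n0 ≤ n ∧ W ≤ K n ∧ ∀ o j, o + j + 1 ≤ W →
        |(∑ k ∈ Finset.range (K n - W + 1), (h n (k + o) (k + o + j + 1) - h n (k + o) (k + o + j))) /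
          ((K n - W + 1 : ℕ) : ℝ) - V j| ≤ τ

/-- (FIN) induction step -/
def ST_FIN : Prop :=
  ∀ m q' : ℕ, q' + 1 ≤ m → EQ m q' → EQ m (q' + 1)

/-- (MK) Minkowski dimension, heights in `[0, 1]` -/
def ST_MK : Prop :=
  ∀ (m b : ℕ) (R ε : ℝ), 1 ≤ m → 2 ≤ b → 0 ≤ R → 0 < ε → EQ m m → ∃ c : ℝ, 0 < c ∧
    ∀ (a : (Fin m → ℝ) → Fin m → ℝ) (E : Set (EuclideanSpace ℝ (Fin (m + 1)))), Sticky a b R →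
      (∀ x ∈ cube m, ∀ t : ℝ, 0 ≤ t → t ≤ 1 → pt (fun c => a x c + t * x c) t ∈ E) →
      ∀ δ : ℝ, 0 < δ → δ < 1 → ENNReal.ofReal (c * δ ^ ε) ≤ volume (Metric.thickening δ E)

end Pool.Agent.Helper70.SK
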