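import Pool.Agent.Helper70.SK.Stmts
import Pool.Agent.Helper70.DK.Defs2

/-! Sticky Kakeya sets, Minkowski dimension, robust form: statements of the modules. -/

namespace Pool.Agent.Helper70.SK

open Finset Pool.Agent.Helper70.DK MeasureTheory

/-- `a` is sticky on `D`: the positions of two points of `D` in the same `b`-adic cube of side `b ^ (- j)` differ
by at most `R * b ^ (- j)` in every coordinate -/
def StickyOn {m : ℕ} (b : ℕ) (R : ℝ) (D : Set (Fin m → ℝ)) (a : (Fin m → ℝ) → Fin m → ℝ) : Prop :=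
  ∀ j : ℕ, ∀ x ∈ D, ∀ x' ∈ D, (∀ c, ⌊(b : ℝ) ^ j * x c⌋ = ⌊(b : ℝ) ^ j * x' c⌋) →
    ∀ c, |a x c - a x' c| * (b : ℝ) ^ j ≤ R

/-- (VOLR) many separated points on many slices give a large neighbourhood -/
def ST_VOLR : Prop :=
  ∀ m : ℕ, ∃ c : ℝ, 0 < c ∧ ∀ (E : Set (EuclideanSpace ℝ (Fin (m + 1)))) (T : Set ℝ) (ρ X μ : ℝ),
    0 < ρ → ρ ≤ 1 → 0 ≤ X → 0 ≤ μ → ENNReal.ofReal μ ≤ volume T →
    (∀ t ∈ T, ∃ (F : Finset (Fin m → ℝ)) (x0 : Fin m → ℝ), (∀ y ∈ F, pt y t ∈ E) ∧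
      (∀ y ∈ F, ∀ y' ∈ F, fl (fun c => (y c - x0 c) / ρ) = fl (fun c => (y' c - x0 c) / ρ) → y = y') ∧
      X ≤ F.card) →
    ENNReal.ofReal (c * μ * X * ρ ^ m) ≤ volume (Metric.thickening ρ E)

open Classical in
/-- (ENTP) almost full entropy: many values on every large subset -/
def ST_ENTP : Prop :=
  ∀ (Ω α : Type) (S P : Finset Ω) (f : Ω → α) (F : Finset α) (b0 D p : ℝ), S.Nonempty → P ⊆ S → 0 < p →
    p * S.card ≤ P.card → (∀ x ∈ S, f x ∈ F) → Real.log F.card ≤ b0 → b0 - D ≤ ent S f →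
    b0 - (D + Real.log 2) / p ≤ Real.log ((P.image f).card)

open Classical in
/-- the cells of level `L` that meet the slab of index `γ` of `S` -/
noncomputable def cellsOf (m b L : ℕ) (S : Set ((Fin m → ℝ) × ℝ)) (γ : ℕ) : Finset (Fin m → ℤ) :=
  (gr m (b ^ L)).filter (fun x => ∃ p ∈ S, (∀ c, ⌊(b : ℝ) ^ L * p.1 c⌋ = x c) ∧ ⌊(b : ℝ) ^ L * p.2⌋ = (γ : ℤ))

open Classical in
/-- (CNT) a set of outer measure at least `lam` meets many cells at many heights -/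
def ST_CNT : Prop :=
  ∀ (m b L : ℕ) (lam : ℝ) (S : Set ((Fin m → ℝ) × ℝ)), 2 ≤ b → 0 ≤ lam → S ⊆ cube m ×ˢ Set.Icc 0 1 →
    ENNReal.ofReal lam ≤ volume S →
    lam / 2 * (b : ℝ) ^ L ≤ (((Finset.range (b ^ L)).filter
      (fun γ => lam / 2 * (b : ℝ) ^ (L * m) ≤ ((cellsOf m b L S γ).card : ℝ))).card : ℝ)

/-- (MKR) one scale: Minkowski dimension with a set of positive measure of slopes and heights -/
def ST_MKR : Prop :=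
  ∀ (m b : ℕ) (R lam ε : ℝ), 2 ≤ b → 0 ≤ R → 0 < lam → 0 < ε → EQ m m → ∃ (L0 : ℕ) (c K : ℝ), 0 < c ∧ 0 < K ∧
    ∀ L, L0 ≤ L → ∀ a : (Fin m → ℝ) → Fin m → ℝ, Sticky a b R →
    ∀ S : Set ((Fin m → ℝ) × ℝ), S ⊆ cube m ×ˢ Set.Icc 0 1 → ENNReal.ofReal lam ≤ volume S →
    ∀ E : Set (EuclideanSpace ℝ (Fin (m + 1))), (∀ p ∈ S, pt (fun c => a p.1 c + p.2 * p.1 c) p.2 ∈ E) →
      ENNReal.ofReal (c * ((b : ℝ)⁻¹ ^ L) ^ ε) ≤ volume (Metric.thickening (K * (b : ℝ)⁻¹ ^ L) E)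

/-- (EXT) extension of a sticky map from `D` to the unit cube, up to the scale `b ^ (- L)` -/
def ST_EXT : Prop :=
  ∀ (m b L : ℕ) (R : ℝ) (D : Set (Fin m → ℝ)) (a : (Fin m → ℝ) → Fin m → ℝ), 2 ≤ b → 0 ≤ R → D ⊆ cube m →
    D.Nonempty → StickyOn b R D a → ∃ a' : (Fin m → ℝ) → Fin m → ℝ, Sticky a' b R ∧
      ∀ x ∈ D, ∀ c, |a' x c - a x c| * (b : ℝ) ^ L ≤ R

/-- (SHEAR) translations of slopes and heights -/
def ST_SHEAR : Prop :=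
  ∀ m M : ℕ, ∃ K : ℝ, 1 ≤ K ∧ ∀ (v : Fin m → ℤ) (k : ℤ), (∀ c, |v c| ≤ M) → |k| ≤ M →
    ∀ (E : Set (EuclideanSpace ℝ (Fin (m + 1)))) (δ : ℝ), 0 < δ →
      volume (Metric.thickening (δ / K) {p : EuclideanSpace ℝ (Fin (m + 1)) |
        pt (fun c => p c.castSucc + p (Fin.last m) * v c) (p (Fin.last m) + k) ∈ E}) ≤
      volume (Metric.thickening δ E)

/-- (MKD) all scales, maps sticky on a subset `D` of the unit cube, heights in `[0, 1]` -/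
def ST_MKD : Prop :=
  ∀ (m b : ℕ) (R lam ε : ℝ), 2 ≤ b → 0 < lam → 0 < ε → EQ m m → ∃ c : ℝ, 0 < c ∧
    ∀ (D : Set (Fin m → ℝ)) (a : (Fin m → ℝ) → Fin m → ℝ), D ⊆ cube m → StickyOn b R D a →
    ∀ S : Set ((Fin m → ℝ) × ℝ), S ⊆ D ×ˢ Set.Icc 0 1 → ENNReal.ofReal lam ≤ volume S →
    ∀ E : Set (EuclideanSpace ℝ (Fin (m + 1))), (∀ p ∈ S, pt (fun c => a p.1 c + p.2 * p.1 c) p.2 ∈ E) →
    ∀ δ : ℝ, 0 < δ → δ < 1 → ENNReal.ofReal (c * δ ^ ε) ≤ volume (Metric.thickening δ E)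

/-- (GEN) general bounded sets of slopes and heights -/
def ST_GEN : Prop :=
  ∀ (m b M : ℕ) (R lam ε : ℝ), 2 ≤ b → 0 < lam → 0 < ε → EQ m m → ∃ c : ℝ, 0 < c ∧
    ∀ (D : Set (Fin m → ℝ)) (a : (Fin m → ℝ) → Fin m → ℝ), StickyOn b R D a →
    ∀ S : Set ((Fin m → ℝ) × ℝ), (∀ p ∈ S, p.1 ∈ D ∧ (∀ c, |p.1 c| ≤ M) ∧ |p.2| ≤ M) →
    ENNReal.ofReal lam ≤ volume S →
    ∀ E : Set (EuclideanSpace ℝ (Fin (m + 1))), (∀ p ∈ S, pt (fun c => a p.1 c + p.2 * p.1 c) p.2 ∈ E) →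
    ∀ δ : ℝ, 0 < δ → δ < 1 → ENNReal.ofReal (c * δ ^ ε) ≤ volume (Metric.thickening δ E)

/-- (COVR) countable covers -/
def ST_COVR : Prop :=
  ∀ (m b : ℕ) (R : ℝ), 2 ≤ b → EQ m m →
    ∀ (D : Set (Fin m → ℝ)) (a : (Fin m → ℝ) → Fin m → ℝ), StickyOn b R D a →
    ∀ S : Set ((Fin m → ℝ) × ℝ), (∀ p ∈ S, p.1 ∈ D) → volume S ≠ 0 →
    ∀ E : ℕ → Set (EuclideanSpace ℝ (Fin (m + 1))),
      (∀ p ∈ S, pt (fun c => a p.1 c + p.2 * p.1 c) p.2 ∈ ⋃ i, E i) →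
    ∃ i, ∀ ε : ℝ, 0 < ε → ∃ c : ℝ, 0 < c ∧ ∀ δ : ℝ, 0 < δ → δ < 1 →
      ENNReal.ofReal (c * δ ^ ε) ≤ volume (Metric.thickening δ (E i))

end Pool.Agent.Helper70.SK
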