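import Pool.Agent.Helper70.SK.Stmts2

/-! Line sets of finite Minkowski content (no grid, no base): statements of the modules. -/

namespace Pool.Agent.Helper70.SK

open Finset Pool.Agent.Helper70.DK MeasureTheory

/-- the line set `L` (pairs slope, position) meets at most `C * 2 ^ (m j)` dyadic cubes of side `2 ^ (- j)` of
`R ^ m × R ^ m`, for every `j` -/
def Content (m : ℕ) (C : ℝ) (L : Set ((Fin m → ℝ) × (Fin m → ℝ))) : Prop :=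
  ∀ j : ℕ, ∃ F : Finset ((Fin m → ℤ) × (Fin m → ℤ)), (F.card : ℝ) ≤ C * 2 ^ (m * j) ∧
    ∀ p ∈ L, ((fun c => ⌊(2 : ℝ) ^ j * p.1 c⌋), (fun c => ⌊(2 : ℝ) ^ j * p.2 c⌋)) ∈ F

/-! ### geometric measure theory -/

/-- (RSH) translations of slopes (real shears) -/
def ST_RSH : Prop :=
  ∀ (m : ℕ) (M : ℝ), 0 ≤ M → ∃ K : ℝ, 1 ≤ K ∧ ∀ (v : Fin m → ℝ) (k : ℝ), (∀ c, |v c| ≤ M) →
    ∀ (E : Set (EuclideanSpace ℝ (Fin (m + 1)))) (δ : ℝ), 0 < δ →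
      volume (Metric.thickening (δ / K) {p : EuclideanSpace ℝ (Fin (m + 1)) |
        pt (fun c => p c.castSucc + p (Fin.last m) * v c) (p (Fin.last m) + k) ∈ E}) ≤
      volume (Metric.thickening δ E)

open Classical in
/-- (OCC) a set of outer measure at least `lam` meets at least `lam N ^ (m + 1)` cells of side `1 / N` -/
def ST_OCC : Prop :=
  ∀ (m N : ℕ) (lam : ℝ) (S : Set ((Fin m → ℝ) × ℝ)), 1 ≤ N → 0 ≤ lam → S ⊆ cube m ×ˢ Set.Icc 0 1 →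
    ENNReal.ofReal lam ≤ volume S →
    lam * (N : ℝ) ^ (m + 1) ≤ (((gr m N ×ˢ Finset.range N).filter
      (fun z => ∃ p ∈ S, (∀ c, ⌊(N : ℝ) * p.1 c⌋ = z.1 c) ∧ ⌊(N : ℝ) * p.2⌋ = (z.2 : ℤ))).card : ℝ)

/-- (BOXV) volume of a union of cells -/
def ST_BOXV : Prop :=
  ∀ (m N : ℕ) (T : Finset ((Fin m → ℤ) × ℕ)), 1 ≤ N → T ⊆ gr m N ×ˢ Finset.range N →
    ENNReal.ofReal ((T.card : ℝ) / (N : ℝ) ^ (m + 1)) ≤ volume {p : (Fin m → ℝ) × ℝ |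
      p.1 ∈ cube m ∧ p.2 ∈ Set.Icc 0 1 ∧ ∃ z ∈ T, (∀ c, ⌊(N : ℝ) * p.1 c⌋ = z.1 c) ∧ ⌊(N : ℝ) * p.2⌋ = (z.2 : ℤ)}

open Classical in
/-- (CELL) one sheet for every cell of slopes -/
def ST_CELL : Prop :=
  ∀ (m N : ℕ) (C lam : ℝ) (O : Finset ((Fin m → ℤ) × ℕ)) (F : Finset ((Fin m → ℤ) × (Fin m → ℤ)))
    (al : (Fin m → ℤ) → ℕ → Fin m → ℤ), 1 ≤ N → 0 < lam → 0 < C →
    O ⊆ gr m N ×ˢ Finset.range N → lam * (N : ℝ) ^ (m + 1) ≤ O.card → (F.card : ℝ) ≤ C * (N : ℝ) ^ m →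
    (∀ z ∈ O, (z.1, al z.1 z.2) ∈ F) →
    ∃ (X0 : Finset (Fin m → ℤ)) (α : (Fin m → ℤ) → Fin m → ℤ), X0 ⊆ gr m N ∧
      lam / 4 * (N : ℝ) ^ m ≤ X0.card ∧
      ∀ χ ∈ X0, lam ^ 2 / (8 * C) * N ≤
        (((Finset.range N).filter (fun γ => (χ, γ) ∈ O ∧ al χ γ = α χ)).card : ℝ)

/-! ### the tree of cells -/

/-- (THR) threshold -/
def ST_THR : Prop :=
  ∀ (δ : Type) (A : Finset δ) (w : δ → ℝ) (Z : ℝ), A.Nonempty → (∀ d ∈ A, 0 ≤ w d ∧ w d ≤ 1) → 0 < Z →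
    ∑ d ∈ A, w d = Z * A.card →
    ∃ k : ℕ, (A.card : ℝ) * (Z ^ 2 * Real.exp (2 * k - 4)) ≤
      ((A.filter (fun d => Real.exp (-(k : ℝ)) ≤ w d)).card : ℝ)

/-- states: cell of slopes and cell of positions -/
abbrev St (m : ℕ) : Type := (Fin m → ℤ) × (Fin m → ℤ)

/-- the states of level `i` -/
noncomputable def Stt {m : ℕ} (B n : ℕ) (X0 : Finset (Fin m → ℤ)) (al : (Fin m → ℤ) → Fin m → ℤ) (i : ℕ) :
    Finset (St m) :=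
  X0.image (fun χ => (cl B (n - i) χ, cl B (n - i) (al χ)))

open Classical in
/-- the children (of level `i + 1`) of the state `s` (of level `i`) with the digit `d` -/
noncomputable def Chd {m : ℕ} (B n : ℕ) (X0 : Finset (Fin m → ℤ)) (al : (Fin m → ℤ) → Fin m → ℤ) (i : ℕ)
    (s : St m) (d : Fin m → ℤ) : Finset (St m) :=
  (Stt B n X0 al (i + 1)).filter (fun s' => s'.1 = (fun c => B * s.1 c + d c) ∧ cl B 1 s'.2 = s.2)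

/-- the largest number of grid points with one sheet below the state `s` of level `n - r` -/
noncomputable def Zr {m : ℕ} (B n : ℕ) (X0 : Finset (Fin m → ℤ)) (al : (Fin m → ℤ) → Fin m → ℤ) :
    ℕ → St m → NNReal
  | 0, _ => 1
  | r + 1, s => ∑ d ∈ gr m B, (Chd B n X0 al (n - (r + 1)) s d).sup (Zr B n X0 al r)

/-- (ZJ) lower bound at the root -/
def ST_ZJ : Prop :=
  ∀ (m B n : ℕ) (C lam0 : ℝ) (X0 : Finset (Fin m → ℤ)) (al : (Fin m → ℤ) → Fin m → ℤ), 2 ≤ B → 1 ≤ C →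
    0 < lam0 → lam0 ≤ 1 → X0 ⊆ gr m (B ^ n) → lam0 * (B : ℝ) ^ (m * n) ≤ X0.card →
    (∀ i ≤ n, ((Stt B n X0 al i).card : ℝ) ≤ C * (B : ℝ) ^ (m * i)) →
    ∃ s0 ∈ Stt B n X0 al 0, lam0 * (lam0 / C) ^ (n + 1) * (B : ℝ) ^ (m * n) ≤ (Zr B n X0 al n s0 : ℝ)

/-- (PRU) a subtree with single sheets and controlled densities of digits -/
def ST_PRU : Prop :=
  ∀ (m B n : ℕ) (C lam0 : ℝ) (X0 : Finset (Fin m → ℤ)) (al : (Fin m → ℤ) → Fin m → ℤ), 2 ≤ B → 1 ≤ C →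
    0 < lam0 → lam0 ≤ 1 → X0 ⊆ gr m (B ^ n) → lam0 * (B : ℝ) ^ (m * n) ≤ X0.card →
    (∀ i ≤ n, ((Stt B n X0 al i).card : ℝ) ≤ C * (B : ℝ) ^ (m * i)) →
    ∃ (G : ℕ → St m → Prop) (z : ℕ → St m → ℝ) (A : ℕ → St m → Finset (Fin m → ℤ))
      (ch : ℕ → St m → (Fin m → ℤ) → St m) (s0 : St m), G 0 s0 ∧
      z 0 s0 ≤ (n + 1) * Real.log (C / lam0) + Real.log (1 / lam0) ∧
      (∀ i ≤ n, ∀ s, G i s → s ∈ Stt B n X0 al i ∧ 0 ≤ z i s) ∧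
      (∀ i < n, ∀ s, G i s → A i s ⊆ gr m B ∧ (A i s).Nonempty ∧ ∀ d ∈ A i s, G (i + 1) (ch i s d) ∧
        (ch i s d).1 = (fun c => B * s.1 c + d c) ∧ cl B 1 (ch i s d).2 = s.2 ∧
        (B : ℝ) ^ m * Real.exp (-(2 * (z i s - z (i + 1) (ch i s d)) + 4)) ≤ ((A i s).card : ℝ))

/-- (COVS) common shifts for a family of sets of digits -/
def ST_COVS : Prop :=
  ∀ (m B J : ℕ) (ι : Type) (I : Finset ι) (A : ι → Finset (Fin m → ℤ)) (j : ι → ℕ) (K : ℝ), 1 ≤ B → 0 < K →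
    (∀ s ∈ I, A s ⊆ gr m B ∧ j s ≤ J ∧ K * 2 ^ m * (B : ℝ) ^ m ≤ (j s : ℝ) * ((A s).card : ℝ)) →
    ∃ θ : ℕ → Fin m → ℤ,
      ∑ s ∈ I, (((gr m B).filter (fun x => ∀ l < j s, (fun c => x c - θ l c) ∉ A s)).card : ℝ) ≤
        Real.exp (-K) * (I.card * (B : ℝ) ^ m)

/-- (RUN) the adapted map: states `st`, codes `kk` (`0`: no shift works) -/
def ST_RUN : Prop :=
  ∀ (m B n J : ℕ) (σ : Type) (G : ℕ → σ → Prop) (A : ℕ → σ → Finset (Fin m → ℤ))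
    (ch : ℕ → σ → (Fin m → ℤ) → σ) (jj : ℕ → σ → ℕ) (s0 : σ) (K : ℝ), 1 ≤ B → 0 < K → G 0 s0 →
    (∀ i < n, ∀ s, G i s → A i s ⊆ gr m B ∧ (A i s).Nonempty ∧ jj i s ≤ J ∧
      K * 2 ^ m * (B : ℝ) ^ m ≤ (jj i s : ℝ) * ((A i s).card : ℝ) ∧ ∀ d ∈ A i s, G (i + 1) (ch i s d)) →
    ∃ (st : ℕ → (Fin m → ℤ) → σ) (kk : ℕ → (Fin m → ℤ) → ℕ) (dg : ℕ → (Fin m → ℤ) → Fin m → ℤ)
      (θ : ℕ → ℕ → Fin m → ℤ), (∀ x, st 0 x = s0) ∧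
      (∀ i < n, ∀ x ∈ gr m (B ^ (i + 1)), G i (st i (cl B 1 x)) ∧ dg i x ∈ A i (st i (cl B 1 x)) ∧
        st (i + 1) x = ch i (st i (cl B 1 x)) (dg i x) ∧ kk i x ≤ jj i (st i (cl B 1 x)) ∧
        (kk i x ≠ 0 → ∀ c, x c - B * (cl B 1 x) c - dg i x c = θ i (kk i x) c)) ∧
      (∀ i < n, (((gr m (B ^ (i + 1))).filter (fun x => kk i x = 0)).card : ℝ) ≤
        Real.exp (-K) * (B : ℝ) ^ (m * (i + 1)))

/-- (CODE) number of the sums of shifts -/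
def ST_CODE : Prop :=
  ∀ (m B n : ℕ) (Y β : ℝ) (ω : Type) (X : Finset ω) (kk : ℕ → ω → ℕ) (dd : ℕ → ω → Fin m → ℤ)
    (θ : ℕ → ℕ → Fin m → ℤ), 2 ≤ B → 0 ≤ β → 0 < Y →
    (∀ x ∈ X, ∀ i < n, (kk i x ≠ 0 → dd i x = θ i (kk i x)) ∧ ∀ c, |dd i x c| < (B : ℤ)) →
    (∀ x ∈ X, ∏ i ∈ Finset.range n, (max (kk i x) 1 : ℝ) ≤ Y) →
    (∀ x ∈ X, (((Finset.range n).filter (fun i => kk i x = 0)).card : ℝ) ≤ β * n) →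
    (((X.image (fun x c => ∑ i ∈ Finset.range n, dd i x c * (B : ℤ) ^ (n - 1 - i))).card : ℕ) : ℝ) ≤
      Y ^ 2 * 3 ^ n * (2 * (B : ℝ)) ^ (m * β * n)

/-- (TB) a sticky map on the full grid, up to few translations of the slopes -/
def ST_TB : Prop :=
  ∀ (m : ℕ) (C lam0 η : ℝ), 1 ≤ m → 1 ≤ C → 0 < lam0 → lam0 ≤ 1 → 0 < η → ∃ B0 : ℕ, ∀ B, B0 ≤ B →
  ∀ (n : ℕ) (X0 : Finset (Fin m → ℤ)) (al : (Fin m → ℤ) → Fin m → ℤ), X0 ⊆ gr m (B ^ n) →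
    lam0 * (B : ℝ) ^ (m * n) ≤ X0.card →
    (∀ i ≤ n, ((Stt B n X0 al i).card : ℝ) ≤ C * (B : ℝ) ^ (m * i)) →
    ∃ (Φ : (Fin m → ℤ) → Fin m → ℤ) (X1 : Finset (Fin m → ℤ)), (∀ x ∈ gr m (B ^ n), Φ x ∈ X0) ∧
      (∀ i ≤ n, ∀ x ∈ gr m (B ^ n), ∀ x' ∈ gr m (B ^ n), cl B (n - i) x = cl B (n - i) x' →
        cl B (n - i) (al (Φ x)) = cl B (n - i) (al (Φ x'))) ∧
      X1 ⊆ gr m (B ^ n) ∧ 1 / 2 * (B : ℝ) ^ (m * n) ≤ X1.card ∧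
      (((X1.image (fun x c => x c - Φ x c)).card : ℕ) : ℝ) ≤ (B : ℝ) ^ (m * η * n)

/-! ### final statements -/

/-- (ONE) unit cube, one scale -/
def ST_ONE : Prop :=
  ∀ (m : ℕ) (C lam ε : ℝ), 1 ≤ m → 1 ≤ C → 0 < lam → 0 < ε → ∃ (B : ℕ) (c K : ℝ), 2 ≤ B ∧ 0 < c ∧ 1 ≤ K ∧
    ∀ L : Set ((Fin m → ℝ) × (Fin m → ℝ)), Content m C L →
    ∀ E : Set (EuclideanSpace ℝ (Fin (m + 1))),
      ENNReal.ofReal lam ≤ volume {p : (Fin m → ℝ) × ℝ | p.1 ∈ cube m ∧ p.2 ∈ Set.Icc 0 1 ∧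
        ∃ a : Fin m → ℝ, (p.1, a) ∈ L ∧ pt (fun c => a c + p.2 * p.1 c) p.2 ∈ E} →
    ∀ n : ℕ, ENNReal.ofReal (c * ((B : ℝ)⁻¹ ^ n) ^ ε) ≤ volume (Metric.thickening (K * (B : ℝ)⁻¹ ^ n) E)

/-- (UC) unit cube, all scales -/
def ST_UC : Prop :=
  ∀ (m : ℕ) (C lam ε : ℝ), 1 ≤ m → 0 < lam → 0 < ε → ∃ c : ℝ, 0 < c ∧
    ∀ L : Set ((Fin m → ℝ) × (Fin m → ℝ)), Content m C L →
    ∀ E : Set (EuclideanSpace ℝ (Fin (m + 1))),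
      ENNReal.ofReal lam ≤ volume {p : (Fin m → ℝ) × ℝ | p.1 ∈ cube m ∧ p.2 ∈ Set.Icc 0 1 ∧
        ∃ a : Fin m → ℝ, (p.1, a) ∈ L ∧ pt (fun c => a c + p.2 * p.1 c) p.2 ∈ E} →
    ∀ δ : ℝ, 0 < δ → δ < 1 → ENNReal.ofReal (c * δ ^ ε) ≤ volume (Metric.thickening δ E)

/-- (GL) bounded slopes and heights -/
def ST_GL : Prop :=
  ∀ (m M : ℕ) (C lam ε : ℝ), 1 ≤ m → 0 < lam → 0 < ε → ∃ c : ℝ, 0 < c ∧
    ∀ L : Set ((Fin m → ℝ) × (Fin m → ℝ)), Content m C L →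
    ∀ E : Set (EuclideanSpace ℝ (Fin (m + 1))),
      ENNReal.ofReal lam ≤ volume {p : (Fin m → ℝ) × ℝ | (∀ c, |p.1 c| ≤ M) ∧ |p.2| ≤ M ∧
        ∃ a : Fin m → ℝ, (p.1, a) ∈ L ∧ pt (fun c => a c + p.2 * p.1 c) p.2 ∈ E} →
    ∀ δ : ℝ, 0 < δ → δ < 1 → ENNReal.ofReal (c * δ ^ ε) ≤ volume (Metric.thickening δ E)

end Pool.Agent.Helper70.SK
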